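import Pool.Agent.OC2.Defs

/-!
# The zero-one law with one missing 2-cell: counting successful templates
-/

set_option autoImplicit false

open scoped BigOperators

namespace Pool.Agent.OC

open Pool.Agent.FoxAsph Pool.Agent.WT Pool.Agent.RelGap Pool.Agent.ZO Pool.Agent.GX
open Pool.Agent.WT.Trees (PF)

section exch

variable {V : Type} [Fintype V] {P : Pattern} {ℓ A : ℕ} {r : V}

theorem mem_TT1 {τ : Tm V (Bool × V)} :
    τ ∈ TT1 P ℓ A r ↔ τ.Wf r (false, r) ∧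
      ∃ z idx att dl, Succ1 P ℓ A τ.D τ.u τ.g τ.d z idx att dl := by
  classical
  unfold TT1
  rw [Finset.mem_filter]
  exact and_iff_right (Finset.mem_univ _)

theorem TT1_sub {τ : Tm V (Bool × V)} (h : τ ∈ TT1 P ℓ A r) : τ ∈ TT P ℓ A r := by
  obtain ⟨hw, z, idx, att, dl, hs⟩ := mem_TT1.1 h
  exact mem_TT.2 ⟨hw, z, idx, att, dl, hs.1⟩

omit [Fintype V] in
theorem mv_d (σ : Equiv.Perm V) (D' : Finset V) (τ : Tm V (Bool × V))
    (hσ : ∀ x, σ x ∈ D' ↔ x ∈ τ.D) {x : V} (hx : x ∈ τ.D) (hxu : x ≠ τ.u) :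
    (mv r σ D' τ).d (σ x) = ((τ.d x).1, σ (τ.d x).2) := by
  classical
  have h1 : σ x ∈ D' ∧ σ x ≠ σ τ.u := ⟨(hσ x).2 hx, fun h => hxu (σ.injective h)⟩
  simp only [mv]
  rw [if_pos h1, Equiv.symm_apply_apply]

omit [Fintype V] in
theorem mv_succ (σ : Equiv.Perm V) (D' : Finset V) (τ : Tm V (Bool × V))
    (hw : τ.Wf r (false, r)) {z : V} {idx att dl : ℕ → ℕ}
    (hs : Succ P ℓ A τ.D τ.u τ.g τ.d z idx att dl)
    (hσ : ∀ x, σ x ∈ D' ↔ x ∈ τ.D) (hc : D'.card = τ.D.card) :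
    Succ P ℓ A D' (mv r σ D' τ).u (mv r σ D' τ).g (mv r σ D' τ).d (σ z) idx att dl := by
  classical
  have hd : ∀ x, x ∈ τ.D → x ≠ τ.u →
      (mv r σ D' τ).d (σ x) = ((τ.d x).1, σ (τ.d x).2) := fun x hx hxu => mv_d σ D' τ hσ hx hxu
  have hit : ∀ m x, (mv r σ D' τ).g^[m] (σ x) = σ (τ.g^[m] x) := fun m x => conj_it σ τ.g m x
  set L := Ls P.N ℓ with hL
  have hsD : ∀ i, sv τ.g z L i ∈ τ.D := fun i => wf_iter hw hs.zD _
  have hsu : ∀ i, sv τ.g z L i ≠ τ.u := fun i h =>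
    hs.nu (fix_iter hw.gtop h (Nat.sub_le _ _))
  have hsv : ∀ i, sv (mv r σ D' τ).g (σ z) L i = σ (sv τ.g z L i) := fun i => hit _ _
  have hy : ∀ j, (mv r σ D' τ).d (sv (mv r σ D' τ).g (σ z) L (idx j)) =
      ((τ.d (sv τ.g z L (idx j))).1, σ (τ.d (sv τ.g z L (idx j))).2) := by
    intro j
    rw [hsv, hd _ (hsD _) (hsu _)]
  refine ⟨(hσ z).2 hs.zD, ?_, ?_, ?_, ?_, ?_, ?_, hs.idx_mem, hs.att_mem, hs.dl_pos, ?_, ?_, ?_,
    ?_, ?_⟩
  · rw [hit]
    exact fun h => hs.nu (σ.injective h)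
  · rw [hit, hs.hu]
    rfl
  · rw [hc]
    exact hs.cardlo
  · rw [hc]
    exact hs.cardhi
  · rw [hit]
    exact (conj_sz σ τ.g _).trans_lt hs.szq
  · exact hs.szz.trans_eq (conj_sz σ τ.g _).symm
  · intro j h1 h2
    rw [hy]
    exact hs.ori j h1 h2
  · intro j h1 h2
    rw [hy]
    exact (hσ _).2 (hs.labD j h1 h2)
  · intro j h1 h2
    rw [hy, hsv]
    simp only
    rw [hit, hs.path j h1 h2]
  · intro i hi h
    rw [hsv, hd _ (hsD _) (hsu _)]
    simp only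
    rw [hσ]
    exact hs.stat1 i hi h
  · intro j h1 h2 i hi
    rw [hy]
    simp only
    rw [hit]
    have hlD := hs.labD j h1 h2
    have hne : τ.g^[i] (τ.d (sv τ.g z L (idx j))).2 ≠ τ.u := by
      intro h
      have h3 := fix_iter hw.gtop h hi.le
      rw [hs.path j h1 h2] at h3
      exact hsu _ h3
    rw [hd _ (wf_iter hw hlD i) hne]
    simp only
    rw [hσ]
    exact hs.stat2 j h1 h2 i hi

omit [Fintype V] in
theorem mv_HH (σ : Equiv.Perm V) (D' : Finset V) (τ : Tm V (Bool × V))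
    (hw : τ.Wf r (false, r)) {z : V} {idx att dl : ℕ → ℕ}
    (hs : Succ P ℓ A τ.D τ.u τ.g τ.d z idx att dl)
    (hσ : ∀ x, σ x ∈ D' ↔ x ∈ τ.D) {x : V}
    (hx : x ∈ HH τ.g τ.u z (Ls P.N ℓ) P.N idx dl τ.d) :
    σ x ∈ HH (mv r σ D' τ).g (mv r σ D' τ).u (σ z) (Ls P.N ℓ) P.N idx dl (mv r σ D' τ).d := by
  classical
  have hit : ∀ m x, (mv r σ D' τ).g^[m] (σ x) = σ (τ.g^[m] x) := fun m x => conj_it σ τ.g m x
  set L := Ls P.N ℓ with hL
  have hsD : ∀ i, sv τ.g z L i ∈ τ.D := fun i => wf_iter hw hs.zD _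
  have hsu : ∀ i, sv τ.g z L i ≠ τ.u := fun i h =>
    hs.nu (fix_iter hw.gtop h (Nat.sub_le _ _))
  have hsv : ∀ i, sv (mv r σ D' τ).g (σ z) L i = σ (sv τ.g z L i) := fun i => hit _ _
  rcases hx with rfl | ⟨i, hi, rfl⟩ | ⟨j, h1, h2, i, hi, rfl⟩
  · exact Or.inl rfl
  · exact Or.inr (Or.inl ⟨i, hi, (hsv i).symm⟩)
  · refine Or.inr (Or.inr ⟨j, h1, h2, i, hi, ?_⟩)
    rw [hsv, mv_d σ D' τ hσ (hsD _) (hsu _)]
    simp only
    rw [hit]

theorem mv_mem1 (σ : Equiv.Perm V) (D' : Finset V) (hr : r ∉ D') (τ : Tm V (Bool × V))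
    (hτ : τ ∈ TT1 P ℓ A r) (hσ : ∀ x, σ x ∈ D' ↔ x ∈ τ.D) (hc : D'.card = τ.D.card) :
    mv r σ D' τ ∈ TT1 P ℓ A r := by
  classical
  have h0 := mv_mem σ D' hr τ (TT1_sub hτ) hσ hc
  obtain ⟨hw, z, idx, att, dl, hs, ρ, hρ⟩ := mem_TT1.1 hτ
  refine mem_TT1.2 ⟨(mem_TT.1 h0).1, σ z, idx, att, dl, mv_succ σ D' τ hw hs hσ hc,
    fun y => ρ (σ.symm y), ?_⟩
  intro y hy hyH
  obtain ⟨x, rfl⟩ : ∃ x, y = σ x := ⟨σ.symm y, (Equiv.apply_symm_apply _ _).symm⟩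
  have hx : x ∈ τ.D := (hσ x).1 hy
  have hxH : x ∉ HH τ.g τ.u z (Ls P.N ℓ) P.N idx dl τ.d := fun h => hyH (mv_HH σ D' τ hw hs hσ h)
  have hxu : x ≠ τ.u := fun h => hxH (Or.inl h)
  obtain ⟨h1, h2⟩ := hρ x hx hxH
  have hgx : (mv r σ D' τ).g (σ x) = σ (τ.g x) := by
    have := conj_it σ τ.g 1 x
    exact this
  have hdx := mv_d (r := r) σ D' τ hσ hx hxu
  refine ⟨fun h => ?_, fun h h' => ?_⟩
  · rw [hgx] at h ⊢
    simp only [Equiv.symm_apply_apply]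
    exact h1 fun h3 => h (mv_HH σ D' τ hw hs hσ h3)
  · simp only at h h' ⊢
    rw [hdx] at h h' ⊢
    simp only [Equiv.symm_apply_apply]
    have h4 : (τ.d x).2 ∈ τ.D := (hσ _).1 h
    exact h2 h4 fun h3 => h' (mv_HH σ D' τ hw hs hσ h3)

theorem fiber_le1 (D D' : Finset V) (hr' : r ∉ D') (hc : D.card = D'.card)
    [DecidableEq V] :
    ((TT1 P ℓ A r).filter fun τ => τ.D = D).card ≤
      ((TT1 P ℓ A r).filter fun τ => τ.D = D').card := by
  classical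
  have e : {x // x ∈ D} ≃ {x // x ∈ D'} := Finset.equivOfCardEq hc
  set σ : Equiv.Perm V := e.extendSubtype with hσ
  have hs : ∀ x, σ x ∈ D' ↔ x ∈ D := by
    intro x
    constructor
    · intro h
      by_contra hx
      exact e.extendSubtype_not_mem x hx h
    · intro h
      exact e.extendSubtype_mem x h
  apply Finset.card_le_card_of_injOn (mv r σ D')
  · intro τ hτ
    rw [Finset.mem_coe, Finset.mem_filter] at hτ ⊢
    refine ⟨mv_mem1 σ D' hr' τ hτ.1 ?_ ?_, rfl⟩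
    · rw [hτ.2]
      exact hs
    · rw [hτ.2, hc]
  · intro τ hτ τ' hτ' he
    rw [Finset.mem_coe, Finset.mem_filter] at hτ hτ'
    exact mv_inj σ D D' hs (mem_TT1.1 hτ.1).1 (mem_TT1.1 hτ'.1).1 hτ.2 hτ'.2 he

theorem fiber_eq1 (D : Finset V) (hr : r ∉ D) [DecidableEq V] :
    ((TT1 P ℓ A r).filter fun τ => τ.D = D).card = Tn1 P ℓ A r D.card := by
  classical
  unfold Tn1
  have h : ∃ D' : Finset V, r ∉ D' ∧ D'.card = D.card := ⟨D, hr, rfl⟩
  rw [dif_pos h]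
  have h1 := h.choose_spec
  apply le_antisymm
  · have h2 := fiber_le1 (P := P) (ℓ := ℓ) (A := A) D h.choose h1.1 h1.2.symm
    refine le_trans (le_of_eq ?_) (h2.trans (le_of_eq ?_)) <;> congr
  · have h2 := fiber_le1 (P := P) (ℓ := ℓ) (A := A) h.choose D hr h1.2
    refine le_trans (le_of_eq ?_) (h2.trans (le_of_eq ?_)) <;> congr

end exch

section dec

variable {V : Type} [Fintype V] [DecidableEq V] {P : Pattern} {ℓ A : ℕ} {D : Finset V} {u : V}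
  {g : V → V} {z : V} {att dl : Fin P.N → ℕ} {y : Fin P.N → V} {r : V} {idx : Fin P.N → ℕ}
  {d : V → Bool × V}

/-- the vertices that are not eliminated: the top, the spine and the paths -/
def H1 {N : ℕ} (u : V) (g : V → V) (z : V) (L : ℕ) (dl : Fin N → ℕ) (y : Fin N → V) : Finset V :=
  insert u (Hs g z L dl y)

open Classical in
/-- the successful decorations with an acyclic complement -/
noncomputable def Dec1 (r : V) (P : Pattern) (ℓ : ℕ) (D : Finset V) (u : V) (g : V → V) (z : V)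
    (dl : Fin P.N → ℕ) (y : Fin P.N → V) (idx : Fin P.N → ℕ) : Finset (V → Bool × V) :=
  (Dec r P ℓ D u g z dl y idx).filter fun d =>
    Acy (D : Set V) (H1 u g z (Ls P.N ℓ) dl y : Set V) g fun x => (d x).2

theorem mem_Dec1 : d ∈ Dec1 r P ℓ D u g z dl y idx ↔ d ∈ Dec r P ℓ D u g z dl y idx ∧
    Acy (D : Set V) (H1 u g z (Ls P.N ℓ) dl y : Set V) g fun x => (d x).2 := by
  classical
  unfold Dec1
  rw [Finset.mem_filter]

theorem dec_HH (h : MG P ℓ A D u g z att dl y) (hd : d ∈ Dec r P ℓ D u g z dl y idx) :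
    HH g u z (Ls P.N ℓ) P.N (nat1 idx) (nat1 dl) d = (H1 u g z (Ls P.N ℓ) dl y : Set V) := by
  ext x
  rw [Finset.mem_coe]
  unfold H1
  rw [Finset.mem_insert]
  constructor
  · rintro (rfl | ⟨i, hi, rfl⟩ | ⟨j, h1, h2, i, hi, rfl⟩)
    · exact Or.inl rfl
    · exact Or.inr (mem_Hs_sv g z _ dl y hi)
    · obtain ⟨j', rfl, hj'⟩ := nat1_eq idx h1 h2
      rw [nat1_fin] at hi
      rw [hj', dec_special h hd j']
      exact Or.inr (mem_Hs_path g z _ dl y j' hi)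
  · rintro (rfl | hx)
    · exact Or.inl rfl
    · unfold Hs at hx
      rcases Finset.mem_union.1 hx with hx | hx
      · obtain ⟨i, hi, rfl⟩ := Finset.mem_image.1 hx
        exact Or.inr (Or.inl ⟨i, by have := Finset.mem_range.1 hi; omega, rfl⟩)
      · obtain ⟨j, _, hx⟩ := Finset.mem_biUnion.1 hx
        obtain ⟨i, hi, rfl⟩ := Finset.mem_image.1 hx
        refine Or.inr (Or.inr ⟨j.1 + 1, by omega, by have := j.2; omega, i, ?_, ?_⟩)
        · rw [nat1_fin]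
          exact Finset.mem_range.1 hi
        · rw [nat1_fin, dec_special h hd j]

theorem dec_succ (h : MG P ℓ A D u g z att dl y)
    (hidx : ∀ j : Fin P.N, idx j ∈ blk ℓ (bs P.N (j.1 + 1)))
    (hd : d ∈ Dec r P ℓ D u g z dl y idx) :
    Succ P ℓ A D u g d z (nat1 idx) (nat1 att) (nat1 dl) := by
  set L := Ls P.N ℓ with hL
  have hidxL : ∀ j : Fin P.N, idx j ≤ L := fun j =>
    blk_le (hidx j) (bs_le (by omega) (by have := j.2; omega))
  refine ⟨h.zD, h.nu, h.hu, h.cardlo, h.cardhi, h.szq, h.szz, ?_, ?_, ?_, ?_, ?_, ?_, ?_, ?_⟩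
  · intro j h1 h2
    obtain ⟨i, rfl, hi⟩ := nat1_eq idx h1 h2
    rw [hi]
    exact hidx i
  · intro j h1 h2
    obtain ⟨i, rfl, hi⟩ := nat1_eq att h1 h2
    rw [hi]
    exact h.att_mem i
  · intro j h1 h2
    obtain ⟨i, rfl, hi⟩ := nat1_eq dl h1 h2
    rw [hi]
    exact (h.dl_mem i).1
  · intro j h1 h2
    obtain ⟨i, rfl, hi⟩ := nat1_eq idx h1 h2
    rw [hi, dec_special h hd i]
  · intro j h1 h2
    obtain ⟨i, rfl, hi⟩ := nat1_eq idx h1 h2
    rw [hi, dec_special h hd i]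
    exact h.yD i
  · intro j h1 h2
    obtain ⟨i, rfl, hi⟩ := nat1_eq idx h1 h2
    rw [hi, nat1_fin, nat1_fin, dec_special h hd i]
    exact h.path i
  · intro i hi hne
    apply dec_static hd (h.svD i) (h.svu i) (mem_Hs_sv g z L dl y hi)
    intro j he
    have h3 := h.sv_inj (by omega) ((hidxL j).trans (Nat.le_succ _)) he
    apply hne (j.1 + 1) (by omega) (by have := j.2; omega)
    rw [nat1_fin]
    exact h3
  · intro j h1 h2 i hi
    obtain ⟨j', rfl, hj'⟩ := nat1_eq idx h1 h2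
    rw [hj']
    rw [nat1_fin] at hi
    rw [dec_special h hd j']
    apply dec_static hd (h.it (h.yD j') i) _ (mem_Hs_path g z L dl y j' hi)
    · intro k he
      exact h.off j' i hi (idx k) ((hidxL k).trans (Nat.le_succ _)) he
    · intro he
      have h3 := fix_iter h.gtop he hi.le
      rw [h.path j'] at h3
      exact h.svu _ h3

theorem dec1_mem (h : MG P ℓ A D u g z att dl y) (hr : r ∉ D)
    (hidx : ∀ j : Fin P.N, idx j ∈ blk ℓ (bs P.N (j.1 + 1)))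
    (hd : d ∈ Dec1 r P ℓ D u g z dl y idx) : (⟨D, u, g, d⟩ : Tm V (Bool × V)) ∈ TT1 P ℓ A r := by
  obtain ⟨hd1, hd2⟩ := mem_Dec1.1 hd
  refine mem_TT1.2 ⟨(mem_TT.1 (dec_mem h hr hidx hd1)).1, z, nat1 idx, nat1 att, nat1 dl,
    dec_succ h hidx hd1, ?_⟩
  simp only
  rw [dec_HH h hd1]
  exact hd2

/-- The vertices that are not eliminated are closed under the parent function. -/
theorem H1_closed (h : MG P ℓ A D u g z att dl y) :
    ∀ x ∈ H1 u g z (Ls P.N ℓ) dl y, g x ∈ H1 u g z (Ls P.N ℓ) dl y := by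
  intro x hx
  unfold H1 at hx ⊢
  rw [Finset.mem_insert] at hx ⊢
  rcases hx with rfl | hx
  · exact Or.inl h.gtop
  · unfold Hs at hx
    rcases Finset.mem_union.1 hx with hx | hx
    · obtain ⟨i, hi, rfl⟩ := Finset.mem_image.1 hx
      have hi' : i ≤ Ls P.N ℓ := by have := Finset.mem_range.1 hi; omega
      rcases i with _ | i
      · left
        have h1 := h.hu
        rw [Function.iterate_succ_apply'] at h1
        exact h1
      · right
        have h1 : g (sv g z (Ls P.N ℓ) (i + 1)) = sv g z (Ls P.N ℓ) i := by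
          unfold sv
          rw [← Function.iterate_succ_apply' g]
          congr 1
          omega
        rw [h1]
        exact mem_Hs_sv g z _ dl y (by omega)
    · obtain ⟨j, _, hx⟩ := Finset.mem_biUnion.1 hx
      obtain ⟨i, hi, rfl⟩ := Finset.mem_image.1 hx
      have hi' := Finset.mem_range.1 hi
      right
      rw [← Function.iterate_succ_apply' g]
      by_cases h1 : i + 1 < dl j
      · exact mem_Hs_path g z _ dl y j h1
      · have h2 : i + 1 = dl j := by omega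
        rw [Nat.succ_eq_add_one, h2, h.path j]
        apply mem_Hs_sv
        exact blk_le (h.att_mem j) (ba_le (P.le _) (by omega) (by have := j.2; omega))

theorem allow_univ (hidx : ∀ j : Fin P.N, idx j ∈ blk ℓ (bs P.N (j.1 + 1))) :
    ∀ x ∈ D \ H1 u g z (Ls P.N ℓ) dl y,
      allow r P D u g z (Ls P.N ℓ) dl y idx x = Finset.univ := by
  intro x hx
  rw [Finset.mem_sdiff] at hx
  unfold H1 at hx
  rw [Finset.mem_insert, not_or] at hx
  obtain ⟨hxD, hxu, hxH⟩ := hx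
  unfold allow
  rw [if_neg, Finset.filter_eq_self]
  · rintro c _
    refine ⟨fun j hj => ?_, fun h => absurd h hxH⟩
    exact absurd (hj ▸ mem_Hs_sv g z _ dl y
      (blk_le (hidx j) (bs_le (by omega) (by have := j.2; omega)))) hxH
  · rintro (h2 | h2)
    · exact h2 hxD
    · exact hxu h2

open Classical in
/-- the statement of `card_acy`: at least half of the labellings are acyclic -/
def CardAcy (V : Type) [Fintype V] [DecidableEq V] : Prop :=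
  ∀ (D H : Finset V) (u : V) (g : V → V), u ∈ D → u ∈ H → g u = u → (∀ x ∈ D, g x ∈ D) →
    (∀ x ∈ H, g x ∈ H) → (∀ x ∈ D, ∃ m, g^[m] x = u) → (∀ x, x ∉ D → g x = x) →
    ∀ al : V → Finset (Bool × V), (∀ x ∈ D \ H, al x = Finset.univ) →
      4 * ∑ x ∈ D \ H, (below g x).ncard ≤ Fintype.card V →
      (Fintype.piFinset al).card ≤
        2 * ((Fintype.piFinset al).filter fun d =>
          Acy (D : Set V) (H : Set V) g fun x => (d x).2).card

theorem card_Dec_le (hca : CardAcy V) (h : MG P ℓ A D u g z att dl y)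
    (hidx : ∀ j : Fin P.N, idx j ∈ blk ℓ (bs P.N (j.1 + 1)))
    (hW : 4 * ∑ x ∈ D \ H1 u g z (Ls P.N ℓ) dl y, (below g x).ncard ≤ Fintype.card V) :
    (Dec r P ℓ D u g z dl y idx).card ≤ 2 * (Dec1 r P ℓ D u g z dl y idx).card := by
  classical
  have h1 := hca D (H1 u g z (Ls P.N ℓ) dl y) u g h.uD (Finset.mem_insert_self _ _) h.gtop h.inD
    (H1_closed h) h.reach h.gout (allow r P D u g z (Ls P.N ℓ) dl y idx) (allow_univ hidx) hW
  refine h1.trans (le_of_eq ?_)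
  unfold Dec1 Dec
  congr

theorem mem_MM1 {t : V × (V → V) × V × (Fin P.N → V)} :
    t ∈ MM1 P ℓ A D att dl ↔ MG P ℓ A D t.1 t.2.1 t.2.2.1 att dl t.2.2.2 ∧
      4 * ∑ x ∈ D \ H1 t.1 t.2.1 t.2.2.1 (Ls P.N ℓ) dl t.2.2.2, (below t.2.1 x).ncard ≤
        Fintype.card V := by
  classical
  unfold MM1
  rw [Finset.mem_filter, mem_MM]
  rfl

/-- all data of a successful template with an acyclic complement -/
noncomputable def SS1 (P : Pattern) (ℓ A : ℕ) (r : V) (D : Finset V) :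
    Finset (Σ _ : (Σ _ : (Fin P.N → ℕ) × (Fin P.N → ℕ), (V × (V → V) × V × (Fin P.N → V)) ×
      (Fin P.N → ℕ)), (V → Bool × V)) :=
  ((AttF P ℓ ×ˢ DlF P ℓ).sigma fun ad => MM1 P ℓ A D ad.1 ad.2 ×ˢ IdxF P ℓ).sigma fun q =>
    Dec1 r P ℓ D q.2.1.1 q.2.1.2.1 q.2.1.2.2.1 q.1.2 q.2.1.2.2.2 q.2.2

theorem card_SS1_le (D : Finset V) (hr : r ∉ D) :
    (SS1 P ℓ A r D).card ≤ ((TT1 P ℓ A r).filter fun τ => τ.D = D).card := by
  classical
  refine Finset.card_le_card_of_injOn (fun q => (⟨D, q.1.2.1.1, q.1.2.1.2.1, q.2⟩ :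
    Tm V (Bool × V))) ?_ ?_
  · rintro ⟨⟨⟨att, dl⟩, ⟨⟨u, g, z, y⟩, idx⟩⟩, d⟩ hq
    unfold SS1 at hq
    rw [Finset.mem_coe, Finset.mem_sigma, Finset.mem_sigma, Finset.mem_product,
      Finset.mem_product] at hq
    obtain ⟨⟨⟨_, _⟩, ⟨h3, h4⟩⟩, h5⟩ := hq
    rw [Finset.mem_coe, Finset.mem_filter]
    exact ⟨dec1_mem (mem_MM1.1 h3).1 hr (mem_IdxF.1 h4) h5, rfl⟩
  · rintro ⟨⟨⟨att, dl⟩, ⟨⟨u, g, z, y⟩, idx⟩⟩, d⟩ hq ⟨⟨⟨att', dl'⟩, ⟨⟨u', g', z', y'⟩, idx'⟩⟩, d'⟩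
      hq' he
    unfold SS1 at hq hq'
    rw [Finset.mem_coe, Finset.mem_sigma, Finset.mem_sigma, Finset.mem_product,
      Finset.mem_product] at hq hq'
    obtain ⟨⟨⟨_, _⟩, ⟨h3, h4⟩⟩, h5⟩ := hq
    obtain ⟨⟨⟨_, _⟩, ⟨h3', h4'⟩⟩, h5'⟩ := hq'
    have m3 : MG P ℓ A D u g z att dl y := (mem_MM1.1 h3).1
    have m3' : MG P ℓ A D u' g' z' att' dl' y' := (mem_MM1.1 h3').1
    have m4 := mem_IdxF.1 h4
    have m4' := mem_IdxF.1 h4'
    have m5 : d ∈ Dec r P ℓ D u g z dl y idx := (mem_Dec1.1 h5).1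
    have m5' : d' ∈ Dec r P ℓ D u' g' z' dl' y' idx' := (mem_Dec1.1 h5').1
    clear h3 h3' h4 h4' h5 h5'
    have e1 : u = u' := congrArg Tm.u he
    have e2 : g = g' := congrArg Tm.g he
    have e3 : d = d' := congrArg Tm.d he
    clear he
    subst e1
    subst e2
    subst e3
    obtain ⟨e4, e5, e6, e7, e8⟩ := dec_inj m3 m3' m4 m4' m5 m5'
    subst e4
    subst e5
    subst e6
    subst e7
    subst e8
    rfl

theorem count1_of (hca : CardAcy V) (D : Finset V) (hr : r ∉ D)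
    (hsm : 2 * (D.card * (Ls P.N ℓ + 1 + P.N * ℓ)) ≤ Fintype.card V) :
    (∑ att ∈ AttF P ℓ, ∑ dl ∈ DlF P ℓ, ((MM1 P ℓ A D att dl).card : ℝ)) * (ℓ : ℝ) ^ P.N *
        (2 * (Fintype.card V : ℝ)) ^ (D.card - 1) ≤
      (Tn1 P ℓ A r D.card : ℝ) * (4 * (2 * (Fintype.card V : ℝ)) ^ P.N) := by
  classical
  have h1 : ((SS1 P ℓ A r D).card : ℝ) ≤ (Tn1 P ℓ A r D.card : ℝ) := by
    rw [← fiber_eq1 D hr]
    exact_mod_cast card_SS1_le D hr
  have h2 : (4 * (2 * (Fintype.card V : ℝ)) ^ P.N) * ((SS1 P ℓ A r D).card : ℝ) =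
      ∑ q ∈ ((AttF P ℓ ×ˢ DlF P ℓ).sigma fun ad => MM1 P ℓ A D ad.1 ad.2 ×ˢ IdxF P ℓ),
        ((Dec1 r P ℓ D q.2.1.1 q.2.1.2.1 q.2.1.2.2.1 q.1.2 q.2.1.2.2.2 q.2.2).card : ℝ) *
          (4 * (2 * (Fintype.card V : ℝ)) ^ P.N) := by
    unfold SS1
    rw [Finset.card_sigma, Nat.cast_sum, Finset.mul_sum]
    exact Finset.sum_congr rfl fun q _ => mul_comm _ _
  have h3 : ∑ q ∈ ((AttF P ℓ ×ˢ DlF P ℓ).sigma fun ad => MM1 P ℓ A D ad.1 ad.2 ×ˢ IdxF P ℓ),
      (2 * (Fintype.card V : ℝ)) ^ (D.card - 1) ≤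
      (4 * (2 * (Fintype.card V : ℝ)) ^ P.N) * ((SS1 P ℓ A r D).card : ℝ) := by
    rw [h2]
    apply Finset.sum_le_sum
    rintro ⟨⟨att, dl⟩, ⟨⟨u, g, z, y⟩, idx⟩⟩ hq
    rw [Finset.mem_sigma, Finset.mem_product, Finset.mem_product] at hq
    obtain ⟨hm, hW⟩ := mem_MM1.1 hq.2.1
    have h5 := dec_card hm r idx (mem_IdxF.1 hq.2.2) hsm
    have h6 : ((Dec r P ℓ D u g z dl y idx).card : ℝ) ≤
        2 * ((Dec1 r P ℓ D u g z dl y idx).card : ℝ) := by
      exact_mod_cast card_Dec_le hca hm (mem_IdxF.1 hq.2.2) hW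
    refine h5.trans ?_
    calc ((Dec r P ℓ D u g z dl y idx).card : ℝ) * (2 * (2 * (Fintype.card V : ℝ)) ^ P.N) ≤
        (2 * ((Dec1 r P ℓ D u g z dl y idx).card : ℝ)) * (2 * (2 * (Fintype.card V : ℝ)) ^ P.N) :=
          mul_le_mul_of_nonneg_right h6 (by positivity)
      _ = _ := by ring
  rw [Finset.sum_const, Finset.card_sigma, Finset.sum_product, nsmul_eq_mul] at h3
  simp only [Finset.card_product, card_IdxF] at h3
  push_cast at h3
  simp only [← Finset.sum_mul] at h3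
  calc _ ≤ (4 * (2 * (Fintype.card V : ℝ)) ^ P.N) * ((SS1 P ℓ A r D).card : ℝ) := h3
    _ ≤ (4 * (2 * (Fintype.card V : ℝ)) ^ P.N) * (Tn1 P ℓ A r D.card : ℝ) :=
      mul_le_mul_of_nonneg_left h1 (by positivity)
    _ = _ := mul_comm _ _

end dec

end Pool.Agent.OC
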