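import Pool.Agent.OC2.Defs

/-!
# Counting acyclic labellings (S4)

If four times the total size of the branches outside `H` is at most the number of the vertices,
then at least half of the labellings are acyclic outside `H`.
-/

set_option autoImplicit false

open scoped BigOperators

namespace Pool.Agent.OC

open Pool.Agent.GX

namespace Cyc

open Relation

/-- the relation of the cycles: the label of `x` is below `y` -/
def RR {V : Type} (S : Set V) (g l : V → V) (x y : V) : Prop := x ∈ S ∧ y ∈ S ∧ l x ∈ below g y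

/-- the steps of the elimination -/
def QQ {V : Type} (S : Set V) (g l : V → V) (x y : V) : Prop :=
  x ∈ S ∧ y ∈ S ∧ (y = g x ∨ y = l x)

theorem below_step {V : Type} {g : V → V} {x y : V} (h : x ∈ below g y) : x ∈ below g (g y) := by
  obtain ⟨m, hm⟩ := h
  exact ⟨m + 1, by rw [Function.iterate_succ', Function.comp_apply, hm]⟩

theorem below_iter {V : Type} {g : V → V} {x y z : V} (h : x ∈ below g y) (m : ℕ)
    (hz : g^[m] y = z) : x ∈ below g z := by
  obtain ⟨k, hk⟩ := h
  exact ⟨m + k, by rw [Function.iterate_add_apply, hk, hz]⟩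

theorem mem_iter {V : Type} {g : V → V} {H : Set V} (hH : ∀ x ∈ H, g x ∈ H) {x : V} (hx : x ∈ H) :
    ∀ m : ℕ, g^[m] x ∈ H
  | 0 => hx
  | m + 1 => by
    rw [Function.iterate_succ', Function.comp_apply]
    exact hH _ (mem_iter hH hx m)

theorem path {V : Type} {S : Set V} {g l : V → V} {x y : V} (h : TransGen (QQ S g l) x y) :
    (∃ m, g^[m + 1] x = y) ∨
      ∃ a b, a ∈ S ∧ b ∈ S ∧ (∃ m, g^[m] x = a) ∧ ReflTransGen (RR S g l) a b ∧
        l b ∈ below g y := by
  induction h with
  | single h =>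
    obtain ⟨hx, hy, rfl | rfl⟩ := h
    · exact Or.inl ⟨0, rfl⟩
    · exact Or.inr ⟨x, x, hx, hx, ⟨0, rfl⟩, ReflTransGen.refl, ⟨0, rfl⟩⟩
  | tail _ h ih =>
    obtain ⟨hy, hz, rfl | rfl⟩ := h
    · rcases ih with ⟨m, hm⟩ | ⟨a, b, ha, hb, hm, hab, hl⟩
      · refine Or.inl ⟨m + 1, ?_⟩
        rw [Function.iterate_succ', Function.comp_apply, hm]
      · exact Or.inr ⟨a, b, ha, hb, hm, hab, below_step hl⟩
    · rcases ih with ⟨m, hm⟩ | ⟨a, b, ha, hb, hm, hab, hl⟩
      · exact Or.inr ⟨_, _, hy, hy, ⟨m + 1, hm⟩, ReflTransGen.refl, ⟨0, rfl⟩⟩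
      · exact Or.inr ⟨a, _, ha, hy, hm, hab.tail ⟨hb, hy, hl⟩, ⟨0, rfl⟩⟩

/-- If there is no cycle then there is a rank. -/
theorem acy_of_no_cycle {V : Type} [Finite V] {D H : Set V} {g l : V → V} {u : V}
    (hin : ∀ x ∈ D, g x ∈ D) (hH : ∀ x ∈ H, g x ∈ H) (huH : u ∈ H)
    (hreach : ∀ x ∈ D, ∃ m, g^[m] x = u)
    (hno : ∀ x, ¬ TransGen (RR (D \ H) g l) x x) : Acy D H g l := by
  have hirr : ∀ x, ¬ TransGen (QQ (D \ H) g l) x x := by
    intro x h
    have hxS : x ∈ D \ H := by
      rcases TransGen.head'_iff.1 h with ⟨_, h', -⟩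
      exact h'.1
    rcases path h with ⟨m, hm⟩ | ⟨a, b, ha, hb, ⟨m, hm⟩, hab, hl⟩
    · obtain ⟨M, hM⟩ := hreach x hxS.1
      have h1 : ∀ k, (g^[m + 1])^[k] x = x := by
        intro k
        exact Function.iterate_fixed hm k
      have h2 : g^[(m + 1) * M] x = x := by
        rw [Function.iterate_mul]
        exact h1 M
      have h3 : (m + 1) * M = m * M + M := by ring
      rw [h3, Function.iterate_add_apply, hM] at h2
      exact hxS.2 (h2 ▸ mem_iter hH huH (m * M))
    · have h1 : RR (D \ H) g l b a := ⟨hb, ha, below_iter hl m hm⟩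
      exact hno b (TransGen.head' h1 hab)
  refine ⟨fun x => Set.ncard {y | TransGen (QQ (D \ H) g l) x y}, ?_⟩
  have hlt : ∀ x y, QQ (D \ H) g l x y →
      Set.ncard {z | TransGen (QQ (D \ H) g l) y z} <
        Set.ncard {z | TransGen (QQ (D \ H) g l) x z} := by
    intro x y hxy
    apply Set.ncard_lt_ncard _ (Set.toFinite _)
    refine ⟨fun z hz => TransGen.head hxy hz, fun hsub => ?_⟩
    exact hirr y (hsub (TransGen.single hxy))
  intro x hxD hxH
  refine ⟨fun h => hlt x (g x) ⟨⟨hxD, hxH⟩, ⟨hin x hxD, h⟩, Or.inl rfl⟩, fun h h' =>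
    hlt x (l x) ⟨⟨hxD, hxH⟩, ⟨h, h'⟩, Or.inr rfl⟩⟩

theorem walk {V : Type} {R : V → V → Prop} {x y : V} (h : TransGen R x y) :
    ∃ (k : ℕ) (w : ℕ → V), w 0 = x ∧ w (k + 1) = y ∧ ∀ i ≤ k, R (w i) (w (i + 1)) := by
  induction h with
  | @single b h =>
    refine ⟨0, fun i => if i = 0 then x else b, by simp, by simp, ?_⟩
    intro i hi
    have : i = 0 := by omega
    subst this
    simpa using h
  | @tail b c _ h ih =>
    obtain ⟨k, w, h0, h1, h2⟩ := ih
    refine ⟨k + 1, fun i => if i ≤ k + 1 then w i else c, by simp [h0], by simp, ?_⟩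
    intro i hi
    rcases Nat.lt_or_ge i (k + 1) with hlt | hge
    · have e1 : i ≤ k + 1 := hlt.le
      have e2 : i + 1 ≤ k + 1 := hlt
      simp only [e1, e2, if_true]
      exact h2 i (by omega)
    · have hik : i = k + 1 := by omega
      subst hik
      have e2 : ¬ (k + 1 + 1 ≤ k + 1) := by omega
      simp only [le_refl, if_true, e2, if_false]
      rw [h1]
      exact h

/-- A cycle contains a cycle without repetitions. -/
theorem simple_cycle {V : Type} {R : V → V → Prop} {x : V} (h : TransGen R x x) :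
    ∃ (k : ℕ) (y : Fin (k + 1) → V), Function.Injective y ∧ ∀ i, R (y i) (y (i + 1)) := by
  classical
  have hex : ∃ k : ℕ, ∃ w : ℕ → V, w (k + 1) = w 0 ∧ ∀ i ≤ k, R (w i) (w (i + 1)) := by
    obtain ⟨k, w, h0, h1, h2⟩ := walk h
    exact ⟨k, w, by rw [h0, h1], h2⟩
  obtain ⟨w, hw1, hw2⟩ := Nat.find_spec hex
  set k := Nat.find hex with hk
  have hmin : ∀ a b, a < b → b ≤ k → w a ≠ w b := by
    intro a b hab hbk heq
    have hlt : b - a - 1 < k := by omega
    apply Nat.find_min hex hlt
    refine ⟨fun i => w (a + i), ?_, ?_⟩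
    · show w (a + (b - a - 1 + 1)) = w (a + 0)
      have : a + (b - a - 1 + 1) = b := by omega
      rw [this, add_zero, heq]
    · intro i hi
      exact hw2 (a + i) (by omega)
  refine ⟨k, fun i => w i, ?_, ?_⟩
  · intro i j hij
    rcases lt_trichotomy (i : ℕ) (j : ℕ) with h1 | h1 | h1
    · exact absurd hij (hmin i j h1 (by omega))
    · exact Fin.ext h1
    · exact absurd hij.symm (hmin j i h1 (by omega))
  · intro i
    show R (w i) (w ((i + 1 : Fin (k + 1)) : ℕ))
    rw [Fin.val_add_one]
    by_cases hi : i = Fin.last k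
    · rw [if_pos hi]
      have h1 : (i : ℕ) = k := by rw [hi]; rfl
      rw [h1, ← hw1]
      exact hw2 k le_rfl
    · rw [if_neg hi]
      exact hw2 i (by omega)

/-- The number of the labellings with prescribed sets of labels at distinct vertices. -/
theorem card_pinned {V : Type} [Fintype V] [DecidableEq V] {κ : Type} [Fintype κ] [DecidableEq κ]
    (al : V → Finset (Bool × V)) (y : κ → V) (hy : Function.Injective y)
    (hal : ∀ i, al (y i) = Finset.univ) (B : κ → Finset V)
    [DecidablePred fun d : V → Bool × V => ∀ i, (d (y i)).2 ∈ B i] :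
    ((Fintype.piFinset al).filter fun d => ∀ i, (d (y i)).2 ∈ B i).card *
      (Fintype.card V) ^ (Fintype.card κ) =
    (Fintype.piFinset al).card * ∏ i, (B i).card := by
  classical
  set al' : V → Finset (Bool × V) := fun v => (al v).filter fun b => ∀ i, y i = v → b.2 ∈ B i
    with hal'
  have h1 : ((Fintype.piFinset al).filter fun d => ∀ i, (d (y i)).2 ∈ B i) =
      Fintype.piFinset al' := by
    ext d
    simp only [Finset.mem_filter, Fintype.mem_piFinset, hal']
    constructor
    · rintro ⟨ha, hb⟩ v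
      exact ⟨ha v, fun i hi => by rw [← hi]; exact hb i⟩
    · intro h
      exact ⟨fun v => (h v).1, fun i => (h (y i)).2 i rfl⟩
  rw [h1, Fintype.card_piFinset, Fintype.card_piFinset]
  set c : V → ℕ := fun v => if v ∈ Finset.univ.image y then Fintype.card V else 1 with hc
  set b : V → ℕ := fun v => if h : ∃ i, y i = v then (B h.choose).card else 1 with hb
  have hby : ∀ i, b (y i) = (B i).card := by
    intro i
    have h : ∃ j, y j = y i := ⟨i, rfl⟩
    have h2 : h.choose = i := hy h.choose_spec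
    simp only [hb]
    rw [dif_pos h, h2]
  have hcprod : ∏ v, c v = (Fintype.card V) ^ (Fintype.card κ) := by
    simp only [hc]
    rw [Finset.prod_ite_mem, Finset.univ_inter, Finset.prod_const,
      Finset.card_image_of_injective _ hy, Finset.card_univ]
  have hbprod : ∏ v, b v = ∏ i, (B i).card := by
    have h2 : ∏ v, b v = ∏ v ∈ Finset.univ.image y, b v := by
      symm
      apply Finset.prod_subset (Finset.subset_univ _)
      intro v _ hv
      simp only [hb]
      rw [dif_neg]
      rintro ⟨i, hi⟩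
      exact hv (Finset.mem_image.mpr ⟨i, Finset.mem_univ _, hi⟩)
    rw [h2, Finset.prod_image (fun i _ j _ hij => hy hij)]
    exact Finset.prod_congr rfl fun i _ => hby i
  rw [← hcprod, ← hbprod, ← Finset.prod_mul_distrib, ← Finset.prod_mul_distrib]
  apply Finset.prod_congr rfl
  intro v _
  by_cases hv : ∃ i, y i = v
  · obtain ⟨i, rfl⟩ := hv
    have h2 : c (y i) = Fintype.card V := by
      simp only [hc]
      rw [if_pos (Finset.mem_image.mpr ⟨i, Finset.mem_univ _, rfl⟩)]
    have h3 : al' (y i) = Finset.univ ×ˢ B i := by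
      ext p
      simp only [hal', hal i, Finset.mem_filter, Finset.mem_univ, true_and, Finset.mem_product]
      constructor
      · intro h
        exact h i rfl
      · intro h j hj
        rw [hy hj]
        exact h
    rw [h2, hby, h3, hal i, Finset.card_product, Finset.card_univ, Finset.card_univ,
      Fintype.card_prod]
    ring
  · have h2 : c v = 1 := by
      simp only [hc]
      rw [if_neg]
      intro h
      obtain ⟨i, _, hi⟩ := Finset.mem_image.mp h
      exact hv ⟨i, hi⟩
    have h3 : b v = 1 := by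
      simp only [hb]
      rw [dif_neg hv]
    have h4 : al' v = al v := by
      simp only [hal']
      apply Finset.filter_true_of_mem
      intro p _ i hi
      exact absurd ⟨i, hi⟩ hv
    rw [h2, h3, h4]

theorem geom_quarter (n : ℕ) : ∑ k ∈ Finset.range n, (1 / 4 : ℝ) ^ (k + 1) ≤ 1 / 3 := by
  have h : ∑ k ∈ Finset.range n, (1 / 4 : ℝ) ^ (k + 1) = (1 - (1 / 4 : ℝ) ^ n) / 3 := by
    induction n with
    | zero => simp
    | succ n ih =>
      rw [Finset.sum_range_succ, ih, pow_succ]
      ring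
  rw [h]
  have : (0 : ℝ) < (1 / 4 : ℝ) ^ n := by positivity
  linarith

/-- The sum over the sequences without repetitions is at most the power of the sum. -/
theorem sum_inj_le {V : Type} [Fintype V] [DecidableEq V] (S : Finset V) (b : V → ℝ)
    (hb : ∀ x, 0 ≤ b x) (k : ℕ) (I : Finset (Fin (k + 1) → V))
    (hI : I ⊆ Fintype.piFinset fun _ : Fin (k + 1) => S) :
    ∑ y ∈ I, ∏ i, b (y i) ≤ (∑ x ∈ S, b x) ^ (k + 1) := by
  have h4 := Finset.prod_univ_sum (fun _ : Fin (k + 1) => S) (fun _ x => b x)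
  rw [Finset.prod_const, Finset.card_univ, Fintype.card_fin] at h4
  rw [h4]
  exact Finset.sum_le_sum_of_subset_of_nonneg hI fun y _ _ => Finset.prod_nonneg fun i _ => hb _

end Cyc

open Cyc Relation

open Classical in
/-- At least half of the labellings are acyclic outside `H`. -/
theorem card_acy {V : Type} [Fintype V] [DecidableEq V] (D H : Finset V) (u : V) (g : V → V)
    (huD : u ∈ D) (huH : u ∈ H) (hgu : g u = u) (hin : ∀ x ∈ D, g x ∈ D)
    (hH : ∀ x ∈ H, g x ∈ H) (hreach : ∀ x ∈ D, ∃ m, g^[m] x = u)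
    (hout : ∀ x, x ∉ D → g x = x) (al : V → Finset (Bool × V))
    (hal : ∀ x ∈ D \ H, al x = Finset.univ)
    (hW : 4 * ∑ x ∈ D \ H, (below g x).ncard ≤ Fintype.card V) :
    (Fintype.piFinset al).card ≤
      2 * ((Fintype.piFinset al).filter
        fun d => Acy (D : Set V) (H : Set V) g fun x => (d x).2).card := by
  have hn : 0 < Fintype.card V := Fintype.card_pos_iff.mpr ⟨u⟩
  have hnR : (0 : ℝ) < Fintype.card V := by exact_mod_cast hn
  set n : ℝ := ((Fintype.card V : ℕ) : ℝ) with hndef
  set belF : V → Finset V := fun x => Finset.univ.filter fun y => y ∈ below g x with hbelF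
  have hbelc : ∀ x, (belF x).card = (below g x).ncard := by
    intro x
    rw [← Set.ncard_coe_finset]
    congr 1
    ext y
    simp [hbelF]
  set Pi := Fintype.piFinset al with hPi
  set W : ℝ := ∑ x ∈ D \ H, ((belF x).card : ℝ) with hWdef
  have hW' : W / n ≤ 1 / 4 := by
    rw [div_le_iff₀ hnR]
    have h1 : (4 : ℝ) * W ≤ n := by
      have : (W : ℝ) = ((∑ x ∈ D \ H, (below g x).ncard : ℕ) : ℝ) := by
        rw [hWdef, Nat.cast_sum]
        exact Finset.sum_congr rfl fun x _ => by rw [hbelc]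
      rw [this]
      have h2 : ((4 * ∑ x ∈ D \ H, (below g x).ncard : ℕ) : ℝ) ≤ ((Fintype.card V : ℕ) : ℝ) :=
        Nat.cast_le.mpr hW
      rw [Nat.cast_mul, Nat.cast_ofNat] at h2
      exact h2
    linarith
  have hW0 : 0 ≤ W := Finset.sum_nonneg fun x _ => Nat.cast_nonneg _
  set bad := Pi.filter fun d => ¬ Acy (D : Set V) (H : Set V) g fun x => (d x).2 with hbad
  set ev : (k : ℕ) → (Fin (k + 1) → V) → Finset (V → Bool × V) := fun k y =>
    Pi.filter fun d => ∀ i, (d (y i)).2 ∈ belF (y (i + 1)) with hev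
  set idx : (k : ℕ) → Finset (Fin (k + 1) → V) := fun k =>
    (Fintype.piFinset fun _ : Fin (k + 1) => D \ H).filter Function.Injective with hidx
  have hsub : bad ⊆ (Finset.range (Fintype.card V)).biUnion fun k => (idx k).biUnion (ev k) := by
    intro d hd
    rw [hbad, Finset.mem_filter] at hd
    obtain ⟨hdP, hdA⟩ := hd
    have hcyc : ∃ x, TransGen (RR ((D : Set V) \ (H : Set V)) g fun x => (d x).2) x x := by
      by_contra hc
      push Not at hc
      apply hdA
      exact acy_of_no_cycle (u := u) (fun x hx => hin x hx) (fun x hx => hH x hx) huH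
        (fun x hx => hreach x hx) hc
    obtain ⟨x, hx⟩ := hcyc
    obtain ⟨k, y, hy, hR⟩ := simple_cycle hx
    have hk : k < Fintype.card V := by
      have := Fintype.card_le_of_injective y hy
      rw [Fintype.card_fin] at this
      omega
    rw [Finset.mem_biUnion]
    refine ⟨k, Finset.mem_range.mpr hk, ?_⟩
    rw [Finset.mem_biUnion]
    refine ⟨y, ?_, ?_⟩
    · simp only [hidx, Finset.mem_filter, Fintype.mem_piFinset]
      refine ⟨fun i => ?_, hy⟩
      have := (hR i).1
      simpa using this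
    · simp only [hev, Finset.mem_filter]
      refine ⟨hdP, fun i => ?_⟩
      simp only [hbelF, Finset.mem_filter, Finset.mem_univ, true_and]
      exact (hR i).2.2
  have hone : ∀ k, ∀ y ∈ idx k,
      ((ev k y).card : ℝ) = (Pi.card : ℝ) * (∏ i, ((belF (y i)).card : ℝ)) / n ^ (k + 1) := by
    intro k y hy
    simp only [hidx, Finset.mem_filter, Fintype.mem_piFinset] at hy
    have h1 := card_pinned al y hy.2 (fun i => hal _ (hy.1 i)) (fun i => belF (y (i + 1)))
    rw [Fintype.card_fin] at h1
    have h2 : ∏ i, (belF (y (i + 1))).card = ∏ i, (belF (y i)).card :=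
      Equiv.prod_comp (Equiv.addRight (1 : Fin (k + 1))) fun i => (belF (y i)).card
    rw [h2] at h1
    rw [eq_div_iff (by positivity)]
    have h3 : (((ev k y).card * Fintype.card V ^ (k + 1) : ℕ) : ℝ) =
        ((Pi.card * ∏ i, (belF (y i)).card : ℕ) : ℝ) := congrArg Nat.cast h1
    rw [Nat.cast_mul, Nat.cast_mul, Nat.cast_pow, Nat.cast_prod] at h3
    exact h3
  have hlevel : ∀ k, (((idx k).biUnion (ev k)).card : ℝ) ≤ (Pi.card : ℝ) * (1 / 4) ^ (k + 1) := by
    intro k
    have h1 : (((idx k).biUnion (ev k)).card : ℝ) ≤ ∑ y ∈ idx k, ((ev k y).card : ℝ) := by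
      rw [← Nat.cast_sum]
      exact Nat.cast_le.mpr Finset.card_biUnion_le
    refine h1.trans ?_
    have h2 : ∑ y ∈ idx k, ((ev k y).card : ℝ) =
        (Pi.card : ℝ) * ((∑ y ∈ idx k, ∏ i, ((belF (y i)).card : ℝ)) / n ^ (k + 1)) := by
      rw [Finset.sum_div, Finset.mul_sum]
      refine Finset.sum_congr rfl fun y hy => ?_
      rw [hone k y hy, mul_div_assoc]
    rw [h2]
    apply mul_le_mul_of_nonneg_left _ (Nat.cast_nonneg _)
    have h3 := sum_inj_le (D \ H) (fun x => ((belF x).card : ℝ)) (fun x => Nat.cast_nonneg _) k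
      (idx k) (Finset.filter_subset _ _)
    calc (∑ y ∈ idx k, ∏ i, ((belF (y i)).card : ℝ)) / n ^ (k + 1) ≤ W ^ (k + 1) / n ^ (k + 1) :=
          div_le_div_of_nonneg_right h3 (by positivity)
      _ = (W / n) ^ (k + 1) := (div_pow _ _ _).symm
      _ ≤ (1 / 4) ^ (k + 1) := pow_le_pow_left₀ (div_nonneg hW0 hnR.le) hW' _
  have hbadc : (bad.card : ℝ) ≤ (Pi.card : ℝ) * (1 / 3) := by
    have h1 : (bad.card : ℝ) ≤
        ∑ k ∈ Finset.range (Fintype.card V), (((idx k).biUnion (ev k)).card : ℝ) := by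
      have h2 := (Finset.card_le_card hsub).trans Finset.card_biUnion_le
      rw [← Nat.cast_sum]
      exact Nat.cast_le.mpr h2
    refine h1.trans ((Finset.sum_le_sum fun k _ => hlevel k).trans ?_)
    rw [← Finset.mul_sum]
    exact mul_le_mul_of_nonneg_left (geom_quarter _) (Nat.cast_nonneg _)
  have hsplit := Finset.card_filter_add_card_filter_not (s := Pi)
    (fun d => Acy (D : Set V) (H : Set V) g fun x => (d x).2)
  have hsplit' : ((Pi.filter fun d => Acy (D : Set V) (H : Set V) g fun x => (d x).2).card : ℝ) +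
      (bad.card : ℝ) = (Pi.card : ℝ) := by
    rw [← Nat.cast_add]
    exact congrArg Nat.cast hsplit
  have hfin : (Pi.card : ℝ) ≤
      ((2 * (Pi.filter fun d => Acy (D : Set V) (H : Set V) g fun x => (d x).2).card : ℕ) : ℝ) := by
    have : (0 : ℝ) ≤ Pi.card := Nat.cast_nonneg _
    rw [Nat.cast_mul, Nat.cast_ofNat]
    linarith
  exact Nat.cast_le.mp hfin

end Pool.Agent.OC
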