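import Pool.Agent.OC.Defs
import Pool.Agent.ZO.Sc
import Pool.Agent.ZO.Count2

/-!
# The zero-one law with one missing 2-cell: definitions
-/

set_option autoImplicit false

open scoped BigOperators

namespace Pool.Agent.OC

open Pool.Agent.FoxAsph Pool.Agent.WT Pool.Agent.RelGap Pool.Agent.ZO Pool.Agent.GX
open Pool.Agent.WT.Trees (PF)

/-- For every edge `e` of `Γ` the complex `K(Γ, v)` without the open 2-cell of `e` is aspherical. -/
def OneCellAspherical {V : Type} (Γ : LOT V) (v : V) : Prop :=
  ∀ (e : Γ.graph.edgeSet) (_ : Fintype {i : Option Γ.graph.edgeSet // i ≠ some e}),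
    Aspherical fun i : {i : Option Γ.graph.edgeSet // i ≠ some e} => Γ.relPlus v i

/-- The vertices of `D` that are not in `H` can be eliminated one after the other: there is a rank
that decreases along `x ↦ g x` and along `x ↦ l x`, as long as these are in `D` and not in `H`. -/
def Acy {V : Type} (D H : Set V) (g l : V → V) : Prop :=
  ∃ ρ : V → ℕ, ∀ x ∈ D, x ∉ H →
    (g x ∉ H → ρ (g x) < ρ x) ∧ (l x ∈ D → l x ∉ H → ρ (l x) < ρ x)

/-- the top, the spine and the paths to the labels of the steps -/
def HH {V : Type} (g : V → V) (u z : V) (L N : ℕ) (idx dl : ℕ → ℕ) (d : V → Bool × V) : Set V :=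
  {x | x = u ∨ (∃ i ≤ L, x = sv g z L i) ∨
    ∃ j, 1 ≤ j ∧ j ≤ N ∧ ∃ i < dl j, x = g^[i] (d (sv g z L (idx j))).2}

/-- success with an acyclic complement -/
def Succ1 {V : Type} (P : Pattern) (ℓ A : ℕ) (D : Finset V) (u : V) (g : V → V)
    (d : V → Bool × V) (z : V) (idx att dl : ℕ → ℕ) : Prop :=
  Succ P ℓ A D u g d z idx att dl ∧
    Acy (D : Set V) (HH g u z (Ls P.N ℓ) P.N idx dl d) g fun x => (d x).2

/-- success of the branch at `u`, with an acyclic complement -/
def Sc1 {V : Type} [Fintype V] (P : Pattern) (ℓ A : ℕ) (g : V → V) (u : V) (d : V → Bool × V) :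
    Prop :=
  ∃ (z : V) (idx att dl : ℕ → ℕ), Succ1 P ℓ A (belowF g u) u (cutg g u) d z idx att dl

/-- the pattern is realised at `u`, with an acyclic complement -/
def RealAt1 (P : Pattern) {V : Type} (p : V → V) (r u : V) (o : V → Bool) (l : V → V) : Prop :=
  ∃ (H : Set V) (seg : V → ℕ) (top : ℕ → V), Realises P p r u o l H seg top ∧
    Acy (below p u) H p l

/-- The pattern is realised, with acyclic complements, at two places with disjoint branches. -/
def Twice1 (P : Pattern) {V : Type} (p : V → V) (r : V) (o : V → Bool) (l : V → V) : Prop :=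
  ∃ u u' : V, RealAt1 P p r u o l ∧ RealAt1 P p r u' o l ∧ Disjoint (below p u) (below p u')

open Classical in
/-- the successful templates -/
noncomputable def TT1 {V : Type} [Fintype V] (P : Pattern) (ℓ A : ℕ) (r : V) :
    Finset (Tm V (Bool × V)) :=
  Finset.univ.filter fun τ => τ.Wf r (false, r) ∧
    ∃ z idx att dl, Succ1 P ℓ A τ.D τ.u τ.g τ.d z idx att dl

open Classical in
/-- the number of successful templates on a set with `s` elements -/
noncomputable def Tn1 {V : Type} [Fintype V] (P : Pattern) (ℓ A : ℕ) (r : V) (s : ℕ) : ℕ :=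
  if h : ∃ D : Finset V, r ∉ D ∧ D.card = s then
    ((TT1 P ℓ A r).filter fun τ => τ.D = h.choose).card else 0

open Classical in
/-- the total size of the branches outside `u`, the spine and the paths, `4` times this is at most the
number of the vertices -/
noncomputable def MM1 {V : Type} [Fintype V] [DecidableEq V] (P : Pattern) (ℓ A : ℕ) (D : Finset V)
    (att dl : Fin P.N → ℕ) : Finset (V × (V → V) × V × (Fin P.N → V)) :=
  (MM P ℓ A D att dl).filter fun t =>
    4 * ∑ x ∈ D \ insert t.1 (Hs t.2.1 t.2.2.1 (Ls P.N ℓ) dl t.2.2.2), (below t.2.1 x).ncard ≤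
      Fintype.card V

end Pool.Agent.OC
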