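import Pool.Agent.OC2.Defs

/-!
# The zero-one law with one missing 2-cell: the number of the bad edges
-/

set_option autoImplicit false

open scoped BigOperators

namespace Pool.Agent.OC

open Pool.Agent.FoxAsph Pool.Agent.WT Pool.Agent.RelGap Pool.Agent.ZO Pool.Agent.GX
open Pool.Agent.WT.Trees (PF)

/-- The complex `K(Γ, v)` without the open 2-cell of the edge `e` is aspherical. -/
def CellAspherical {V : Type} (Γ : LOT V) (v : V) (e : Γ.graph.edgeSet) : Prop :=
  ∀ _ : Fintype {i : Option Γ.graph.edgeSet // i ≠ some e},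
    Aspherical fun i : {i : Option Γ.graph.edgeSet // i ≠ some e} => Γ.relPlus v i

theorem oneCellAspherical_iff {V : Type} (Γ : LOT V) (v : V) :
    OneCellAspherical Γ v ↔ ∀ e, CellAspherical Γ v e := Iff.rfl

/-- For every vertex `v` there are at least `m` edges `e` such that `K(Γ, v)` without the open 2-cell
of `e` is not aspherical. -/
def ManyBad {V : Type} (Γ : LOT V) (m : ℝ) : Prop :=
  ∀ v, m ≤ ({e | ¬ CellAspherical Γ v e}.ncard : ℝ)

/-- The pattern is realised, with acyclic complements, at the elements of `U`, and the branches at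
these are pairwise disjoint. -/
def RealOn1 (P : Pattern) {V : Type} (p : V → V) (r : V) (o : V → Bool) (l : V → V) (U : Finset V) :
    Prop :=
  (∀ u ∈ U, RealAt1 P p r u o l) ∧ ∀ u ∈ U, ∀ u' ∈ U, u ≠ u' → Disjoint (below p u) (below p u')

end Pool.Agent.OC
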