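import Pool.Agent.ZO.WW

/-!
# The total size of the branches in a random forest

`Σ_x |below f x|` is at most `2 b ^ (3/2)` in the mean over the forests on `b` vertices.
-/

set_option autoImplicit false

open scoped BigOperators

namespace Pool.Agent.OC

open Pool.Agent.GX Pool.Agent.ZO

variable {V : Type} [Fintype V] [DecidableEq V]

namespace Depth

omit [Fintype V] [DecidableEq V] in
theorem mem_of_fix {f : V → V} {A : Finset V} (hA : ∀ x ∈ A, f x = x) {z : V} {m M : ℕ}
    (h : f^[m] z ∈ A) (hM : m ≤ M) : f^[M] z ∈ A := by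
  obtain ⟨k, rfl⟩ := Nat.exists_eq_add_of_le hM
  rw [add_comm, Function.iterate_add_apply]
  have : ∀ k : ℕ, f^[k] (f^[m] z) = f^[m] z := by
    intro k
    exact Function.iterate_fixed (hA _ h) k
  rw [this]
  exact h

theorem fixA {B A : Finset V} {f : V → V} (hf : f ∈ WW B A) : ∀ x ∈ A, f x = x :=
  fun x hx => (mem_WW.1 hf).1 x (Or.inr hx)

theorem iter_mem {B A : Finset V} {f : V → V} (hf : f ∈ WW B A) {y : V} (hy : y ∈ B) (m : ℕ) :
    f^[m] y ∈ B := by
  induction m with
  | zero => exact hy
  | succ m ih =>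
    rw [Function.iterate_succ_apply']
    exact (mem_WW.1 hf).2.1 _ ih

theorem no_cycle {B A : Finset V} {f : V → V} (hf : f ∈ WW B A) {z : V} (hz : z ∈ B)
    (hzA : z ∉ A) {k : ℕ} (hk : f^[k + 1] z = z) : False := by
  obtain ⟨m, hm⟩ := (mem_WW.1 hf).2.2 z hz
  have h1 : ∀ n : ℕ, (f^[k + 1])^[n] z = z := fun n => Function.iterate_fixed hk n
  have h2 := h1 m
  rw [← Function.iterate_mul] at h2
  have h3 : f^[(k + 1) * m] z ∈ A := mem_of_fix (fixA hf) hm (Nat.le_mul_of_pos_left m (Nat.succ_pos k))
  rw [h2] at h3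
  exact hzA h3

theorem iter_ne {B A : Finset V} {f : V → V} (hf : f ∈ WW B A) {y : V} (hy : y ∈ B) {i j : ℕ}
    (hij : i < j) (hj : f^[j] y ∉ A) : f^[i] y ≠ f^[j] y := by
  intro he
  obtain ⟨k, rfl⟩ := Nat.exists_eq_add_of_lt hij
  refine no_cycle hf (iter_mem hf hy (i + k + 1)) hj (k := k) ?_
  rw [← he, ← Function.iterate_add_apply]
  have : k + 1 + i = i + k + 1 := by omega
  rw [this, ← he]

/-- redirect one vertex -/
theorem upd_mem {B A : Finset V} {f : V → V} (hf : f ∈ WW B A) {x t : V} (hx : x ∈ B)
    (hxA : x ∉ A) (ht : t ∈ B) (htx : t ∉ below f x) : Function.update f x t ∈ WW B A := by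
  classical
  have hf' := mem_WW.1 hf
  rw [mem_WW]
  refine ⟨?_, ?_, ?_⟩
  · intro z hz
    have hzx : z ≠ x := by
      rintro rfl
      rcases hz with h | h
      · exact h hx
      · exact hxA h
    rw [Function.update_of_ne hzx]
    exact hf'.1 z hz
  · intro z hz
    by_cases hzx : z = x
    · rw [hzx, Function.update_self]; exact ht
    · rw [Function.update_of_ne hzx]; exact hf'.2.1 z hz
  · have key : ∀ z ∈ B, z ∉ below f x → ∃ m, (Function.update f x t)^[m] z ∈ A := by
      intro z hz hzb
      obtain ⟨m, hm⟩ := hf'.2.2 z hz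
      refine ⟨m, ?_⟩
      rw [ForestAux.iter_eq f x t z m fun j _ hj => hzb ⟨j, hj⟩]
      exact hm
    intro z hz
    by_cases hzb : z ∈ below f x
    · have h0 : ∃ m, f^[m] z = x := hzb
      have h1 : (Function.update f x t)^[Nat.find h0] z = x := by
        rw [ForestAux.iter_eq f x t z _ fun j hj => Nat.find_min h0 hj]
        exact Nat.find_spec h0
      obtain ⟨m, hm⟩ := key t ht htx
      refine ⟨m + 1 + Nat.find h0, ?_⟩
      rw [Function.iterate_add_apply, h1, Function.iterate_succ_apply, Function.update_self]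
      exact hm
    · exact key z hz hzb

omit [Fintype V] in
/-- the set of those that reach `x` does not depend on the value at `x` -/
theorem below_update (f : V → V) (x t : V) : below (Function.update f x t) x = below f x := by
  classical
  ext z
  constructor
  · rintro ⟨m, hm⟩
    have h0 : ∃ m, (Function.update f x t)^[m] z = x := ⟨m, hm⟩
    refine ⟨Nat.find h0, ?_⟩
    have h1 := ForestAux.iter_eq (Function.update f x t) x (f x) z (Nat.find h0)
      fun j hj => Nat.find_min h0 hj
    rw [Function.update_idem, Function.update_eq_self] at h1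
    rw [h1]
    exact Nat.find_spec h0
  · rintro ⟨m, hm⟩
    have h0 : ∃ m, f^[m] z = x := ⟨m, hm⟩
    refine ⟨Nat.find h0, ?_⟩
    rw [ForestAux.iter_eq f x t z _ fun j hj => Nat.find_min h0 hj]
    exact Nat.find_spec h0

open Classical in
/-- the pairs `(f, y)` with `f^i y` not in `A` -/
noncomputable def TI (B A : Finset V) (i : ℕ) : Finset ((V → V) × V) :=
  (WW B A ×ˢ B).filter fun q => q.1^[i] q.2 ∉ A

theorem mem_TI {B A : Finset V} {i : ℕ} {q : (V → V) × V} :
    q ∈ TI B A i ↔ q.1 ∈ WW B A ∧ q.2 ∈ B ∧ q.1^[i] q.2 ∉ A := by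
  classical
  unfold TI
  rw [Finset.mem_filter, Finset.mem_product, and_assoc]

open Classical in
/-- exchange -/
noncomputable def phi (i : ℕ) (q : ((V → V) × V) × V) : ((V → V) × V) × V :=
  if q.2 ∈ below q.1.1 (q.1.1^[i] q.1.2) then
    ((Function.update (Function.update q.1.1 (q.1.1^[i] q.1.2) (q.1.1 (q.1.1 (q.1.1^[i] q.1.2))))
      (q.1.1 (q.1.1^[i] q.1.2)) q.2, q.1.2), q.1.1 (q.1.1^[i] q.1.2))
  else ((Function.update q.1.1 (q.1.1^[i] q.1.2) q.2, q.1.2), q.1.1 (q.1.1^[i] q.1.2))

open Classical in
/-- exchange back -/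
noncomputable def psi (i : ℕ) (q : ((V → V) × V) × V) : ((V → V) × V) × V :=
  if q.2 ∈ below q.1.1 (q.1.1^[i] q.1.2) then
    ((Function.update (Function.update q.1.1 (q.1.1^[i] q.1.2) q.2)
      q.2 (q.1.1 (q.1.1^[i] q.1.2)), q.1.2), q.1.1 q.2)
  else ((Function.update q.1.1 (q.1.1^[i] q.1.2) q.2, q.1.2), q.1.1 (q.1.1^[i] q.1.2))

theorem phi_spec {B A : Finset V} {i : ℕ} {f : V → V} {y t : V} (hf : f ∈ WW B A) (hy : y ∈ B)
    (hi : f^[i + 1] y ∉ A) (ht : t ∈ B) :
    ((phi i ((f, y), t)).1 ∈ TI B A i ∧ (phi i ((f, y), t)).2 ∈ B ∧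
      ∀ j ≤ i, (phi i ((f, y), t)).1.1^[j] (phi i ((f, y), t)).1.2 ≠ (phi i ((f, y), t)).2) ∧
      psi i (phi i ((f, y), t)) = ((f, y), t) := by
  classical
  obtain ⟨x, hx⟩ : ∃ x, x = f^[i] y := ⟨_, rfl⟩
  obtain ⟨x', hx'⟩ : ∃ x', x' = f x := ⟨_, rfl⟩
  have hx'2 : x' = f^[i + 1] y := by rw [hx', hx, Function.iterate_succ_apply']
  have hxB : x ∈ B := hx ▸ iter_mem hf hy i
  have hx'B : x' ∈ B := hx'2 ▸ iter_mem hf hy (i + 1)
  have hx'A : x' ∉ A := hx'2 ▸ hi
  have hxA : x ∉ A := by
    intro h
    apply hx'A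
    rw [hx', fixA hf x h]
    exact h
  have hxx' : x ≠ x' := by
    rw [hx, hx'2]
    exact iter_ne hf hy (Nat.lt_succ_self i) hi
  -- the path from `y` to `x` does not pass `x` before, nor `x'`
  have hp1 : ∀ j < i, f^[j] y ≠ x := by
    intro j hj
    rw [hx]
    exact iter_ne hf hy hj (hx ▸ hxA)
  have hp2 : ∀ j ≤ i, f^[j] y ≠ x' := by
    intro j hj
    rw [hx'2]
    exact iter_ne hf hy (Nat.lt_succ_of_le hj) hi
  have hx'b : x' ∉ below f x := by
    rintro ⟨m, hm⟩
    refine no_cycle hf hxB hxA (k := m) ?_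
    rw [Function.iterate_succ_apply, ← hx', hm]
  by_cases htb : t ∈ below f x
  · -- second case
    have hphi : phi i ((f, y), t) =
        ((Function.update (Function.update f x (f x')) x' t, y), x') := by
      unfold phi
      simp only
      rw [← hx, ← hx', if_pos htb]
    set g := Function.update f x (f x') with hg
    have hfx'b : f x' ∉ below f x := by
      rintro ⟨m, hm⟩
      refine no_cycle hf hxB hxA (k := m + 1) ?_
      rw [Function.iterate_succ_apply, Function.iterate_succ_apply, ← hx', hm]
    have hgW : g ∈ WW B A := upd_mem hf hxB hxA ((mem_WW.1 hf).2.1 _ hx'B) hfx'b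
    -- `t` does not reach `x'` under `g`
    have h0 : ∃ m, f^[m] t = x := htb
    have hk1 : ∀ j ≤ Nat.find h0, g^[j] t = f^[j] t := fun j hj =>
      ForestAux.iter_eq f x (f x') t j fun j' hj' => Nat.find_min h0 (lt_of_lt_of_le hj' hj)
    have htg : t ∉ below g x' := by
      rintro ⟨m, hm⟩
      rcases le_or_gt m (Nat.find h0) with h | h
      · rw [hk1 m h] at hm
        apply hx'b
        refine ⟨Nat.find h0 - m, ?_⟩
        rw [← hm, ← Function.iterate_add_apply, Nat.sub_add_cancel h]
        exact Nat.find_spec h0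
      · obtain ⟨k, rfl⟩ := Nat.exists_eq_add_of_lt h
        have h1 : g^[Nat.find h0] t = x := by rw [hk1 _ le_rfl]; exact Nat.find_spec h0
        have hgx : g x = f x' := by rw [hg, Function.update_self]
        have h2 : g^[k] (f x') = x' := by
          have e : g^[Nat.find h0 + k + 1] t = g^[k] (f x') := by
            have e0 : Nat.find h0 + k + 1 = k + 1 + Nat.find h0 := by omega
            rw [e0, Function.iterate_add_apply, h1, Function.iterate_succ_apply, hgx]
          rw [← e]
          exact hm
        rw [hg, ForestAux.iter_eq f x (f x') (f x') k fun j _ hj => hfx'b ⟨j, hj⟩] at h2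
        refine no_cycle hf hx'B hx'A (k := k) ?_
        rw [Function.iterate_succ_apply]
        exact h2
    have hW : Function.update g x' t ∈ WW B A := upd_mem hgW hx'B hx'A ht htg
    -- the path of `y` is not changed
    have hgy : ∀ j ≤ i, g^[j] y = f^[j] y := fun j hj =>
      ForestAux.iter_eq f x (f x') y j fun j' hj' => hp1 j' (lt_of_lt_of_le hj' hj)
    have hpath : ∀ j ≤ i, (Function.update g x' t)^[j] y = f^[j] y := by
      intro j hj
      rw [ForestAux.iter_eq g x' t y j fun j' hj' => ?_, hgy j hj]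
      rw [hgy j' (by omega)]
      exact hp2 j' (by omega)
    have hpi : (Function.update g x' t)^[i] y = x := by rw [hpath i le_rfl, ← hx]
    rw [hphi]
    refine ⟨⟨?_, hx'B, ?_⟩, ?_⟩
    · rw [mem_TI]
      refine ⟨hW, hy, ?_⟩
      simp only
      rw [hpi]
      exact hxA
    · intro j hj
      simp only
      rw [hpath j hj]
      exact hp2 j hj
    · -- back
      have hb : x' ∈ below (Function.update g x' t) x := by
        have h1 : g^[Nat.find h0] t = x := by rw [hk1 _ le_rfl]; exact Nat.find_spec h0
        refine ⟨Nat.find h0 + 1, ?_⟩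
        rw [Function.iterate_succ_apply, Function.update_self,
          ForestAux.iter_eq g x' t t _ fun j _ hj => htg ⟨j, hj⟩]
        exact h1
      unfold psi
      simp only
      rw [hpi, if_pos hb, Function.update_self]
      have e1 : Function.update g x' t x = f x' := by
        rw [Function.update_of_ne hxx', hg, Function.update_self]
      rw [e1]
      congr 2
      funext z
      by_cases hz' : z = x'
      · rw [hz', Function.update_self]
      · rw [Function.update_of_ne hz']
        by_cases hz : z = x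
        · rw [hz, Function.update_self, hx']
        · rw [Function.update_of_ne hz, Function.update_of_ne hz', hg, Function.update_of_ne hz]
  · -- first case
    have hphi : phi i ((f, y), t) = ((Function.update f x t, y), x') := by
      unfold phi
      simp only
      rw [← hx, ← hx', if_neg htb]
    have hW : Function.update f x t ∈ WW B A := upd_mem hf hxB hxA ht htb
    have hpath : ∀ j ≤ i, (Function.update f x t)^[j] y = f^[j] y := fun j hj =>
      ForestAux.iter_eq f x t y j fun j' hj' => hp1 j' (lt_of_lt_of_le hj' hj)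
    have hpi : (Function.update f x t)^[i] y = x := by rw [hpath i le_rfl, ← hx]
    rw [hphi]
    refine ⟨⟨?_, hx'B, ?_⟩, ?_⟩
    · rw [mem_TI]
      refine ⟨hW, hy, ?_⟩
      simp only
      rw [hpi]
      exact hxA
    · intro j hj
      simp only
      rw [hpath j hj]
      exact hp2 j hj
    · have hb : x' ∉ below (Function.update f x t) x := by
        rw [below_update]
        exact hx'b
      unfold psi
      simp only
      rw [hpi, if_neg hb, Function.update_self]
      congr 2
      funext z
      by_cases hz : z = x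
      · rw [hz, Function.update_self, hx']
      · rw [Function.update_of_ne hz, Function.update_of_ne hz]

theorem step (B A : Finset V) (i : ℕ) :
    B.card * (TI B A (i + 1)).card ≤ (B.card - (i + 1)) * (TI B A i).card := by
  classical
  set T := ((TI B A i) ×ˢ B).filter (fun q => ∀ j ≤ i, q.1.1^[j] q.1.2 ≠ q.2) with hT
  have h1 : ((TI B A (i + 1)) ×ˢ B).card ≤ T.card := by
    apply Finset.card_le_card_of_injOn (phi i)
    · rintro ⟨⟨f, y⟩, t⟩ hq
      rw [Finset.coe_product, Set.mem_prod] at hq
      obtain ⟨hq1, ht⟩ := hq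
      rw [Finset.mem_coe, mem_TI] at hq1
      have := (phi_spec hq1.1 hq1.2.1 hq1.2.2 ht).1
      rw [Finset.mem_coe, hT, Finset.mem_filter, Finset.mem_product]
      exact ⟨⟨this.1, this.2.1⟩, this.2.2⟩
    · apply Set.LeftInvOn.injOn (f₁' := psi i)
      rintro ⟨⟨f, y⟩, t⟩ hq
      rw [Finset.coe_product, Set.mem_prod] at hq
      obtain ⟨hq1, ht⟩ := hq
      rw [Finset.mem_coe, mem_TI] at hq1
      exact (phi_spec hq1.1 hq1.2.1 hq1.2.2 ht).2
  rw [Finset.card_product] at h1
  have h2 : T.card ≤ (B.card - (i + 1)) * (TI B A i).card := by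
    refine Finset.card_le_mul_card_image_of_maps_to (f := Prod.fst) ?_ _ ?_
    · intro q hq
      rw [hT, Finset.mem_filter, Finset.mem_product] at hq
      exact hq.1.1
    · rintro ⟨f, y⟩ hq
      rw [mem_TI] at hq
      obtain ⟨hf, hy, hi⟩ := hq
      simp only at hf hy hi
      have h3 : ((Finset.range (i + 1)).image fun j => f^[j] y).card = i + 1 := by
        rw [Finset.card_image_of_injOn, Finset.card_range]
        intro a ha b hb hab
        simp only at hab
        rw [Finset.coe_range, Set.mem_Iio] at ha hb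
        have hnA : ∀ c ≤ i, f^[c] y ∉ A := fun c hc h => hi (mem_of_fix (fixA hf) h hc)
        rcases lt_trichotomy a b with h | h | h
        · exact absurd hab (iter_ne hf hy h (hnA b (by omega)))
        · exact h
        · exact absurd hab.symm (iter_ne hf hy h (hnA a (by omega)))
      have h4 : ((Finset.range (i + 1)).image fun j => f^[j] y) ⊆ B := by
        intro w hw
        obtain ⟨j, -, rfl⟩ := Finset.mem_image.mp hw
        exact iter_mem hf hy j
      calc (T.filter fun q => q.1 = (f, y)).card
          ≤ (B \ ((Finset.range (i + 1)).image fun j => f^[j] y)).card := by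
            apply Finset.card_le_card_of_injOn Prod.snd
            · intro q hq
              rw [Finset.mem_coe, Finset.mem_filter, hT, Finset.mem_filter,
                Finset.mem_product] at hq
              rw [Finset.mem_coe, Finset.mem_sdiff]
              refine ⟨hq.1.1.2, ?_⟩
              intro hmem
              obtain ⟨j, hj, hje⟩ := Finset.mem_image.mp hmem
              have := hq.1.2 j (by rw [Finset.mem_range] at hj; omega)
              rw [hq.2] at this
              exact this hje
            · intro q hq q' hq' he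
              rw [Finset.mem_coe, Finset.mem_filter] at hq hq'
              exact Prod.ext (hq.2.trans hq'.2.symm) he
        _ = B.card - (i + 1) := by
            rw [Finset.card_sdiff_of_subset h4, h3]
  calc B.card * (TI B A (i + 1)).card = (TI B A (i + 1)).card * B.card := mul_comm _ _
    _ ≤ _ := h1.trans h2

/-- abstract summation -/
theorem sum_of_step (b : ℕ) (hb : 0 < b) (T : ℕ → ℕ)
    (hstep : ∀ i, b * T (i + 1) ≤ (b - (i + 1)) * T i) (N : ℕ) :
    ∑ i ∈ Finset.range N, (T i : ℝ) ≤ 2 * Real.sqrt b * T 0 := by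
  have hbR : (0 : ℝ) < b := by exact_mod_cast hb
  have hT0 : (0 : ℝ) ≤ T 0 := Nat.cast_nonneg _
  -- step in the reals
  have hst : ∀ i : ℕ, ((i : ℝ) + 1) * T i ≤ b * (T i - T (i + 1)) := by
    intro i
    have h := hstep i
    rcases le_or_gt (i + 1) b with h1 | h1
    · have h2 : ((b * T (i + 1) : ℕ) : ℝ) ≤ (((b - (i + 1)) * T i : ℕ) : ℝ) := by exact_mod_cast h
      push_cast [Nat.cast_sub h1] at h2
      nlinarith
    · -- `T (i+1) = 0` and `T i = 0`
      have hTi : T i = 0 := by
        obtain ⟨j, rfl⟩ : ∃ j, i = j + 1 := ⟨i - 1, by omega⟩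
        rcases le_or_gt (j + 1) b with h3 | h3
        · have h4 : j + 1 = b := by omega
          have h5 := hstep j
          rw [h4, Nat.sub_self, zero_mul] at h5
          have h6 : b * T b = 0 := Nat.le_zero.mp h5
          rw [h4]
          rcases Nat.mul_eq_zero.mp h6 with h7 | h7
          · omega
          · exact h7
        · have h5 := hstep j
          have h6 : b - (j + 1) = 0 := by omega
          rw [h6, zero_mul] at h5
          rcases Nat.mul_eq_zero.mp (Nat.le_zero.mp h5) with h7 | h7
          · omega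
          · exact h7
      have hTi1 : T (i + 1) = 0 := by
        rw [hTi, mul_zero] at h
        rcases Nat.mul_eq_zero.mp (Nat.le_zero.mp h) with h7 | h7
        · omega
        · exact h7
      rw [hTi, hTi1]; simp
  have hanti : ∀ i, (T i : ℝ) ≤ T 0 := by
    intro i
    induction i with
    | zero => exact le_rfl
    | succ i ih =>
      have h1 := hst i
      have h2 : (0 : ℝ) ≤ ((i : ℝ) + 1) * T i := by positivity
      have h3 : (0 : ℝ) ≤ b * ((T i : ℝ) - T (i + 1)) := h2.trans h1
      have h4 : (0 : ℝ) ≤ (T i : ℝ) - T (i + 1) := by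
        by_contra hc
        push Not at hc
        exact absurd h3 (not_le.mpr (mul_neg_of_pos_of_neg hbR hc))
      linarith
  have htel : ∀ N : ℕ, ∑ i ∈ Finset.range N, ((i : ℝ) + 1) * T i ≤ b * (T 0 - T N) := by
    intro N
    induction N with
    | zero => simp
    | succ N ih =>
      rw [Finset.sum_range_succ]
      have := hst N
      linarith
  have hw : ∑ i ∈ Finset.range N, ((i : ℝ) + 1) * T i ≤ b * T 0 := by
    refine (htel N).trans ?_
    have : (0 : ℝ) ≤ T N := Nat.cast_nonneg _
    nlinarith
  set s := Real.sqrt b with hs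
  have hs0 : 0 < s := Real.sqrt_pos.mpr hbR
  have hss : s * s = b := Real.mul_self_sqrt hbR.le
  -- split at `√b`
  have hterm : ∀ i : ℕ, (T i : ℝ) ≤ (if (i : ℝ) + 1 ≤ s then (T 0 : ℝ) else 0) +
      (((i : ℝ) + 1) * T i) / s := by
    intro i
    have h0 : (0 : ℝ) ≤ T i := Nat.cast_nonneg _
    split_ifs with h
    · have : 0 ≤ (((i : ℝ) + 1) * T i) / s := by positivity
      linarith [hanti i]
    · push Not at h
      rw [zero_add, le_div_iff₀ hs0]
      nlinarith
  have hcount : ∑ i ∈ Finset.range N, (if (i : ℝ) + 1 ≤ s then (T 0 : ℝ) else 0) ≤ s * T 0 := by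
    rw [← Finset.sum_filter, Finset.sum_const, nsmul_eq_mul]
    apply mul_le_mul_of_nonneg_right _ hT0
    have h1 : (Finset.range N).filter (fun i : ℕ => (i : ℝ) + 1 ≤ s) ⊆
        Finset.range (Nat.floor s) := by
      intro i hi
      rw [Finset.mem_filter] at hi
      rw [Finset.mem_range]
      have : ((i + 1 : ℕ) : ℝ) ≤ s := by push_cast; exact hi.2
      have h2 := Nat.le_floor this
      omega
    have h2 := Finset.card_le_card h1
    rw [Finset.card_range] at h2
    calc (((Finset.range N).filter (fun i : ℕ => (i : ℝ) + 1 ≤ s)).card : ℝ)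
        ≤ (Nat.floor s : ℝ) := by exact_mod_cast h2
      _ ≤ s := Nat.floor_le hs0.le
  calc ∑ i ∈ Finset.range N, (T i : ℝ)
      ≤ ∑ i ∈ Finset.range N, ((if (i : ℝ) + 1 ≤ s then (T 0 : ℝ) else 0) +
        (((i : ℝ) + 1) * T i) / s) := Finset.sum_le_sum fun i _ => hterm i
    _ = ∑ i ∈ Finset.range N, (if (i : ℝ) + 1 ≤ s then (T 0 : ℝ) else 0) +
        (∑ i ∈ Finset.range N, ((i : ℝ) + 1) * T i) / s := by
        rw [Finset.sum_add_distrib, Finset.sum_div]
    _ ≤ s * T 0 + (b * T 0) / s := by
        apply add_le_add hcount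
        exact div_le_div_of_nonneg_right hw hs0.le
    _ = 2 * s * T 0 := by
        rw [← hss]; field_simp; ring

end Depth

open Depth

/-- In the mean over the forests the total size of the branches is at most `2 b ^ (3/2)`. -/
theorem sum_below_WW' (B A : Finset V) (hAB : A ⊆ B) (hA : A.Nonempty) :
    ∑ f ∈ WW B A, ∑ x ∈ B \ A, ((below f x).ncard : ℝ) ≤
      (WW B A).card * (2 * (B.card : ℝ) * Real.sqrt B.card) := by
  classical
  have hb : 0 < B.card := Finset.card_pos.mpr (hA.mono hAB)
  -- for each forest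
  have h1 : ∀ f ∈ WW B A, ∑ x ∈ B \ A, (below f x).ncard ≤
      ∑ i ∈ Finset.range B.card, (B.filter fun y => f^[i] y ∉ A).card := by
    intro f hf
    have e1 : ∑ x ∈ B \ A, (below f x).ncard =
        ∑ x ∈ B \ A, ∑ y ∈ B, if y ∈ below f x then 1 else 0 := by
      refine Finset.sum_congr rfl fun x hx => ?_
      rw [Finset.mem_sdiff] at hx
      rw [← Finset.sum_filter, ← Finset.card_eq_sum_ones, ← Set.ncard_coe_finset]
      congr 1
      ext y
      rw [Finset.coe_filter]
      constructor
      · intro hy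
        refine ⟨?_, hy⟩
        by_contra hyB
        obtain ⟨m, hm⟩ := hy
        have : f^[m] y = y := Function.iterate_fixed ((mem_WW.1 hf).1 y (Or.inl hyB)) m
        rw [this] at hm
        exact hyB (hm ▸ hx.1)
      · exact fun hy => hy.2
    have e2 : ∑ i ∈ Finset.range B.card, (B.filter fun y => f^[i] y ∉ A).card =
        ∑ y ∈ B, ((Finset.range B.card).filter fun i => f^[i] y ∉ A).card := by
      simp_rw [Finset.card_filter]
      exact Finset.sum_comm
    rw [e1, Finset.sum_comm, e2]
    refine Finset.sum_le_sum fun y hy => ?_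
    rw [← Finset.sum_filter, ← Finset.card_eq_sum_ones]
    apply Finset.card_le_card_of_surjOn (fun i => f^[i] y)
    intro x hx
    rw [Finset.mem_coe, Finset.mem_filter, Finset.mem_sdiff] at hx
    obtain ⟨⟨hxB, hxA⟩, hyx⟩ := hx
    have h0 : ∃ m, f^[m] y = x := hyx
    refine ⟨Nat.find h0, ?_, Nat.find_spec h0⟩
    rw [Finset.mem_coe, Finset.mem_filter, Finset.mem_range]
    have hsp : f^[Nat.find h0] y = x := Nat.find_spec h0
    refine ⟨?_, by rw [hsp]; exact hxA⟩
    have h3 : ((Finset.range (Nat.find h0 + 1)).image fun j => f^[j] y).card =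
        Nat.find h0 + 1 := by
      rw [Finset.card_image_of_injOn, Finset.card_range]
      intro a ha b hb hab
      simp only at hab
      rw [Finset.coe_range, Set.mem_Iio] at ha hb
      have hnA : ∀ c ≤ Nat.find h0, f^[c] y ∉ A := fun c hc h =>
        hxA (hsp ▸ mem_of_fix (fixA hf) h hc)
      rcases lt_trichotomy a b with h | h | h
      · exact absurd hab (iter_ne hf hy h (hnA b (by omega)))
      · exact h
      · exact absurd hab.symm (iter_ne hf hy h (hnA a (by omega)))
    have h4 : ((Finset.range (Nat.find h0 + 1)).image fun j => f^[j] y) ⊆ B := by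
      intro w hw
      obtain ⟨j, -, rfl⟩ := Finset.mem_image.mp hw
      exact iter_mem hf hy j
    have h5 := Finset.card_le_card h4
    omega
  have h2 : ∑ f ∈ WW B A, ∑ i ∈ Finset.range B.card, (B.filter fun y => f^[i] y ∉ A).card =
      ∑ i ∈ Finset.range B.card, (TI B A i).card := by
    rw [Finset.sum_comm]
    refine Finset.sum_congr rfl fun i _ => ?_
    unfold TI
    rw [Finset.card_filter, Finset.sum_product]
    refine Finset.sum_congr rfl fun f _ => ?_
    rw [Finset.card_filter]
  have h3 := sum_of_step B.card hb (fun i => (TI B A i).card) (step B A) B.card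
  have h4 : ((TI B A 0).card : ℝ) ≤ (WW B A).card * B.card := by
    have : (TI B A 0).card ≤ (WW B A ×ˢ B).card := Finset.card_le_card (Finset.filter_subset _ _)
    rw [Finset.card_product] at this
    exact_mod_cast this
  calc ∑ f ∈ WW B A, ∑ x ∈ B \ A, ((below f x).ncard : ℝ)
      ≤ ∑ i ∈ Finset.range B.card, ((TI B A i).card : ℝ) := by
        have h5 := (Finset.sum_le_sum h1).trans_eq h2
        exact_mod_cast h5
    _ ≤ 2 * Real.sqrt B.card * (TI B A 0).card := h3
    _ ≤ 2 * Real.sqrt B.card * ((WW B A).card * B.card) :=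
        mul_le_mul_of_nonneg_left h4 (by positivity)
    _ = _ := by ring

theorem sum_below_WW (B A : Finset V) (hAB : A ⊆ B) (hA : A.Nonempty) :
    ∑ f ∈ WW B A, ∑ x ∈ B \ A, ((below f x).ncard : ℝ) ≤
      (WW B A).card * (4 * (B.card : ℝ) * Real.sqrt B.card) := by
  refine (sum_below_WW' B A hAB hA).trans ?_
  apply mul_le_mul_of_nonneg_left _ (Nat.cast_nonneg _)
  have : (0 : ℝ) ≤ (B.card : ℝ) * Real.sqrt B.card := by positivity
  nlinarith

end Pool.Agent.OC
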