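import Pool.Agent.OC2.Defs2
import Pool.Agent.ZO.Fail

/-!
# A pattern realised with an acyclic complement: one missing 2-cell
-/

set_option autoImplicit false

open scoped BigOperators

namespace Pool.Agent.OC

open Pool.Agent.FoxAsph Pool.Agent.WT Pool.Agent.WT.Trees Pool.Agent.ZO Pool.Agent.GX
  Pool.Agent.GX.FringeAux

section
variable {V G : Type} [Group G]

open Classical in
/-- the values of the generators in `S`, defined by the relations of their edges -/
noncomputable def elimF (p l : V → V) (o : V → Bool) (base : V → G) (S : Set V) : ℕ → V → G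
  | 0, x => base x
  | n + 1, x => if x ∈ S then
      (if o x = true then (elimF p l o base S n (l x))⁻¹ * elimF p l o base S n (p x) *
          elimF p l o base S n (l x)
        else elimF p l o base S n (l x) * elimF p l o base S n (p x) *
          (elimF p l o base S n (l x))⁻¹)
      else base x

/-- Values on the complement of `S` extend to `S` such that the relations of the edges of the
elements of `S` hold, if there is a rank on `S` that decreases along `p` and `l`. -/
theorem exists_elim (p l : V → V) (o : V → Bool) (base : V → G) (S : Set V) (ρ : V → ℕ)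
    (hρ : ∀ x ∈ S, (p x ∈ S → ρ (p x) < ρ x) ∧ (l x ∈ S → ρ (l x) < ρ x)) :
    ∃ f : V → G, (∀ x, x ∉ S → f x = base x) ∧ ∀ x ∈ S, EVal p o l f x = 1 := by
  classical
  have hout : ∀ n x, x ∉ S → elimF p l o base S n x = base x := by
    intro n x hx
    cases n with
    | zero => rfl
    | succ n => exact if_neg hx
  have hst : ∀ k x, ρ x = k → ∀ n m, ρ x < n → ρ x < m →
      elimF p l o base S n x = elimF p l o base S m x := by
    intro k
    induction k using Nat.strong_induction_on with
    | _ k ih =>
      intro x hk n m hn hm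
      by_cases hxS : x ∈ S
      · obtain ⟨n', rfl⟩ : ∃ n', n = n' + 1 := ⟨n - 1, by omega⟩
        obtain ⟨m', rfl⟩ : ∃ m', m = m' + 1 := ⟨m - 1, by omega⟩
        have key : ∀ y, (y ∈ S → ρ y < ρ x) →
            elimF p l o base S n' y = elimF p l o base S m' y := by
          intro y hy
          by_cases hyS : y ∈ S
          · have h1 := hy hyS
            exact ih (ρ y) (by omega) y rfl n' m' (by omega) (by omega)
          · rw [hout _ y hyS, hout _ y hyS]
        have h1 := key (p x) (hρ x hxS).1
        have h2 := key (l x) (hρ x hxS).2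
        show (if x ∈ S then _ else _) = (if x ∈ S then _ else _)
        rw [if_pos hxS, if_pos hxS, h1, h2]
      · rw [hout _ x hxS, hout _ x hxS]
  refine ⟨fun x => elimF p l o base S (ρ x + 1) x, fun x hx => hout _ x hx, fun x hx => ?_⟩
  have key : ∀ y, (y ∈ S → ρ y < ρ x) →
      elimF p l o base S (ρ y + 1) y = elimF p l o base S (ρ x) y := by
    intro y hy
    by_cases hyS : y ∈ S
    · exact hst (ρ y) y rfl _ _ (Nat.lt_succ_self _) (hy hyS)
    · rw [hout _ y hyS, hout _ y hyS]
  have h1 := key (p x) (hρ x hx).1
  have h2 := key (l x) (hρ x hx).2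
  have h3 : elimF p l o base S (ρ x + 1) x = if o x = true then
      (elimF p l o base S (ρ x) (l x))⁻¹ * elimF p l o base S (ρ x) (p x) *
          elimF p l o base S (ρ x) (l x)
        else elimF p l o base S (ρ x) (l x) * elimF p l o base S (ρ x) (p x) *
          (elimF p l o base S (ρ x) (l x))⁻¹ := if_pos hx
  unfold EVal
  simp only
  rw [h1, h2, h3]
  by_cases ho : o x = true
  · rw [if_pos ho, if_pos ho]
    group
  · rw [if_neg ho, if_neg ho]
    group

end

section
variable {V : Type} {F : LOF} (T : Tour F) {p : V → V} {r u : V} {o : V → Bool}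
  {l : V → V} {H : Set V} {seg : V → ℕ} {top : ℕ → V} (Γ : LOT V)

/-- the value of the relator of an edge -/
theorem lift_edge1 {G : Type} [Group G] (hD : Desc Γ p r o l) (Θ : V → G) (v : V)
    (e : Γ.graph.edgeSet) (x : V) (hx : x ≠ r) (hex : (e : Sym2 V) = s(x, p x)) :
    FreeGroup.lift Θ (FreeGroup.mk (Γ.relPlus v (some e))) = EVal p o l Θ x := by
  obtain ⟨h1, h2, h3⟩ := hD.edge x hx e hex
  have h0 : Γ.relPlus v (some e) = [(Γ.tail e, true), (Γ.label e, true),
      (Γ.head e, false), (Γ.label e, false)] := rfl
  rw [h0, lift_four]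
  unfold EVal
  by_cases ho : o x = true
  · obtain ⟨h4, h5⟩ := h2 ho
    rw [if_pos ho]
    simp only [h1, h4, h5]
  · obtain ⟨h4, h5⟩ := h3 (by simpa using ho)
    rw [if_neg ho]
    simp only [h1, h4, h5]

theorem lift_none1 {G : Type} [Group G] (Θ : V → G) (v : V) :
    FreeGroup.lift Θ (FreeGroup.mk (Γ.relPlus v none)) = Θ v := by
  have h0 : Γ.relPlus v none = [(v, true)] := rfl
  rw [h0, lift_one']

theorem exists_vertex (hD : Desc Γ p r o l) (e : Γ.graph.edgeSet) :
    ∃ x, x ≠ r ∧ (e : Sym2 V) = s(x, p x) := by
  have hp := hD.mem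
  have h1 := Γ.ends e
  have h2 : (pGraph p).Adj (Γ.tail e) (Γ.head e) := by
    rw [hD.graph, ← SimpleGraph.mem_edgeSet, ← h1]
    exact e.2
  rw [pGraph_adj] at h2
  obtain ⟨h3, h4 | h4⟩ := h2
  · refine ⟨Γ.tail e, fun h5 => h3 ?_, ?_⟩
    · rw [h5, hp.1] at h4
      rw [h5, h4]
    · rw [h1, h4]
  · refine ⟨Γ.head e, fun h5 => h3 ?_, ?_⟩
    · rw [h5, hp.1] at h4
      rw [h5, h4]
    · rw [h1, h4, Sym2.eq_swap]

/-- If the pattern of a tour without cuts is realised at `u` with an acyclic complement, the complex
without the 2-cell of the edge of `u` is not aspherical. -/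
theorem fail1 [Fintype V] (hT : ∀ s < T.N, T.st (s + 1) ≠ none)
    (hF : ¬ Aspherical F.rel) (hD : Desc Γ p r o l)
    (hR : Realises T.pattern p r u o l H seg top) (hA : Acy (below p u) H p l)
    (v : V) (hv : v ∉ below p u) (eu : Γ.graph.edgeSet) (heu : (eu : Sym2 V) = s(u, p u)) :
    ¬ CellAspherical Γ v eu := by
  classical
  intro hall
  apply hF
  have hp := hD.mem
  have : Fintype Γ.graph.edgeSet := Fintype.ofFinite _
  -- the edge of a vertex
  have hed : ∀ x, x ≠ r → ∃ e : Γ.graph.edgeSet, (e : Sym2 V) = s(x, p x) := by
    intro x hx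
    refine ⟨⟨s(x, p x), ?_⟩, rfl⟩
    rw [← hD.graph]
    exact adj_parent hp x hx
  have huH : u ∈ H := by
    have := hR.top_mem 0 (Nat.zero_le _)
    rwa [hR.top_zero] at this
  have hseg0 : seg u = 0 := by
    have := hR.seg_top 0 (Nat.zero_le _)
    rwa [hR.top_zero] at this
  have hur : u ≠ r := hR.ne_root
  have htopu : ∀ s, s < T.N → top (s + 1) ≠ u := by
    intro s hs h
    rw [← hR.top_zero] at h
    have := top_inj T hR (Nat.succ_le_of_lt hs) (Nat.zero_le _) h
    omega
  have hasph := hall inferInstance
  have hj : ∀ e : F.E, ∃ i : {i : Option Γ.graph.edgeSet // i ≠ some eu},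
      ∃ e' : Γ.graph.edgeSet, (e' : Sym2 V) =
      s(top (T.tm e + 1), p (top (T.tm e + 1))) ∧ i.1 = some e' := by
    intro e
    have hr := top_ne_root T hp hR (s := T.tm e + 1) (T.tm_lt e)
    obtain ⟨e', he'⟩ := hed _ hr
    refine ⟨⟨some e', fun h => ?_⟩, e', he', rfl⟩
    have h1 := Option.some.inj h
    rw [h1, heu] at he'
    exact htopu _ (T.tm_lt e) (edge_unique hp hur he').symm
  choose j je hje hjs using hj
  refine transfer F.rel _ (fun x => top (T.fst x)) j T.tm T.tm_inj ?_ ?_ hasph
  · -- the homomorphism to the group of the forest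
    obtain ⟨ρ, hρ⟩ := hA
    obtain ⟨f, hf1, hf2⟩ := exists_elim p l o
      (fun x => if x ∈ H then val F.rel [(T.w (seg x), true)] else 1)
      {x | x ∈ below p u ∧ x ∉ H} ρ (by
        rintro x ⟨hx1, hx2⟩
        exact ⟨fun h => (hρ x hx1 hx2).1 h.2, fun h => (hρ x hx1 hx2).2 h.1 h.2⟩)
    have hfH : ∀ x ∈ H, f x = val F.rel [(T.w (seg x), true)] := by
      intro x hx
      rw [hf1 x (fun h => h.2 hx)]
      exact if_pos hx
    have hfD : ∀ x, x ∉ below p u → f x = 1 := by
      intro x hx
      rw [hf1 x (fun h => hx h.1)]
      exact if_neg (fun h => hx (hR.sub h))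
    have hf : ∀ i : {i : Option Γ.graph.edgeSet // i ≠ some eu},
        FreeGroup.lift f (FreeGroup.mk (Γ.relPlus v i)) = 1 := by
      rintro ⟨i, hi⟩
      rcases i with _ | e'
      · rw [lift_none1]
        exact hfD v hv
      · obtain ⟨x, hx, hex⟩ := exists_vertex Γ hD e'
        have hxu : x ≠ u := by
          intro h
          rw [h, ← heu] at hex
          exact hi (congrArg some (Subtype.ext hex))
        rw [lift_edge1 Γ hD f v e' x hx hex]
        by_cases hxD : x ∈ below p u
        · by_cases hxH : x ∈ H
          · by_cases hxt : x = top (seg x)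
            · obtain ⟨s, hs⟩ : ∃ s, seg x = s + 1 := by
                rcases Nat.eq_zero_or_pos (seg x) with h | h
                · rw [h, hR.top_zero] at hxt
                  exact absurd hxt hxu
                · exact ⟨seg x - 1, by omega⟩
              have hsN : s < T.N := by
                have h1 : seg x ≤ T.N := hR.seg_le x hxH
                omega
              rw [hs] at hxt
              rcases hst' : T.st (s + 1) with _ | ⟨e, b⟩
              · exact absurd hst' (hT s hsN)
              · have hst2 : ∀ x ∈ H, f x = f (top (seg x)) := by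
                  intro x hxH
                  rw [hfH x hxH, hfH _ (hR.top_mem _ (hR.seg_le x hxH)),
                    hR.seg_top _ (hR.seg_le x hxH)]
                rw [hxt, eval_step T (Θ := f) hR hst2 hsN hst']
                have hfw : ∀ t ≤ T.N, f (top t) = val F.rel [(T.w t, true)] := by
                  intro t ht
                  rw [hfH _ (hR.top_mem t ht), hR.seg_top t ht]
                simp only [hfw s (by omega), hfw (s + 1) (by omega), hfw _ (T.fst_le _), T.w_fst]
                have hrel : val F.rel [(F.tail e, true)] * val F.rel [(F.label e, true)] *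
                    (val F.rel [(F.head e, true)])⁻¹ * (val F.rel [(F.label e, true)])⁻¹ = 1 := by
                  have h1 : val F.rel [(F.tail e, true), (F.label e, true), (F.head e, false),
                    (F.label e, false)] = 1 := val_rel F.rel e
                  rw [val_cons, val_cons F.rel (F.label e, true), val_cons F.rel (F.head e, false),
                    val_inv, val_inv] at h1
                  rw [mul_assoc, mul_assoc]
                  exact h1
                cases b with
                | true =>
                  obtain ⟨h1, h2⟩ := T.fwd s hsN e hst'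
                  rw [if_pos rfl, h1, h2]
                  exact hrel
                | false =>
                  obtain ⟨h1, h2⟩ := T.bwd s hsN e hst'
                  rw [if_neg Bool.false_ne_true, h1, h2]
                  exact hrel
            · obtain ⟨h1, h2⟩ := hR.static x hxH hxt
              rw [eval_one_iff (Θ := f) x (hfD _ h2), hfH x hxH,
                hfH _ (hR.par_mem x hxH hxu), h1]
          · exact hf2 x ⟨hxD, hxH⟩
        · apply eval_of_one
          · exact hfD x hxD
          · exact hfD _ (fun h => hxD (mem_below_of_parent h))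
    refine ⟨PresentedGroup.toGroup (f := f) (by rintro _ ⟨i, rfl⟩; exact hf i), fun x => ?_⟩
    have h1 : PresentedGroup.toGroup (f := f)
        (rels := Set.range fun i : {i : Option Γ.graph.edgeSet // i ≠ some eu} =>
          FreeGroup.mk (Γ.relPlus v i))
        (by rintro _ ⟨i, rfl⟩; exact hf i) (PresentedGroup.of (top (T.fst x))) =
          f (top (T.fst x)) := PresentedGroup.toGroup.of _
    refine (show _ = f (top (T.fst x)) from h1).trans ?_
    rw [hfH _ (hR.top_mem _ (T.fst_le x)), hR.seg_top _ (T.fst_le x), T.w_fst]
  · -- the relators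
    intro G _ Θ e₀ hΘ
    have hv1 : Θ v = 1 := by
      rw [← lift_none1 Γ Θ v]
      have hne : (⟨none, (Option.some_ne_none eu).symm⟩ :
          {i : Option Γ.graph.edgeSet // i ≠ some eu}) ≠ j e₀ := by
        intro h
        have h1 := hjs e₀
        rw [← h] at h1
        exact Option.some_ne_none _ h1.symm
      exact hΘ _ hne
    -- relators other than that of `e₀`
    have hrel : ∀ x, x ≠ r → x ≠ u → x ≠ top (T.tm e₀ + 1) → EVal p o l Θ x = 1 := by
      intro x hx hxu hne
      obtain ⟨e', he'⟩ := hed x hx
      have hmem : (some e' : Option Γ.graph.edgeSet) ≠ some eu := by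
        intro h
        have h1 := Option.some.inj h
        rw [h1, heu] at he'
        exact hxu (edge_unique hp hur he').symm
      rw [← lift_edge1 Γ hD Θ v e' x hx he']
      have hne' : (⟨some e', hmem⟩ : {i : Option Γ.graph.edgeSet // i ≠ some eu}) ≠ j e₀ := by
        intro h
        have h1 := hjs e₀
        rw [← h] at h1
        have h2 : e' = je e₀ := Option.some.inj h1
        have h3 := hje e₀
        rw [← h2, he'] at h3
        exact hne (edge_unique hp hx h3)
      exact hΘ _ hne'
    have hout := outside (Θ := Θ) (o := o) (l := l) hp hv hv1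
      (fun x hx hxr => hrel x hxr (fun h => hx (by rw [h]; exact self_mem_below p u)) (by
        intro h
        rw [h] at hx
        exact hx (hR.sub (hR.top_mem _ (T.tm_lt e₀)))))
    have hstat := static_eq T (Θ := Θ) hR hout
      (fun x hx hxt => hrel x (fun h => by
          rw [h] at hx
          exact root_notMem_below hp hR.ne_root (hR.sub hx))
        (by
          intro h
          apply hxt
          rw [h, hseg0, hR.top_zero]) (by
        intro h
        rw [h, hR.seg_top _ (T.tm_lt e₀)] at hxt
        exact hxt rfl))
    have htour := T.relations (fun s => Θ (top s)) (T.tm e₀) (T.tm_lt e₀).le (by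
      intro s hs e b hst
      have hsN : s < T.N := hs.trans (T.tm_lt e₀)
      have h1 := hrel (top (s + 1)) (top_ne_root T hp hR hsN) (htopu s hsN) (by
          intro h
          have := top_inj T hR hsN (T.tm_lt e₀) h
          omega)
      rw [eval_step T (Θ := Θ) hR hstat hsN hst] at h1
      unfold Tour.StepRel
      cases b with
      | true =>
        rw [if_pos rfl, mul_inv_eq_one, mul_inv_eq_iff_eq_mul] at h1
        rw [if_pos rfl]
        exact h1
      | false =>
        rw [if_neg Bool.false_ne_true, mul_inv_eq_one, mul_inv_eq_iff_eq_mul] at h1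
        rw [if_neg Bool.false_ne_true]
        exact h1)
    refine ⟨fun e he => ?_, ?_⟩
    · obtain ⟨b, hb⟩ := T.tm_spec e
      have h1 := htour.2 (T.tm e) he e b hb
      unfold LOF.rel
      rw [lift_four, mul_inv_eq_one, mul_inv_eq_iff_eq_mul]
      exact h1
    · obtain ⟨b, hb⟩ := T.tm_spec e₀
      have hlt := T.tm_lt e₀
      rw [hjs e₀, lift_edge1 Γ hD Θ v (je e₀) (top (T.tm e₀ + 1)) (top_ne_root T hp hR hlt)
        (hje e₀), eval_step T (Θ := Θ) hR hstat hlt hb]
      have h2 := htour.1 (T.tm e₀) le_rfl
      have h3 := T.fst_w_tm e₀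
      unfold LOF.rel
      rw [lift_four]
      cases b with
      | true =>
        obtain ⟨h4, h5⟩ := T.fwd _ hlt e₀ hb
        rw [if_pos rfl]
        rw [h4] at h2
        rw [h5] at h3
        rw [h3]
        have h2' : Θ (top (T.tm e₀)) = Θ (top (T.fst (F.tail e₀))) := h2
        rw [h2']
      | false =>
        obtain ⟨h4, h5⟩ := T.bwd _ hlt e₀ hb
        rw [if_neg Bool.false_ne_true]
        rw [h4] at h2
        rw [h5] at h3
        rw [h3]
        have h2' : Θ (top (T.tm e₀)) = Θ (top (T.fst (F.head e₀))) := h2
        rw [h2']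

end

end Pool.Agent.OC
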