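import Pool.Agent.OC2.GlueG
import Pool.Agent.OC2.Depth

/-!
# The zero-one law with one missing 2-cell: counting marked trees with small total branch size
(module S5)
-/

set_option autoImplicit false

open scoped BigOperators

namespace Pool.Agent.OC

open Pool.Agent.FoxAsph Pool.Agent.WT Pool.Agent.RelGap Pool.Agent.ZO Pool.Agent.GX

variable {V : Type} [Fintype V] [DecidableEq V] {P : Pattern} {ℓ A : ℕ}

/-- **S5.** The number of light marked trees. -/
theorem count2' {att dl : Fin P.N → ℕ} (hatt : att ∈ AttF P ℓ) (hdl : dl ∈ DlF P ℓ)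
    (D : Finset V) (hA : 1 ≤ A) (hw : (Ls P.N ℓ + 1 + ∑ j, dl j) ^ 2 ≤ A)
    (hn : 40 * ((D.card : ℝ) * Real.sqrt D.card) ≤ Fintype.card V) :
    ∑ q ∈ (KK A (Ls P.N ℓ + 1 + ∑ j, dl j)).filter (fun q => q.1 + q.2.1 + q.2.2 = D.card),
        (D.card.choose q.1 : ℝ) * ((D.card - q.1).choose q.2.1 : ℝ) *
          Wc q.1 q.2.1 q.2.2 (Ls P.N ℓ + 1 + ∑ j, dl j) ≤
      2 * ((MM1 P ℓ A D att dl).card : ℝ) :=
  count2_of glueGeom sum_below_WW hatt hdl D hA hw hn

end Pool.Agent.OC
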