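import Pool.Agent.OC2.GlueM

/-!
# The zero-one law with one missing 2-cell: geometry of the gluing (module S5, first half)
-/

set_option autoImplicit false

open scoped BigOperators

namespace Pool.Agent.OC

open Pool.Agent.FoxAsph Pool.Agent.WT Pool.Agent.RelGap Pool.Agent.ZO Pool.Agent.GX

variable {V : Type} [Fintype V] [DecidableEq V]

section

variable {L N : ℕ} {dl att : Fin N → ℕ}
  {D Z R M : Finset V} {z u : V} {φ : Ix L dl → V} {f1 f2 f3 : V → V}
  (h : GD L dl att D Z R M z u φ f1 f2 f3)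
include h

theorem gl_notZ {w : V} (hw : w ∉ Z) : gl L dl att Z R z u φ f1 f2 f3 w ∉ Z := by
  obtain ⟨_, c2, c3, c4⟩ := h.gl_cases w
  by_cases hD : w ∈ D
  · rcases (h.hD w).1 hD with h1 | h1 | h1
    · exact absurd h1 hw
    · intro h2
      exact h.ZR _ h2 (c2 h1)
    · rcases c3 h1 with h2 | ⟨_, h2⟩
      · intro h3
        exact h.ZM _ h3 h2
      · rw [h2]
        intro h3
        exact h.ZR _ h3 h.uR
  · rw [c4 hD]
    exact hw

theorem gl_iter_notZ {w : V} (hw : w ∉ Z) (m : ℕ) :
    (gl L dl att Z R z u φ f1 f2 f3)^[m] w ∉ Z := by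
  induction m with
  | zero => exact hw
  | succ m ih =>
    rw [Function.iterate_succ_apply']
    exact gl_notZ h ih

theorem gl_iter_u (m : ℕ) : (gl L dl att Z R z u φ f1 f2 f3)^[m] u = u := by
  induction m with
  | zero => rfl
  | succ m ih => rw [Function.iterate_succ_apply', ih, h.gl_u]

/-- the skeleton is closed -/
theorem gl_iter_phi (m : ℕ) {w : V} (hw : w = u ∨ ∃ i, w = φ i) :
    (gl L dl att Z R z u φ f1 f2 f3)^[m] w = u ∨
      ∃ i, (gl L dl att Z R z u φ f1 f2 f3)^[m] w = φ i := by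
  induction m with
  | zero => exact hw
  | succ m ih =>
    rw [Function.iterate_succ_apply']
    rcases ih with ih | ⟨i, ih⟩
    · left
      rw [ih, h.gl_u]
    · rw [ih, h.gl_phi]
      cases parI L dl att i with
      | none => exact Or.inl rfl
      | some k => exact Or.inr ⟨k, rfl⟩

theorem below_Z {x : V} (hx : x ∈ Z) (m : ℕ) : ∀ y : V, y ∈ Z →
    (gl L dl att Z R z u φ f1 f2 f3)^[m] y = x → y ∈ below f1 x := by
  induction m with
  | zero => exact fun y _ hy => ⟨0, hy⟩
  | succ m ih =>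
    intro y hyZ hy
    rw [Function.iterate_succ_apply] at hy
    by_cases hyz : y = z
    · exfalso
      rw [hyz, h.gl_z] at hy
      exact gl_iter_notZ h (h.phi_ne (Sum.inl (Fin.last L))).1 m (hy ▸ hx)
    · rw [h.gl_Z hyZ hyz] at hy
      have h1 := ih _ ((mem_WW.1 h.w1).2.1 y hyZ) hy
      exact FringeAux.mem_below_of_parent h1

theorem below_R {x : V} (hx : x ∈ R) (hxu : x ≠ u) (m : ℕ) : ∀ y : V,
    (gl L dl att Z R z u φ f1 f2 f3)^[m] y = x → y ∈ R ∧ y ∈ below f3 x := by
  induction m with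
  | zero =>
    intro y hy
    have hy' : y = x := hy
    rw [hy']
    exact ⟨hx, ⟨0, rfl⟩⟩
  | succ m ih =>
    intro y hy
    rw [Function.iterate_succ_apply] at hy
    obtain ⟨h1, h2⟩ := ih _ hy
    obtain ⟨c1, c2, c3, c4⟩ := h.gl_cases y
    have hyR : y ∈ R := by
      by_cases hD : y ∈ D
      · rcases (h.hD y).1 hD with h3 | h3 | h3
        · exfalso
          by_cases hyz : y = z
          · rw [hyz, h.gl_z] at h1
            exact (h.phi_ne _).2 h1
          · exact h.ZR _ (c1 h3 hyz) h1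
        · exact h3
        · exfalso
          rcases c3 h3 with h4 | ⟨_, h4⟩
          · exact h.RM _ h1 h4
          · rw [h4, gl_iter_u h] at hy
            exact hxu hy.symm
      · exfalso
        rw [c4 hD] at h1
        exact hD ((h.hD y).2 (Or.inr (Or.inl h1)))
    refine ⟨hyR, ?_⟩
    rw [h.gl_R hyR] at h2
    exact FringeAux.mem_below_of_parent h2

theorem below_M {x : V} (hx : x ∈ M) (hxφ : ∀ i, φ i ≠ x) (m : ℕ) : ∀ y : V,
    (gl L dl att Z R z u φ f1 f2 f3)^[m] y = x → y ∈ M ∧ y ∈ below f2 x := by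
  have hxu : x ≠ u := fun h' => h.RM _ h.uR (h' ▸ hx)
  have hsk : ∀ m w, (w = u ∨ ∃ i, w = φ i) →
      (gl L dl att Z R z u φ f1 f2 f3)^[m] w ≠ x := by
    intro m w hw hc
    rcases gl_iter_phi h m hw with h1 | ⟨i, h1⟩
    · exact hxu (hc.symm.trans h1)
    · exact hxφ i (h1.symm.trans hc)
  induction m with
  | zero =>
    intro y hy
    have hy' : y = x := hy
    rw [hy']
    exact ⟨hx, ⟨0, rfl⟩⟩
  | succ m ih =>
    intro y hy
    rw [Function.iterate_succ_apply] at hy
    obtain ⟨h1, h2⟩ := ih _ hy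
    obtain ⟨c1, c2, c3, c4⟩ := h.gl_cases y
    have hyM : y ∈ M ∧ ∀ i, φ i ≠ y := by
      by_cases hD : y ∈ D
      · rcases (h.hD y).1 hD with h3 | h3 | h3
        · exfalso
          by_cases hyz : y = z
          · rw [hyz, h.gl_z] at hy
            exact hsk m _ (Or.inr ⟨_, rfl⟩) hy
          · exact h.ZM _ (c1 h3 hyz) h1
        · exact absurd h1 (fun h4 => h.RM _ (c2 h3) h4)
        · refine ⟨h3, fun i hi => ?_⟩
          rw [← hi] at hy
          have h5 : (gl L dl att Z R z u φ f1 f2 f3)^[m + 1] (φ i) = x := by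
            rw [Function.iterate_succ_apply]
            exact hy
          exact hsk (m + 1) _ (Or.inr ⟨i, rfl⟩) h5
      · exfalso
        rw [c4 hD] at h1
        exact hD ((h.hD y).2 (Or.inr (Or.inr h1)))
    refine ⟨hyM.1, ?_⟩
    rw [h.gl_M hyM.1 hyM.2] at h2
    exact FringeAux.mem_below_of_parent h2

theorem sum_below_gl : ∑ x ∈ D \ insert u (Finset.univ.image φ),
    (below (gl L dl att Z R z u φ f1 f2 f3) x).ncard ≤ wt Z R M z u φ f1 f2 f3 := by
  classical
  set g := gl L dl att Z R z u φ f1 f2 f3 with hg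
  have hpt : ∀ x ∈ D \ insert u (Finset.univ.image φ), (below g x).ncard ≤
      ((if x ∈ ({z} : Finset V) then Z.card else 0) +
        (if x ∈ Z \ {z} then (below f1 x).ncard else 0) +
        (if x ∈ R \ {u} then (below f3 x).ncard else 0) +
        (if x ∈ M \ Finset.univ.image φ then (below f2 x).ncard else 0)) := by
    intro x hx
    rw [Finset.mem_sdiff, Finset.mem_insert, not_or] at hx
    obtain ⟨hxD, hxu, hxφ⟩ := hx
    rcases (h.hD x).1 hxD with h1 | h1 | h1
    · by_cases hxz : x = z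
      · have h2 : (below g x).ncard = Z.card := by
          rw [hxz, hg, h.below_z, Set.ncard_coe_finset]
        rw [if_pos (Finset.mem_singleton.2 hxz), h2]
        omega
      · have h2 : (below g x).ncard ≤ (below f1 x).ncard := by
          apply Set.ncard_le_ncard _ (Set.toFinite _)
          rintro y ⟨m, hm⟩
          have hyZ : y ∈ Z := by
            by_contra hc
            exact gl_iter_notZ h hc m (hm ▸ h1)
          exact below_Z h h1 m y hyZ hm
        rw [if_pos (Finset.mem_sdiff.2 ⟨h1, by simpa using hxz⟩)]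
        omega
    · have h2 : (below g x).ncard ≤ (below f3 x).ncard := by
        apply Set.ncard_le_ncard _ (Set.toFinite _)
        rintro y ⟨m, hm⟩
        exact (below_R h h1 hxu m y hm).2
      have h3 : x ∈ R \ {u} := Finset.mem_sdiff.2 ⟨h1, by simpa using hxu⟩
      rw [if_pos h3]
      omega
    · have h2 : (below g x).ncard ≤ (below f2 x).ncard := by
        apply Set.ncard_le_ncard _ (Set.toFinite _)
        rintro y ⟨m, hm⟩
        exact (below_M h h1 (fun i hi => hxφ (Finset.mem_image.2 ⟨i, Finset.mem_univ _, hi⟩))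
          m y hm).2
      have h3 : x ∈ M \ Finset.univ.image φ := Finset.mem_sdiff.2 ⟨h1, hxφ⟩
      rw [if_pos h3]
      omega
  refine (Finset.sum_le_sum hpt).trans ?_
  rw [Finset.sum_add_distrib, Finset.sum_add_distrib, Finset.sum_add_distrib]
  unfold wt
  have hk : ∀ (T : Finset V) (F : V → ℕ), ∑ x ∈ D \ insert u (Finset.univ.image φ),
      (if x ∈ T then F x else 0) ≤ ∑ x ∈ T, F x := by
    intro T F
    rw [Finset.sum_ite_mem]
    exact Finset.sum_le_sum_of_subset Finset.inter_subset_right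
  have q1 := hk {z} (fun _ => Z.card)
  rw [Finset.sum_singleton] at q1
  have q2 := hk (Z \ {z}) (fun x => (below f1 x).ncard)
  have q3 := hk (R \ {u}) (fun x => (below f3 x).ncard)
  have q4 := hk (M \ Finset.univ.image φ) (fun x => (below f2 x).ncard)
  exact add_le_add (add_le_add (add_le_add q1 q2) q3) q4

theorem Hs_gl (hdl : ∀ j, 1 ≤ dl j) :
    Hs (gl L dl att Z R z u φ f1 f2 f3) z L dl (fun j => φ (Sum.inr ⟨j, ⟨0, hdl j⟩⟩)) =
      Finset.univ.image φ := by
  classical
  ext x
  unfold Hs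
  rw [Finset.mem_union, Finset.mem_image, Finset.mem_biUnion, Finset.mem_image]
  constructor
  · rintro (⟨i, hi, rfl⟩ | ⟨j, _, hj⟩)
    · rw [Finset.mem_range] at hi
      exact ⟨Sum.inl ⟨i, hi⟩, Finset.mem_univ _, (h.sv_eq i hi).symm⟩
    · rw [Finset.mem_image] at hj
      obtain ⟨i, hi, rfl⟩ := hj
      rw [Finset.mem_range] at hi
      exact ⟨Sum.inr ⟨j, ⟨i, hi⟩⟩, Finset.mem_univ _, (h.path_iter j i hi).symm⟩
  · rintro ⟨i, _, rfl⟩
    rcases i with i | ⟨j, i⟩
    · left
      exact ⟨i.1, Finset.mem_range.2 i.2, h.sv_eq i.1 i.2⟩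
    · right
      refine ⟨j, Finset.mem_univ _, ?_⟩
      rw [Finset.mem_image]
      exact ⟨i.1, Finset.mem_range.2 i.2, h.path_iter j i.1 i.2⟩

end

theorem glueGeom : GlueGeom V where
  sum_below := fun h => sum_below_gl h
  Hs_eq := fun h hdl => Hs_gl h hdl

end Pool.Agent.OC
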