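import Pool.Agent.OC2.Defs

/-!
# The zero-one law with one missing 2-cell: counting marked trees with small total branch size
(module S5, Markov part)
-/

set_option autoImplicit false

open scoped BigOperators

namespace Pool.Agent.OC

open Pool.Agent.FoxAsph Pool.Agent.WT Pool.Agent.RelGap Pool.Agent.ZO Pool.Agent.GX

variable {V : Type} [Fintype V] [DecidableEq V] {P : Pattern} {ℓ A : ℕ}

/-- the statement of the module S3 -/
def SumBelow (V : Type) [Fintype V] [DecidableEq V] : Prop :=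
  ∀ B A : Finset V, A ⊆ B → A.Nonempty →
    ∑ f ∈ WW B A, ∑ x ∈ B \ A, ((below f x).ncard : ℝ) ≤
      (WW B A).card * (4 * (B.card : ℝ) * Real.sqrt B.card)

/-- bound for the total size of the branches outside the skeleton -/
noncomputable def wt {L N : ℕ} {dl : Fin N → ℕ} (Z R M : Finset V) (z u : V) (φ : Ix L dl → V)
    (f1 f2 f3 : V → V) : ℕ :=
  Z.card + ∑ x ∈ Z \ {z}, (below f1 x).ncard + ∑ x ∈ R \ {u}, (below f3 x).ncard +
    ∑ x ∈ M \ Finset.univ.image φ, (below f2 x).ncard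

/-- the sum of `wt` over the three forests -/
theorem sum_wt_le (hS : SumBelow V) {L N : ℕ} {dl : Fin N → ℕ} {Z R M : Finset V} {z u : V}
    {φ : Ix L dl → V} (hz : z ∈ Z) (hu : u ∈ R) (hφ : ∀ i, φ i ∈ M) (n : ℕ)
    (hn : Z.card + R.card + M.card = n) :
    ∑ f ∈ WW Z {z} ×ˢ (WW M (Finset.univ.image φ) ×ˢ WW R {u}),
      (wt Z R M z u φ f.1 f.2.1 f.2.2 : ℝ) ≤
      ((WW Z {z} ×ˢ (WW M (Finset.univ.image φ) ×ˢ WW R {u})).card : ℝ) *
        (5 * ((n : ℝ) * Real.sqrt n)) := by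
  classical
  have i1 : (Finset.univ.image φ).Nonempty :=
    ⟨φ (Sum.inl 0), Finset.mem_image.2 ⟨_, Finset.mem_univ _, rfl⟩⟩
  have i2 : Finset.univ.image φ ⊆ M := by
    intro x hx
    obtain ⟨i, _, rfl⟩ := Finset.mem_image.1 hx
    exact hφ i
  have h1 := hS Z {z} (by simpa using hz) (Finset.singleton_nonempty z)
  have h2 := hS M (Finset.univ.image φ) i2 i1
  have h3 := hS R {u} (by simpa using hu) (Finset.singleton_nonempty u)
  set S1 := ∑ f ∈ WW Z {z}, ∑ x ∈ Z \ {z}, ((below f x).ncard : ℝ) with hS1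
  set S2 := ∑ f ∈ WW M (Finset.univ.image φ), ∑ x ∈ M \ Finset.univ.image φ,
    ((below f x).ncard : ℝ) with hS2
  set S3 := ∑ f ∈ WW R {u}, ∑ x ∈ R \ {u}, ((below f x).ncard : ℝ) with hS3
  set a := ((WW Z {z}).card : ℝ) with ha
  set b := ((WW M (Finset.univ.image φ)).card : ℝ) with hb
  set c := ((WW R {u}).card : ℝ) with hc
  have ha0 : 0 ≤ a := Nat.cast_nonneg _
  have hb0 : 0 ≤ b := Nat.cast_nonneg _
  have hc0 : 0 ≤ c := Nat.cast_nonneg _
  have e1 : ∑ f ∈ WW Z {z} ×ˢ (WW M (Finset.univ.image φ) ×ˢ WW R {u}),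
      (wt Z R M z u φ f.1 f.2.1 f.2.2 : ℝ) =
      a * b * c * Z.card + S1 * b * c + a * b * S3 + a * S2 * c := by
    have e0 : ∀ f : (V → V) × (V → V) × (V → V), (wt Z R M z u φ f.1 f.2.1 f.2.2 : ℝ) =
        (Z.card : ℝ) + ∑ x ∈ Z \ {z}, ((below f.1 x).ncard : ℝ) +
          ∑ x ∈ R \ {u}, ((below f.2.2 x).ncard : ℝ) +
          ∑ x ∈ M \ Finset.univ.image φ, ((below f.2.1 x).ncard : ℝ) := by
      intro f
      unfold wt
      push_cast
      ring
    simp only [e0]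
    rw [Finset.sum_add_distrib, Finset.sum_add_distrib, Finset.sum_add_distrib]
    congr 1
    congr 1
    congr 1
    · rw [Finset.sum_const, Finset.card_product, Finset.card_product, nsmul_eq_mul]
      push_cast
      ring
    · rw [Finset.sum_product]
      simp only [Finset.sum_const, Finset.card_product, nsmul_eq_mul]
      rw [← Finset.mul_sum]
      push_cast
      ring
    · rw [Finset.sum_product]
      simp only [Finset.sum_product, Finset.sum_const, nsmul_eq_mul]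
      ring
    · rw [Finset.sum_product]
      simp only [Finset.sum_product, Finset.sum_const, nsmul_eq_mul]
      rw [← Finset.mul_sum]
      ring
  have hn0 : (0 : ℝ) ≤ n := Nat.cast_nonneg _
  have hZ1 : 1 ≤ Z.card := Finset.card_pos.2 ⟨z, hz⟩
  have hnn : (Z.card : ℝ) + R.card + M.card = n := by exact_mod_cast hn
  have hs : ∀ k : ℕ, k ≤ n → Real.sqrt k ≤ Real.sqrt n := fun k hk =>
    Real.sqrt_le_sqrt (by exact_mod_cast hk)
  have hs1 : 1 ≤ Real.sqrt n := by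
    rw [← Real.sqrt_one]
    apply Real.sqrt_le_sqrt
    have : 1 ≤ n := by omega
    exact_mod_cast this
  have k1 : (Z.card : ℝ) ≤ n * Real.sqrt n := by
    have : (Z.card : ℝ) ≤ n := by
      have : Z.card ≤ n := by omega
      exact_mod_cast this
    nlinarith
  have k2 : 4 * (Z.card : ℝ) * Real.sqrt Z.card + 4 * (R.card : ℝ) * Real.sqrt R.card +
      4 * (M.card : ℝ) * Real.sqrt M.card ≤ 4 * (n * Real.sqrt n) := by
    have q1 := mul_le_mul_of_nonneg_left (hs Z.card (by omega)) (Nat.cast_nonneg (α := ℝ) Z.card)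
    have q2 := mul_le_mul_of_nonneg_left (hs R.card (by omega)) (Nat.cast_nonneg (α := ℝ) R.card)
    have q3 := mul_le_mul_of_nonneg_left (hs M.card (by omega)) (Nat.cast_nonneg (α := ℝ) M.card)
    have q4 : (Z.card : ℝ) * Real.sqrt n + R.card * Real.sqrt n + M.card * Real.sqrt n =
        n * Real.sqrt n := by
      rw [← hnn]
      ring
    linarith
  rw [e1, Finset.card_product, Finset.card_product]
  push_cast
  rw [← ha, ← hb, ← hc]
  have p1 : S1 * b * c ≤ a * b * c * (4 * (Z.card : ℝ) * Real.sqrt Z.card) := by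
    have := mul_le_mul_of_nonneg_right h1 (mul_nonneg hb0 hc0)
    nlinarith
  have p2 : a * S2 * c ≤ a * b * c * (4 * (M.card : ℝ) * Real.sqrt M.card) := by
    have := mul_le_mul_of_nonneg_right h2 (mul_nonneg ha0 hc0)
    nlinarith
  have p3 : a * b * S3 ≤ a * b * c * (4 * (R.card : ℝ) * Real.sqrt R.card) := by
    have := mul_le_mul_of_nonneg_right h3 (mul_nonneg ha0 hb0)
    nlinarith
  have habc : 0 ≤ a * b * c := by positivity
  have k3 : a * b * c * ((Z.card : ℝ) + (4 * (Z.card : ℝ) * Real.sqrt Z.card +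
      4 * (R.card : ℝ) * Real.sqrt R.card + 4 * (M.card : ℝ) * Real.sqrt M.card)) ≤
      a * b * c * (n * Real.sqrt n + 4 * (n * Real.sqrt n)) :=
    mul_le_mul_of_nonneg_left (add_le_add k1 k2) habc
  calc a * b * c * Z.card + S1 * b * c + a * b * S3 + a * S2 * c
      ≤ a * b * c * ((Z.card : ℝ) + (4 * (Z.card : ℝ) * Real.sqrt Z.card +
      4 * (R.card : ℝ) * Real.sqrt R.card + 4 * (M.card : ℝ) * Real.sqrt M.card)) := by
        nlinarith
    _ ≤ a * b * c * (n * Real.sqrt n + 4 * (n * Real.sqrt n)) := k3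
    _ = a * (b * c) * (5 * (n * Real.sqrt n)) := by ring

/-- the weight of gluing data -/
noncomputable def WG {N : ℕ} (ℓ : ℕ) (D : Finset V) (dl : Fin N → ℕ)
    (t : Σ _ : (Σ _ : (Σ _ : (ℕ × ℕ × ℕ), Finset V), Finset V),
      (Σ _ : V × V × (Ix (Ls N ℓ) dl → V), (V → V) × (V → V) × (V → V))) : ℕ :=
  wt t.1.1.2 t.1.2 ((D \ t.1.1.2) \ t.1.2) t.2.1.1 t.2.1.2.1 t.2.1.2.2 t.2.2.1 t.2.2.2.1 t.2.2.2.2

theorem sum_WG_le (hS : SumBelow V) {N : ℕ} (D : Finset V) (dl : Fin N → ℕ) :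
    ∑ t ∈ GG ℓ A D dl, (WG ℓ D dl t : ℝ) ≤
      ((GG ℓ A D dl).card : ℝ) * (5 * ((D.card : ℝ) * Real.sqrt D.card)) := by
  classical
  unfold GG
  rw [Finset.sum_sigma, Finset.card_sigma]
  push_cast
  rw [Finset.sum_mul]
  refine Finset.sum_le_sum ?_
  rintro ⟨⟨q, Z⟩, R⟩ hR
  rw [Finset.mem_sigma, Finset.mem_sigma] at hR
  obtain ⟨⟨_, hZ⟩, hR⟩ := hR
  simp only at hZ hR
  rw [Finset.mem_powersetCard] at hZ hR
  rw [Finset.sum_sigma, Finset.card_sigma]
  push_cast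
  rw [Finset.sum_mul]
  refine Finset.sum_le_sum ?_
  rintro ⟨z, u, φ⟩ ht
  rw [Finset.mem_product, Finset.mem_product] at ht
  obtain ⟨hz, hu, hφ⟩ := ht
  simp only at hz hu hφ
  rw [EmbF, Finset.mem_filter, Fintype.mem_piFinset] at hφ
  refine sum_wt_le hS hz hu hφ.1 D.card ?_
  rw [Finset.card_sdiff_of_subset hR.1, Finset.card_sdiff_of_subset hZ.1]
  have h1 := Finset.card_le_card hZ.1
  have h2 := Finset.card_le_card hR.1
  rw [Finset.card_sdiff_of_subset hZ.1] at h2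
  omega

/-- the light gluing data -/
noncomputable def GG1 (ℓ A : ℕ) {N : ℕ} (D : Finset V) (dl : Fin N → ℕ) :
    Finset (Σ _ : (Σ _ : (Σ _ : (ℕ × ℕ × ℕ), Finset V), Finset V),
      (Σ _ : V × V × (Ix (Ls N ℓ) dl → V), (V → V) × (V → V) × (V → V))) :=
  (GG ℓ A D dl).filter fun t => 4 * WG ℓ D dl t ≤ Fintype.card V

theorem card_GG_le_two (hS : SumBelow V) {N : ℕ} (D : Finset V) (dl : Fin N → ℕ)
    (hn : 40 * ((D.card : ℝ) * Real.sqrt D.card) ≤ Fintype.card V) :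
    ((GG ℓ A D dl).card : ℝ) ≤ 2 * ((GG1 ℓ A D dl).card : ℝ) := by
  classical
  rcases isEmpty_or_nonempty V with hV | hV
  · have : GG ℓ A D dl = ∅ := by
      rw [Finset.eq_empty_iff_forall_notMem]
      rintro ⟨_, ⟨z, _⟩, _⟩
      exact hV.elim z
    rw [this]
    simp
  have hn0 : (0 : ℝ) < Fintype.card V := by exact_mod_cast Fintype.card_pos
  set B := (GG ℓ A D dl).filter fun t => ¬ 4 * WG ℓ D dl t ≤ Fintype.card V with hB
  have h1 : (GG1 ℓ A D dl).card + B.card = (GG ℓ A D dl).card :=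
    Finset.card_filter_add_card_filter_not _
  have h2 : (B.card : ℝ) * (Fintype.card V / 4) ≤ ∑ t ∈ GG ℓ A D dl, (WG ℓ D dl t : ℝ) := by
    calc (B.card : ℝ) * (Fintype.card V / 4) = ∑ _t ∈ B, ((Fintype.card V : ℝ) / 4) := by
          rw [Finset.sum_const, nsmul_eq_mul]
      _ ≤ ∑ t ∈ B, (WG ℓ D dl t : ℝ) := by
          refine Finset.sum_le_sum fun t ht => ?_
          have := (Finset.mem_filter.1 ht).2
          have h3 : Fintype.card V ≤ 4 * WG ℓ D dl t := by omega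
          have h4 : (Fintype.card V : ℝ) ≤ 4 * WG ℓ D dl t := by exact_mod_cast h3
          linarith
      _ ≤ ∑ t ∈ GG ℓ A D dl, (WG ℓ D dl t : ℝ) :=
          Finset.sum_le_sum_of_subset_of_nonneg (Finset.filter_subset _ _)
            fun _ _ _ => Nat.cast_nonneg _
  have h3 := sum_WG_le (ℓ := ℓ) (A := A) hS D dl
  have h4 : (B.card : ℝ) * (Fintype.card V / 4) ≤
      ((GG ℓ A D dl).card : ℝ) * (Fintype.card V / 8) := by
    refine (h2.trans h3).trans (mul_le_mul_of_nonneg_left ?_ (Nat.cast_nonneg _))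
    linarith
  have h5 : (B.card : ℝ) ≤ ((GG ℓ A D dl).card : ℝ) / 2 := by
    by_contra hcon
    push Not at hcon
    have := mul_lt_mul_of_pos_right hcon (show (0 : ℝ) < Fintype.card V / 4 by positivity)
    linarith
  have h6 : ((GG1 ℓ A D dl).card : ℝ) + B.card = ((GG ℓ A D dl).card : ℝ) := by exact_mod_cast h1
  linarith

/-- the geometry of the gluing (first half of S5) -/
structure GlueGeom (V : Type) [Fintype V] [DecidableEq V] : Prop where
  sum_below : ∀ {L N : ℕ} {dl att : Fin N → ℕ} {D Z R M : Finset V} {z u : V} {φ : Ix L dl → V}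
    {f1 f2 f3 : V → V}, GD L dl att D Z R M z u φ f1 f2 f3 →
    ∑ x ∈ D \ insert u (Finset.univ.image φ),
      (below (gl L dl att Z R z u φ f1 f2 f3) x).ncard ≤ wt Z R M z u φ f1 f2 f3
  Hs_eq : ∀ {L N : ℕ} {dl att : Fin N → ℕ} {D Z R M : Finset V} {z u : V} {φ : Ix L dl → V}
    {f1 f2 f3 : V → V}, GD L dl att D Z R M z u φ f1 f2 f3 → ∀ hdl : ∀ j, 1 ≤ dl j,
    Hs (gl L dl att Z R z u φ f1 f2 f3) z L dl (fun j => φ (Sum.inr ⟨j, ⟨0, hdl j⟩⟩)) =
      Finset.univ.image φ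

theorem card_GG1_le (hG : GlueGeom V) {att dl : Fin P.N → ℕ} (hatt : att ∈ AttF P ℓ)
    (hdl : dl ∈ DlF P ℓ) (D : Finset V) (hw : (Ls P.N ℓ + 1 + ∑ j, dl j) ^ 2 ≤ A) :
    (GG1 ℓ A D dl).card ≤ (MM1 P ℓ A D att dl).card := by
  classical
  rw [mem_AttF] at hatt
  rw [mem_DlF] at hdl
  refine Finset.card_le_card_of_injOn (fun t => (t.2.1.2.1,
    gl (Ls P.N ℓ) dl att t.1.1.2 t.1.2 t.2.1.1 t.2.1.2.1 t.2.1.2.2 t.2.2.1 t.2.2.2.1 t.2.2.2.2,
    t.2.1.1, fun j => t.2.1.2.2 (Sum.inr ⟨j, ⟨0, (hdl j).1⟩⟩))) ?_ ?_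
  · rintro ⟨⟨⟨q, Z⟩, R⟩, ⟨⟨z, u, φ⟩, ⟨f1, f2, f3⟩⟩⟩ ht
    rw [Finset.mem_coe] at ht ⊢
    obtain ⟨ht, hlight⟩ := Finset.mem_filter.1 ht
    have hg : GD (Ls P.N ℓ) dl att D Z R ((D \ Z) \ R) z u φ f1 f2 f3 := gd_of_mem ht
    obtain ⟨⟨⟨⟨hq, hqs⟩, ⟨hZ, hZc⟩⟩, ⟨hR, hRc⟩⟩, _, _⟩ := mem_GG.1 ht
    unfold KK at hq
    simp only [Finset.mem_product, Finset.mem_Ico] at hq
    have hM : ((D \ Z) \ R).card = q.2.2 := by
      rw [Finset.card_sdiff_of_subset hR, Finset.card_sdiff_of_subset hZ, hZc, hRc]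
      omega
    unfold MM1
    rw [Finset.mem_filter]
    constructor
    · rw [mem_MM]
      refine hg.mg ?_ ?_ ?_ ?_ hatt hdl
      · omega
      · omega
      · omega
      · rw [hM]
        omega
    · have h1 := hG.sum_below hg
      have h2 := hG.Hs_eq hg (fun j => (hdl j).1)
      simp only
      rw [h2]
      have h3 : 4 * wt Z R ((D \ Z) \ R) z u φ f1 f2 f3 ≤ Fintype.card V := hlight
      omega
  · rintro ⟨⟨⟨q, Z⟩, R⟩, ⟨⟨z, u, φ⟩, ⟨f1, f2, f3⟩⟩⟩ ht ⟨⟨⟨q', Z'⟩, R'⟩, ⟨⟨z', u', φ'⟩,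
      ⟨f1', f2', f3'⟩⟩⟩ ht' he
    rw [Finset.mem_coe] at ht ht'
    replace ht := (Finset.mem_filter.1 ht).1
    replace ht' := (Finset.mem_filter.1 ht').1
    have hg : GD (Ls P.N ℓ) dl att D Z R ((D \ Z) \ R) z u φ f1 f2 f3 := gd_of_mem ht
    have hg' : GD (Ls P.N ℓ) dl att D Z' R' ((D \ Z') \ R') z' u' φ' f1' f2' f3' := gd_of_mem ht'
    obtain ⟨⟨⟨⟨_, hqs⟩, ⟨hZ, hZc⟩⟩, ⟨hR, hRc⟩⟩, _, _⟩ := mem_GG.1 ht
    obtain ⟨⟨⟨⟨_, hqs'⟩, ⟨hZ', hZc'⟩⟩, ⟨hR', hRc'⟩⟩, _, _⟩ := mem_GG.1 ht'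
    clear ht ht'
    have e1 : u = u' := congrArg Prod.fst he
    have e2 : gl (Ls P.N ℓ) dl att Z R z u φ f1 f2 f3 =
      gl (Ls P.N ℓ) dl att Z' R' z' u' φ' f1' f2' f3' := congrArg (fun t => t.2.1) he
    have e3 : z = z' := congrArg (fun t => t.2.2.1) he
    have e4 : (fun j => φ (Sum.inr ⟨j, ⟨0, (hdl j).1⟩⟩)) =
      fun j => φ' (Sum.inr ⟨j, ⟨0, (hdl j).1⟩⟩) := congrArg (fun t => t.2.2.2) he
    clear he
    obtain ⟨a1, a2, a3, a4, a5, a6⟩ := hg.unique hg' (fun j => (hdl j).1) e2 e3 e1 (congrFun e4)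
    clear hg hg' e2 e4
    subst e1
    subst e3
    subst a1
    subst a2
    subst a3
    subst a4
    subst a5
    subst a6
    have hq : q = q' := by
      obtain ⟨q1, q2, q3⟩ := q
      obtain ⟨q1', q2', q3'⟩ := q'
      simp only at hqs hZc hRc hqs' hZc' hRc'
      have b1 : q1 = q1' := hZc.symm.trans hZc'
      have b2 : q2 = q2' := hRc.symm.trans hRc'
      have b3 : q3 = q3' := by omega
      rw [b1, b2, b3]
    subst hq
    rfl

/-- S5 from the geometry of the gluing and S3 -/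
theorem count2_of (hG : GlueGeom V) (hS : SumBelow V) {att dl : Fin P.N → ℕ}
    (hatt : att ∈ AttF P ℓ) (hdl : dl ∈ DlF P ℓ)
    (D : Finset V) (hA : 1 ≤ A) (hw : (Ls P.N ℓ + 1 + ∑ j, dl j) ^ 2 ≤ A)
    (hn : 40 * ((D.card : ℝ) * Real.sqrt D.card) ≤ Fintype.card V) :
    ∑ q ∈ (KK A (Ls P.N ℓ + 1 + ∑ j, dl j)).filter (fun q => q.1 + q.2.1 + q.2.2 = D.card),
        (D.card.choose q.1 : ℝ) * ((D.card - q.1).choose q.2.1 : ℝ) *
          Wc q.1 q.2.1 q.2.2 (Ls P.N ℓ + 1 + ∑ j, dl j) ≤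
      2 * ((MM1 P ℓ A D att dl).card : ℝ) := by
  rw [← card_GG (ℓ := ℓ) D dl hA]
  refine (card_GG_le_two hS D dl hn).trans ?_
  have := card_GG1_le hG hatt hdl D hw
  have h1 : ((GG1 ℓ A D dl).card : ℝ) ≤ ((MM1 P ℓ A D att dl).card : ℝ) := by exact_mod_cast this
  linarith

end Pool.Agent.OC
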