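import Pool.Agent.OC2.Defs
import Pool.Agent.OC2.Count1
import Pool.Agent.OC2.Glue1
import Pool.Agent.OC2.Cycle
import Pool.Agent.ZO.KapLow

/-! # Zero-one law with one missing 2-cell: the expected number of successful templates -/

set_option autoImplicit false

open scoped BigOperators Nat

namespace Pool.Agent.OC

open Pool.Agent.ZO Pool.Agent.GX
open Pool.Agent.WT.Trees (PF)

variable {V : Type} [Fintype V] [DecidableEq V]

/-- The first count (templates on `D` against the gluing data), as an input. -/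
def Count1Prop (P : Pattern) : Prop :=
  ∀ (V : Type) [Fintype V] [DecidableEq V] (ℓ A : ℕ) (r : V) (D : Finset V), r ∉ D →
    2 * (D.card * (Ls P.N ℓ + 1 + P.N * ℓ)) ≤ Fintype.card V →
    (∑ att ∈ AttF P ℓ, ∑ dl ∈ DlF P ℓ, ((MM1 P ℓ A D att dl).card : ℝ)) * (ℓ : ℝ) ^ P.N *
        (2 * (Fintype.card V : ℝ)) ^ (D.card - 1) ≤
      (Tn1 P ℓ A r D.card : ℝ) * (4 * (2 * (Fintype.card V : ℝ)) ^ P.N)

/-- The second count (the gluing data), as an input. -/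
def Count2Prop (P : Pattern) : Prop :=
  ∀ (V : Type) [Fintype V] [DecidableEq V] (ℓ A : ℕ) (att dl : Fin P.N → ℕ), att ∈ AttF P ℓ →
    dl ∈ DlF P ℓ → ∀ D : Finset V, 1 ≤ A → (Ls P.N ℓ + 1 + ∑ j, dl j) ^ 2 ≤ A →
    40 * ((D.card : ℝ) * Real.sqrt D.card) ≤ Fintype.card V →
    ∑ q ∈ (KK A (Ls P.N ℓ + 1 + ∑ j, dl j)).filter (fun q => q.1 + q.2.1 + q.2.2 = D.card),
        (D.card.choose q.1 : ℝ) * ((D.card - q.1).choose q.2.1 : ℝ) *
          Wc q.1 q.2.1 q.2.2 (Ls P.N ℓ + 1 + ∑ j, dl j) ≤ 2 * ((MM1 P ℓ A D att dl).card : ℝ)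

theorem EE_lower1 (P : Pattern) (H1 : Count1Prop P) (H2 : Count2Prop P) (ℓ : ℕ) (hℓ : 1 ≤ ℓ) (r : V)
    (hn : 4000 * (kap P.N * ℓ) ^ 3 ≤ Fintype.card V) :
    K0 (Fintype.card V) (Fintype.card (Bool × V)) *
      ((ℓ : ℝ) ^ (3 * P.N) * Fintype.card V / (99840 * Real.exp 3 * ((kap P.N * ℓ : ℕ) : ℝ) ^ 2 *
        (2 * (Fintype.card V : ℝ)) ^ P.N)) ≤
      EE (Fintype.card V) (Fintype.card (Bool × V)) (Tn1 P ℓ ((kap P.N * ℓ) ^ 2) r) := by
  classical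
  set n := Fintype.card V with hndef
  set b := kap P.N * ℓ with hb
  set A := b ^ 2 with hA
  set c := Fintype.card (Bool × V) with hcdef
  have hc : (c : ℝ) = 2 * (n : ℝ) := by
    rw [hcdef, Fintype.card_prod, Fintype.card_bool]
    push_cast
    rfl
  have hκ := kap_ge P.N
  have hb1 : 2 ≤ b := by rw [hb]; nlinarith
  have hn0 : 0 < n := by
    have : 1 ≤ b ^ 3 := Nat.one_le_pow _ _ (by omega)
    omega
  have hn0' : (0 : ℝ) < n := by exact_mod_cast hn0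
  have hc0 : (0 : ℝ) < c := by rw [hc]; positivity
  have hA1 : 1 ≤ A := Nat.one_le_pow _ _ (by omega)
  have hbA : b ^ 3 = A * b := by rw [hA]; ring
  have hnA : 80 * A ≤ n := by nlinarith
  have hK1 : ∀ s, 0 ≤ K1 n c s := fun s => by unfold K1; positivity
  -- the number of successful templates
  have claim : ∀ s ∈ Finset.range n,
      ∑ att ∈ AttF P ℓ, ∑ dl ∈ DlF P ℓ,
        ∑ q ∈ (KK A (Ls P.N ℓ + 1 + ∑ j, dl j)).filter (fun q => q.1 + q.2.1 + q.2.2 = s),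
          (ℓ : ℝ) ^ P.N * ((s.choose q.1 : ℝ) * ((s - q.1).choose q.2.1 : ℝ) *
            Wc q.1 q.2.1 q.2.2 (Ls P.N ℓ + 1 + ∑ j, dl j)) * (c : ℝ) ^ (s - 1) ≤
        (Tn1 P ℓ A r s : ℝ) * (8 * (c : ℝ) ^ P.N) := by
    intro s hs
    rw [Finset.mem_range] at hs
    by_cases hsA : s < 20 * A
    · obtain ⟨D, hD, hDs⟩ : ∃ D ⊆ (Finset.univ : Finset V).erase r, D.card = s := by
        apply Finset.exists_subset_card_eq
        rw [Finset.card_erase_of_mem (Finset.mem_univ r), Finset.card_univ]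
        omega
      have hrD : r ∉ D := fun h => Finset.notMem_erase r _ (hD h)
      have hsq : 40 * ((s : ℝ) * Real.sqrt s) ≤ (n : ℝ) := by
        have hb0 : (0 : ℝ) ≤ b := Nat.cast_nonneg b
        have h1 : (s : ℝ) ≤ 20 * (b : ℝ) ^ 2 := by
          have : s ≤ 20 * b ^ 2 := by rw [← hA]; exact hsA.le
          exact_mod_cast this
        have h2 : Real.sqrt s ≤ 5 * b := by
          rw [Real.sqrt_le_left (by positivity)]
          nlinarith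
        have h3 : 4000 * (b : ℝ) ^ 3 ≤ n := by exact_mod_cast hn
        calc 40 * ((s : ℝ) * Real.sqrt s) ≤ 40 * ((20 * (b : ℝ) ^ 2) * (5 * b)) := by gcongr
          _ = 4000 * (b : ℝ) ^ 3 := by ring
          _ ≤ n := h3
      have hsm : 2 * (D.card * (Ls P.N ℓ + 1 + P.N * ℓ)) ≤ Fintype.card V := by
        rw [hDs, ← hndef]
        have h1 : Ls P.N ℓ + 1 + P.N * ℓ ≤ b := by
          rw [hb]
          unfold kap Ls
          nlinarith
        calc 2 * (s * (Ls P.N ℓ + 1 + P.N * ℓ)) ≤ 2 * ((20 * A) * b) := by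
              gcongr
          _ = 40 * b ^ 3 := by rw [hA]; ring
          _ ≤ 4000 * b ^ 3 := by gcongr; norm_num
          _ ≤ n := hn
      have h1 := H1 V ℓ A r D hrD hsm
      rw [← hndef, ← hc, hDs] at h1
      have h1' : (∑ att ∈ AttF P ℓ, ∑ dl ∈ DlF P ℓ, 2 * ((MM1 P ℓ A D att dl).card : ℝ)) *
          (ℓ : ℝ) ^ P.N * (c : ℝ) ^ (s - 1) ≤ (Tn1 P ℓ A r s : ℝ) * (8 * (c : ℝ) ^ P.N) := by
        simp only [← Finset.mul_sum]
        linarith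
      refine le_trans ?_ h1'
      rw [mul_assoc, Finset.sum_mul]
      apply Finset.sum_le_sum
      intro att hatt
      rw [Finset.sum_mul]
      apply Finset.sum_le_sum
      intro dl hdl
      have h2 := H2 V ℓ A att dl hatt hdl D hA1 (by
        rw [hA]
        exact Nat.pow_le_pow_left (w_le hℓ (mem_DlF.1 hdl)) 2) (by
        rw [hDs, ← hndef]
        exact hsq)
      rw [hDs] at h2
      rw [← Finset.sum_mul, ← Finset.mul_sum]
      calc _ = (∑ q ∈ (KK A (Ls P.N ℓ + 1 + ∑ j, dl j)).filter (fun q => q.1 + q.2.1 + q.2.2 = s),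
              (s.choose q.1 : ℝ) * ((s - q.1).choose q.2.1 : ℝ) *
                Wc q.1 q.2.1 q.2.2 (Ls P.N ℓ + 1 + ∑ j, dl j)) *
              ((ℓ : ℝ) ^ P.N * (c : ℝ) ^ (s - 1)) := by ring
        _ ≤ _ := mul_le_mul_of_nonneg_right h2 (by positivity)
    · have h0 : ∀ dl ∈ DlF P ℓ,
          (KK A (Ls P.N ℓ + 1 + ∑ j, dl j)).filter (fun q => q.1 + q.2.1 + q.2.2 = s) = ∅ := by
        intro dl hdl
        have h3 : (Ls P.N ℓ + 1 + ∑ j, dl j) ^ 2 ≤ A := by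
          rw [hA]
          exact Nat.pow_le_pow_left (w_le hℓ (mem_DlF.1 hdl)) 2
        apply Finset.filter_false_of_mem
        intro q hq
        unfold KK at hq
        simp only [Finset.mem_product, Finset.mem_Ico] at hq
        omega
      have h1 : ∑ att ∈ AttF P ℓ, ∑ dl ∈ DlF P ℓ,
        ∑ q ∈ (KK A (Ls P.N ℓ + 1 + ∑ j, dl j)).filter (fun q => q.1 + q.2.1 + q.2.2 = s),
          (ℓ : ℝ) ^ P.N * ((s.choose q.1 : ℝ) * ((s - q.1).choose q.2.1 : ℝ) *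
            Wc q.1 q.2.1 q.2.2 (Ls P.N ℓ + 1 + ∑ j, dl j)) * (c : ℝ) ^ (s - 1) = 0 := by
        apply Finset.sum_eq_zero
        intro att _
        apply Finset.sum_eq_zero
        intro dl hdl
        rw [h0 dl hdl, Finset.sum_empty]
      rw [h1]
      positivity
  -- the sum
  have hEE : EE n c (Tn1 P ℓ A r) * (8 * (c : ℝ) ^ P.N) =
      ∑ s ∈ Finset.range n, ((n - 1).choose s : ℝ) * K1 n c s *
        ((Tn1 P ℓ A r s : ℝ) * (8 * (c : ℝ) ^ P.N)) := by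
    unfold EE
    rw [Finset.sum_mul]
    exact Finset.sum_congr rfl fun s _ => by ring
  have h2 : ∑ s ∈ Finset.range n, ((n - 1).choose s : ℝ) * K1 n c s *
      (∑ att ∈ AttF P ℓ, ∑ dl ∈ DlF P ℓ,
        ∑ q ∈ (KK A (Ls P.N ℓ + 1 + ∑ j, dl j)).filter (fun q => q.1 + q.2.1 + q.2.2 = s),
          (ℓ : ℝ) ^ P.N * ((s.choose q.1 : ℝ) * ((s - q.1).choose q.2.1 : ℝ) *
            Wc q.1 q.2.1 q.2.2 (Ls P.N ℓ + 1 + ∑ j, dl j)) * (c : ℝ) ^ (s - 1)) ≤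
      EE n c (Tn1 P ℓ A r) * (8 * (c : ℝ) ^ P.N) := by
    rw [hEE]
    apply Finset.sum_le_sum
    intro s hs
    exact mul_le_mul_of_nonneg_left (claim s hs) (mul_nonneg (by positivity) (hK1 s))
  have h3 : ∑ s ∈ Finset.range n, ((n - 1).choose s : ℝ) * K1 n c s *
      (∑ att ∈ AttF P ℓ, ∑ dl ∈ DlF P ℓ,
        ∑ q ∈ (KK A (Ls P.N ℓ + 1 + ∑ j, dl j)).filter (fun q => q.1 + q.2.1 + q.2.2 = s),
          (ℓ : ℝ) ^ P.N * ((s.choose q.1 : ℝ) * ((s - q.1).choose q.2.1 : ℝ) *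
            Wc q.1 q.2.1 q.2.2 (Ls P.N ℓ + 1 + ∑ j, dl j)) * (c : ℝ) ^ (s - 1)) =
      ∑ att ∈ AttF P ℓ, ∑ dl ∈ DlF P ℓ, (ℓ : ℝ) ^ P.N *
        ∑ q ∈ KK A (Ls P.N ℓ + 1 + ∑ j, dl j), Fq n c (Ls P.N ℓ + 1 + ∑ j, dl j) q := by
    simp only [Finset.mul_sum]
    rw [Finset.sum_comm]
    apply Finset.sum_congr rfl
    intro att _
    rw [Finset.sum_comm]
    apply Finset.sum_congr rfl
    intro dl hdl
    have hwA : (Ls P.N ℓ + 1 + ∑ j, dl j) ^ 2 ≤ A := by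
      rw [hA]
      exact Nat.pow_le_pow_left (w_le hℓ (mem_DlF.1 hdl)) 2
    set w := Ls P.N ℓ + 1 + ∑ j, dl j with hw
    have hmap : ∀ q ∈ KK A w, q.1 + q.2.1 + q.2.2 ∈ Finset.range n := by
      intro q hq
      unfold KK at hq
      simp only [Finset.mem_product, Finset.mem_Ico] at hq
      rw [Finset.mem_range]
      omega
    rw [← Finset.sum_fiberwise_of_maps_to hmap]
    apply Finset.sum_congr rfl
    intro s _
    apply Finset.sum_congr rfl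
    intro q hq
    rw [Finset.mem_filter] at hq
    obtain ⟨_, rfl⟩ := hq
    unfold Fq
    ring
  have h4 : ∀ dl ∈ DlF P ℓ, K0 n c * (n / (12480 * Real.exp 3 * (b : ℝ) ^ 2)) ≤
      ∑ q ∈ KK A (Ls P.N ℓ + 1 + ∑ j, dl j), Fq n c (Ls P.N ℓ + 1 + ∑ j, dl j) q := by
    intro dl hdl
    rw [hA]
    refine sum_Fq n c _ b (by omega) (by omega) (w_le hℓ (mem_DlF.1 hdl)) ?_
    rw [← hA]
    omega
  have h5 : (ℓ : ℝ) ^ P.N * ((ℓ : ℝ) ^ P.N * ((ℓ : ℝ) ^ P.N *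
      (K0 n c * (n / (12480 * Real.exp 3 * (b : ℝ) ^ 2))))) ≤
      EE n c (Tn1 P ℓ A r) * (8 * (c : ℝ) ^ P.N) := by
    refine le_trans ?_ (h3 ▸ h2)
    have h6 : ∀ att ∈ AttF P ℓ, (ℓ : ℝ) ^ P.N * ((ℓ : ℝ) ^ P.N *
      (K0 n c * (n / (12480 * Real.exp 3 * (b : ℝ) ^ 2)))) ≤ ∑ dl ∈ DlF P ℓ, (ℓ : ℝ) ^ P.N *
        ∑ q ∈ KK A (Ls P.N ℓ + 1 + ∑ j, dl j), Fq n c (Ls P.N ℓ + 1 + ∑ j, dl j) q := by
      intro att _
      have h7 := Finset.card_nsmul_le_sum (DlF P ℓ) (fun dl => (ℓ : ℝ) ^ P.N *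
        ∑ q ∈ KK A (Ls P.N ℓ + 1 + ∑ j, dl j), Fq n c (Ls P.N ℓ + 1 + ∑ j, dl j) q)
        ((ℓ : ℝ) ^ P.N * (K0 n c * (n / (12480 * Real.exp 3 * (b : ℝ) ^ 2))))
        (fun dl hdl => mul_le_mul_of_nonneg_left (h4 dl hdl) (by positivity))
      rw [card_DlF, nsmul_eq_mul] at h7
      push_cast at h7
      exact h7
    have h8 := Finset.card_nsmul_le_sum _ _ _ h6
    rw [card_AttF, nsmul_eq_mul] at h8
    push_cast at h8
    exact h8
  rw [← hc]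
  have hcN : (0 : ℝ) < 8 * (c : ℝ) ^ P.N := by positivity
  rw [← mul_le_mul_iff_left₀ hcN]
  refine le_trans (le_of_eq ?_) h5
  have e3 := Real.exp_pos 3
  have hb0 : (0 : ℝ) < b := by
    have : 0 < b := by omega
    exact_mod_cast this
  have hcN' : (0 : ℝ) < (c : ℝ) ^ P.N := by positivity
  rw [pow_mul']
  field_simp
  ring

theorem Tn1_size {V : Type} [Fintype V] (P : Pattern) (ℓ A : ℕ) (r : V) (s : ℕ)
    (h : Tn1 P ℓ A r s ≠ 0) : 16 * A ≤ s ∧ s < 20 * A := by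
  classical
  unfold Tn1 at h
  by_cases hex : ∃ D : Finset V, r ∉ D ∧ D.card = s
  · rw [dif_pos hex] at h
    obtain ⟨τ, hτ⟩ := Finset.card_pos.1 (Nat.pos_of_ne_zero h)
    rw [Finset.mem_filter] at hτ
    obtain ⟨_, z, idx, att, dl, hs⟩ := (Finset.mem_filter.1 hτ.1).2
    have h1 := hs.1.cardlo
    have h2 := hs.1.cardhi
    rw [hτ.2, hex.choose_spec.2] at h1 h2
    exact ⟨h1, h2⟩
  · rw [dif_neg hex] at h
    exact absurd rfl h

theorem kap_lower1_aux (P : Pattern) (H1 : Count1Prop P) (H2 : Count2Prop P) : ∃ c₀ : ℝ, 0 < c₀ ∧ ∃ C : ℝ, 0 < C ∧ ∃ n₀ : ℕ,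
    ∀ (V : Type) [Fintype V] (r : V), n₀ ≤ Fintype.card V → ∃ ℓ A : ℕ, 1 ≤ A ∧
      80 * A ≤ Fintype.card V ∧ (A : ℝ) ≤ C * (Fintype.card V : ℝ) ^ (2 / 3 : ℝ) ∧
      (Fintype.card V : ℝ) ^ (1 / 3 : ℝ) ≤ C * ℓ ∧
      c₀ / A ≤ ∑ s ∈ Finset.range (Fintype.card V), (Tn1 P ℓ A r s : ℝ) *
        ((Fintype.card (Bool × V) : ℝ) ^ (Fintype.card V - (s - 1)) /
          ((Fintype.card (Bool × V) : ℝ) ^ (Fintype.card V) * (s ! : ℝ)) *
            Real.exp (-(s : ℝ))) := by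
  set κ := kap P.N with hκ
  have hκ2 := kap_ge P.N
  have hκ0 : (0 : ℝ) < κ := by
    have : 0 < κ := by omega
    exact_mod_cast this
  set K : ℝ := 4000 * (κ : ℝ) ^ 3 with hK
  have hK0 : 0 < K := by positivity
  have e3 := Real.exp_pos 3
  set k3 : ℝ := K ^ (1 / 3 : ℝ) with hk3
  have hk30 : 0 < k3 := Real.rpow_pos_of_pos hK0 _
  have hk3c : k3 ^ 3 = K := by
    rw [hk3, ← Real.rpow_natCast, ← Real.rpow_mul hK0.le]
    norm_num
  refine ⟨1 / (199680 * Real.exp 3 * (16 * K) ^ P.N), by positivity, (κ : ℝ) ^ 2 / k3 ^ 2 + 2 * k3,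
    by positivity, 4000 * κ ^ 3, ?_⟩
  intro V _ r hn₀
  classical
  set n := Fintype.card V with hndef
  set c := Fintype.card (Bool × V) with hcdef
  have hn0 : 0 < n := Fintype.card_pos_iff.2 ⟨r⟩
  have hc0 : 0 < c := Fintype.card_pos_iff.2 ⟨(false, r)⟩
  have hn' : (0 : ℝ) < n := by exact_mod_cast hn0
  have hc' : (0 : ℝ) < c := by exact_mod_cast hc0
  have hKn : K ≤ n := by
    have : ((4000 * κ ^ 3 : ℕ) : ℝ) ≤ n := by exact_mod_cast hn₀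
    push_cast at this
    exact this
  set y : ℝ := (n : ℝ) ^ (1 / 3 : ℝ) with hy
  have hy0 : 0 < y := Real.rpow_pos_of_pos hn' _
  have hy3 : y ^ 3 = n := by
    rw [hy, ← Real.rpow_natCast, ← Real.rpow_mul hn'.le]
    norm_num
  set x : ℝ := y / k3 with hx
  have hx0 : 0 < x := by positivity
  have hxn : K * x ^ 3 = n := by
    rw [hx, div_pow, hk3c, hy3]
    field_simp
  have hx1 : 1 ≤ x := by
    by_contra hcon
    rw [not_le] at hcon
    have h1 : x ^ 3 < 1 := pow_lt_one₀ hx0.le hcon (by norm_num)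
    nlinarith
  set ℓ := ⌊x⌋₊ with hℓ
  have hℓ1 : 1 ≤ ℓ := Nat.le_floor (by simpa using hx1)
  have hℓx : (ℓ : ℝ) ≤ x := Nat.floor_le hx0.le
  have hxℓ : x ≤ 2 * ℓ := by
    have h1 := Nat.lt_floor_add_one x
    rw [← hℓ] at h1
    have h2 : (1 : ℝ) ≤ ℓ := by exact_mod_cast hℓ1
    linarith
  have hℓ0 : (0 : ℝ) < ℓ := by exact_mod_cast hℓ1
  have hlow : K * (ℓ : ℝ) ^ 3 ≤ n := by
    rw [← hxn]
    have : (ℓ : ℝ) ^ 3 ≤ x ^ 3 := pow_le_pow_left₀ hℓ0.le hℓx 3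
    exact mul_le_mul_of_nonneg_left this hK0.le
  have hhigh : (n : ℝ) ≤ 8 * K * (ℓ : ℝ) ^ 3 := by
    rw [← hxn]
    have : x ^ 3 ≤ (2 * (ℓ : ℝ)) ^ 3 := pow_le_pow_left₀ hx0.le hxℓ 3
    calc K * x ^ 3 ≤ K * (2 * (ℓ : ℝ)) ^ 3 := mul_le_mul_of_nonneg_left this hK0.le
      _ = 8 * K * (ℓ : ℝ) ^ 3 := by ring
  have hnat : 4000 * (kap P.N * ℓ) ^ 3 ≤ Fintype.card V := by
    have h0 : ((4000 * (kap P.N * ℓ) ^ 3 : ℕ) : ℝ) = K * (ℓ : ℝ) ^ 3 := by
      rw [hK, hκ]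
      push_cast
      ring
    have h1 : ((4000 * (kap P.N * ℓ) ^ 3 : ℕ) : ℝ) ≤ (n : ℝ) := h0.trans_le hlow
    exact_mod_cast h1
  set A := (kap P.N * ℓ) ^ 2 with hA
  have hb2 : 2 ≤ kap P.N * ℓ := by nlinarith
  have hA1 : 1 ≤ A := Nat.one_le_pow _ _ (by omega)
  have h80 : 80 * A ≤ n := by
    have h5 : (kap P.N * ℓ) ^ 3 = A * (kap P.N * ℓ) := by rw [hA]; ring
    nlinarith
  have hA0 : (0 : ℝ) < A := by exact_mod_cast hA1
  refine ⟨ℓ, A, hA1, h80, ?_, ?_, ?_⟩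
  · have h1 : (A : ℝ) = (κ : ℝ) ^ 2 * (ℓ : ℝ) ^ 2 := by
      rw [hA]
      push_cast
      ring
    have h2 : (n : ℝ) ^ (2 / 3 : ℝ) = y ^ 2 := by
      rw [hy, ← Real.rpow_natCast, ← Real.rpow_mul hn'.le]
      norm_num
    rw [h1, h2]
    have h3 : (ℓ : ℝ) ^ 2 ≤ x ^ 2 := pow_le_pow_left₀ hℓ0.le hℓx 2
    calc (κ : ℝ) ^ 2 * (ℓ : ℝ) ^ 2 ≤ (κ : ℝ) ^ 2 * x ^ 2 :=
          mul_le_mul_of_nonneg_left h3 (by positivity)
      _ = (κ : ℝ) ^ 2 / k3 ^ 2 * y ^ 2 := by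
        rw [hx]
        field_simp
      _ ≤ ((κ : ℝ) ^ 2 / k3 ^ 2 + 2 * k3) * y ^ 2 :=
        mul_le_mul_of_nonneg_right (by linarith) (by positivity)
  · have h1 : y ≤ 2 * k3 * ℓ := by
      have h2 : y = k3 * x := by
        rw [hx]
        field_simp
      rw [h2]
      calc k3 * x ≤ k3 * (2 * ℓ) := mul_le_mul_of_nonneg_left hxℓ hk30.le
        _ = 2 * k3 * ℓ := by ring
    show y ≤ ((κ : ℝ) ^ 2 / k3 ^ 2 + 2 * k3) * ℓ
    have h3 : 0 ≤ (κ : ℝ) ^ 2 / k3 ^ 2 * ℓ := by positivity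
    linarith
  · have hE := EE_lower1 P H1 H2 ℓ hℓ1 r hnat
    rw [← hndef, ← hcdef, ← hA] at hE
    have hKpos : 0 < K0 n c := by unfold K0; positivity
    have h1 : EE n c (Tn1 P ℓ A r) ≤ K0 n c * (2 * n * ∑ s ∈ Finset.range n,
        (Tn1 P ℓ A r s : ℝ) * ((c : ℝ) ^ (n - (s - 1)) / ((c : ℝ) ^ n * (s ! : ℝ)) *
          Real.exp (-(s : ℝ)))) := by
      unfold EE
      rw [Finset.mul_sum, Finset.mul_sum]
      apply Finset.sum_le_sum
      intro s _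
      by_cases hT : Tn1 P ℓ A r s = 0
      · rw [hT]
        simp
      · obtain ⟨h2, h3⟩ := Tn1_size P ℓ A r s hT
        have h4 := term_le n c s (by omega) hc0 (by omega)
        calc ((n - 1).choose s : ℝ) * (Tn1 P ℓ A r s * K1 n c s)
            = Tn1 P ℓ A r s * (((n - 1).choose s : ℝ) * K1 n c s) := by ring
          _ ≤ Tn1 P ℓ A r s * (K0 n c * (2 * n * ((c : ℝ) ^ (n - (s - 1)) /
              ((c : ℝ) ^ n * (s ! : ℝ)) * Real.exp (-(s : ℝ))))) :=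
            mul_le_mul_of_nonneg_left h4 (Nat.cast_nonneg _)
          _ = _ := by ring
    have h2 := le_of_mul_le_mul_left (hE.trans h1) hKpos
    have hAr : (((kap P.N * ℓ : ℕ) : ℝ)) ^ 2 = (A : ℝ) := by
      rw [hA]
      push_cast
      ring
    rw [hAr] at h2
    have h3 : (2 * (n : ℝ)) ^ P.N ≤ (16 * K) ^ P.N * (ℓ : ℝ) ^ (3 * P.N) := by
      rw [pow_mul, ← mul_pow]
      apply pow_le_pow_left₀ (by positivity)
      linarith
    have h4 : (1 / (199680 * Real.exp 3 * (16 * K) ^ P.N) / A) * (2 * n) ≤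
        (ℓ : ℝ) ^ (3 * P.N) * n / (99840 * Real.exp 3 * (A : ℝ) * (2 * (n : ℝ)) ^ P.N) := by
      have h5 : (1 / (199680 * Real.exp 3 * (16 * K) ^ P.N) / A) * (2 * n) =
          (ℓ : ℝ) ^ (3 * P.N) * n / (99840 * Real.exp 3 * (A : ℝ) *
            ((16 * K) ^ P.N * (ℓ : ℝ) ^ (3 * P.N))) := by
        field_simp
        ring
      rw [h5]
      apply div_le_div_of_nonneg_left (by positivity) (by positivity)
      exact mul_le_mul_of_nonneg_left h3 (by positivity)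
    have h6 := h4.trans h2
    have h7 : (0 : ℝ) < 2 * n := by positivity
    rw [mul_comm] at h6
    exact le_of_mul_le_mul_left h6 h7

theorem count1Prop_of (hca : ∀ (V : Type) [Fintype V] [DecidableEq V], CardAcy V) (P : Pattern) :
    Count1Prop P :=
  fun V _ _ _ _ _ D hr hsm => count1_of (hca V) D hr hsm

theorem count2Prop (P : Pattern) : Count2Prop P :=
  fun _ _ _ _ _ _ _ hatt hdl D hA hw hn => count2' hatt hdl D hA hw hn

/-- The weight of the successful templates with an acyclic complement. -/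
theorem kap_lower1_of (hca : ∀ (V : Type) [Fintype V] [DecidableEq V], CardAcy V) (P : Pattern) :
    ∃ c₀ : ℝ, 0 < c₀ ∧ ∃ C : ℝ, 0 < C ∧ ∃ n₀ : ℕ,
    ∀ (V : Type) [Fintype V] (r : V), n₀ ≤ Fintype.card V → ∃ ℓ A : ℕ, 1 ≤ A ∧
      80 * A ≤ Fintype.card V ∧ (A : ℝ) ≤ C * (Fintype.card V : ℝ) ^ (2 / 3 : ℝ) ∧
      (Fintype.card V : ℝ) ^ (1 / 3 : ℝ) ≤ C * ℓ ∧
      c₀ / A ≤ ∑ s ∈ Finset.range (Fintype.card V), (Tn1 P ℓ A r s : ℝ) *
        ((Fintype.card (Bool × V) : ℝ) ^ (Fintype.card V - (s - 1)) /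
          ((Fintype.card (Bool × V) : ℝ) ^ (Fintype.card V) * (s ! : ℝ)) *
            Real.exp (-(s : ℝ))) :=
  kap_lower1_aux P (count1Prop_of hca P) (count2Prop P)

theorem cardAcy (V : Type) [Fintype V] [DecidableEq V] : CardAcy V :=
  fun D H u g huD huH hgu hin hH hreach hout al hal hW =>
    card_acy D H u g huD huH hgu hin hH hreach hout al hal hW

/-- The weight of the successful templates with an acyclic complement. -/
theorem kap_lower1 (P : Pattern) :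
    ∃ c₀ : ℝ, 0 < c₀ ∧ ∃ C : ℝ, 0 < C ∧ ∃ n₀ : ℕ,
    ∀ (V : Type) [Fintype V] (r : V), n₀ ≤ Fintype.card V → ∃ ℓ A : ℕ, 1 ≤ A ∧
      80 * A ≤ Fintype.card V ∧ (A : ℝ) ≤ C * (Fintype.card V : ℝ) ^ (2 / 3 : ℝ) ∧
      (Fintype.card V : ℝ) ^ (1 / 3 : ℝ) ≤ C * ℓ ∧
      c₀ / A ≤ ∑ s ∈ Finset.range (Fintype.card V), (Tn1 P ℓ A r s : ℝ) *
        ((Fintype.card (Bool × V) : ℝ) ^ (Fintype.card V - (s - 1)) /
          ((Fintype.card (Bool × V) : ℝ) ^ (Fintype.card V) * (s ! : ℝ)) *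
            Real.exp (-(s : ℝ))) :=
  kap_lower1_of cardAcy P

end Pool.Agent.OC
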