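import Pool.Agent.OC2.Sc1
import Pool.Agent.OC2.Defs2
import Pool.Agent.OC2.Low1
import Pool.Agent.ZO.ExLaw
import Pool.Agent.OC.Main

/-!
# The zero-one law with one missing 2-cell: the exponential bound (stage 2, S8)
-/

set_option autoImplicit false

open scoped BigOperators Nat

namespace Pool.Agent.OC

open Pool.Agent.WT.Trees (PF)
open Pool.Agent.FoxAsph Pool.Agent.WT Pool.Agent.RelGap Pool.Agent.ZO Pool.Agent.GX

/-- the lower bound of the weight of the successful templates -/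
def KapLow (P : Pattern) : Prop := ∃ c₀ : ℝ, 0 < c₀ ∧ ∃ C : ℝ, 0 < C ∧ ∃ n₀ : ℕ,
    ∀ (V : Type) [Fintype V] (r : V), n₀ ≤ Fintype.card V → ∃ ℓ A : ℕ, 1 ≤ A ∧
      80 * A ≤ Fintype.card V ∧ (A : ℝ) ≤ C * (Fintype.card V : ℝ) ^ (2 / 3 : ℝ) ∧
      (Fintype.card V : ℝ) ^ (1 / 3 : ℝ) ≤ C * ℓ ∧
      c₀ / A ≤ ∑ s ∈ Finset.range (Fintype.card V), (Tn1 P ℓ A r s : ℝ) *
        ((Fintype.card (Bool × V) : ℝ) ^ (Fintype.card V - (s - 1)) /
          ((Fintype.card (Bool × V) : ℝ) ^ (Fintype.card V) * (s ! : ℝ)) *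
            Real.exp (-(s : ℝ)))

/-- every success gives many realisations below it -/
def Many1 (P : Pattern) : Prop := ∀ (V : Type) [Fintype V] (ℓ A : ℕ) (r : V) (p : V → V) (u : V)
    (d : V → Bool × V), p ∈ PF r → u ≠ r → Sc1 P ℓ A p u d →
    ∃ U : Finset V, U.card = ℓ ∧ (∀ x ∈ U, x ∈ below p u ∧ x ≠ u) ∧
      ∀ x ∈ U, RealAt1 P p r x (fun y => (d y).1) (fun y => (d y).2)

/-- for every vertex `v` there are many realisations whose branch does not contain `v` -/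
def Rich (P : Pattern) (C : ℝ) {V : Type} [Fintype V] (p : V → V) (r : V) (o : V → Bool)
    (l : V → V) : Prop :=
  ∀ v : V, ∃ U : Finset V, (∀ u ∈ U, RealAt1 P p r u o l ∧ v ∉ below p u) ∧
    (Fintype.card V : ℝ) ^ (2 / 3 : ℝ) / C ≤ (U.card : ℝ)

/-- many successes give many realisations -/
theorem rich_of_cnt {P : Pattern} (hM : Many1 P) {V : Type} [Fintype V] [DecidableEq V] {ℓ A m : ℕ}
    {r : V} {p : V → V} (hp : p ∈ PF r) {d : V → Bool × V}
    (hm : m < cnt (Finset.univ.erase r) (fun u => Sc1 P ℓ A p u d)) (v : V) :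
    ∃ U : Finset V, (∀ u ∈ U, RealAt1 P p r u (fun y => (d y).1) (fun y => (d y).2) ∧
      v ∉ below p u) ∧ m * ℓ ≤ U.card := by
  have hdec1 : DecidablePred fun u => Sc1 P ℓ A p u d := Classical.decPred _
  have hdec2 : DecidablePred fun u => v ∉ below p u := Classical.decPred _
  set S : Finset V := (Finset.univ.erase r).filter fun u => Sc1 P ℓ A p u d with hS
  have hcc : cnt (Finset.univ.erase r) (fun u => Sc1 P ℓ A p u d) = S.card := by
    unfold cnt
    congr 1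
    ext x
    simp [hS]
  rw [hcc] at hm
  have hSmem : ∀ u ∈ S, u ≠ r ∧ Sc1 P ℓ A p u d := by
    intro u hu
    rw [hS, Finset.mem_filter, Finset.mem_erase] at hu
    exact ⟨hu.1.1, hu.2⟩
  have hdis : ∀ u ∈ S, ∀ u' ∈ S, u ≠ u' → Disjoint (below p u) (below p u') :=
    fun u hu u' hu' hne => (hSmem u hu).2.sc.disj (acyc_of_PF hp) (hSmem u' hu').2.sc hne
  set S' : Finset V := S.filter fun u => v ∉ below p u with hS'
  have h1 : (S.filter fun u => ¬ v ∉ below p u).card ≤ 1 := by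
    rw [Finset.card_le_one]
    intro x hx y hy
    rw [Finset.mem_filter, not_not] at hx hy
    by_contra hne
    exact Set.disjoint_left.1 (hdis x hx.1 y hy.1 hne) hx.2 hy.2
  have h2 := Finset.card_filter_add_card_filter_not (s := S) (p := fun u => v ∉ below p u)
  have h3 : m ≤ S'.card := by
    rw [← hS'] at h2
    omega
  have hf : ∀ u : V, ∃ U : Finset V, u ∈ S → U.card = ℓ ∧ (∀ x ∈ U, x ∈ below p u ∧ x ≠ u) ∧
      ∀ x ∈ U, RealAt1 P p r x (fun y => (d y).1) (fun y => (d y).2) := by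
    intro u
    by_cases hu : u ∈ S
    · obtain ⟨U, hU⟩ := hM V ℓ A r p u d hp (hSmem u hu).1 (hSmem u hu).2
      exact ⟨U, fun _ => hU⟩
    · exact ⟨∅, fun h => absurd h hu⟩
  choose f hf using hf
  have hS'S : ∀ u ∈ S', u ∈ S := fun u hu => (Finset.mem_filter.1 hu).1
  refine ⟨S'.biUnion f, ?_, ?_⟩
  · intro x hx
    obtain ⟨u, hu, hxu⟩ := Finset.mem_biUnion.1 hx
    have hu' := hf u (hS'S u hu)
    refine ⟨hu'.2.2 x hxu, fun hv => ?_⟩
    exact (Finset.mem_filter.1 hu).2 (below_trans hv (hu'.2.1 x hxu).1)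
  · rw [Finset.card_biUnion]
    · rw [Finset.sum_congr rfl fun u hu => (hf u (hS'S u hu)).1, Finset.sum_const, smul_eq_mul]
      exact Nat.mul_le_mul_right _ h3
    · intro x hx y hy hne
      change Disjoint (f x) (f y)
      rw [Finset.disjoint_left]
      intro z hz hz'
      exact Set.disjoint_left.1 (hdis x (hS'S x hx) y (hS'S y hy) hne)
        ((hf x (hS'S x hx)).2.1 z hz).1 ((hf y (hS'S y hy)).2.1 z hz').1

theorem wUse1 (P : Pattern) (V : Type) [Fintype V] [DecidableEq V] (ℓ A : ℕ) (r : V) (θ : ℝ)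
    (hA : 1 ≤ A) (hAn : 20 * A ≤ Fintype.card V) (hθ0 : 0 ≤ θ)
    (hθ : 42 * θ * ((20 * A : ℕ) : ℝ) ≤ 1)
    (hsum : θ ≤ (1 / 2) * ∑ s ∈ Finset.range (Fintype.card V), (Tn1 P ℓ A r s : ℝ) *
        ((Fintype.card (Bool × V) : ℝ) ^ (Fintype.card V - (s - 1)) /
          ((Fintype.card (Bool × V) : ℝ) ^ (Fintype.card V) * (s ! : ℝ)) *
            Real.exp (-(s : ℝ)))) (m : ℕ) :
    ({ω : (V → V) × (V → Bool × V) | ω.1 ∈ TBs (Finset.univ : Finset V) r ∧
        cnt (Finset.univ.erase r) (fun u => Sc1 P ℓ A ω.1 u ω.2) ≤ m}.ncard : ℝ) ≤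
    2 ^ m * (Real.exp 1 * (Fintype.card (Bool × V) : ℝ) ^ (Fintype.card V) *
      ((Fintype.card V - 1)! : ℝ) * (((1 + θ) / Real.exp 1) ^ (Fintype.card V - 1))⁻¹) := by
  refine (cnt_le_sum1 P ℓ A r m).trans ?_
  apply mul_le_mul_of_nonneg_left _ (by positivity : (0 : ℝ) ≤ 2 ^ m)
  set n := Fintype.card V with hn
  set c := Fintype.card (Bool × V) with hc
  have hc0 : 0 < c := Fintype.card_pos_iff.2 ⟨(false, r)⟩
  have hc' : (0 : ℝ) < c := by exact_mod_cast hc0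
  have hM : (Fintype.card (V → Bool × V) : ℝ) = (c : ℝ) ^ n := by
    rw [Fintype.card_fun]
    push_cast
    rfl
  have hne : Nonempty (Bool × V) := ⟨(false, r)⟩
  have hkey : θ ≤ ∑ j ∈ Finset.range (20 * A), ((1 - 1 / 2 : ℝ) *
      num (NS (fun (g : V → V) (u : V) (d : V → Bool × V) => Sc1 P ℓ A g u d)) (j + 1) /
      ((Fintype.card (V → Bool × V) : ℝ) * (Nat.factorial j : ℝ))) *
        Real.exp (-1) ^ (j + 1) := by
    refine hsum.trans ?_
    set X : ℕ → ℝ := fun s => (Tn1 P ℓ A r s : ℝ) * ((c : ℝ) ^ (n - (s - 1)) /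
      ((c : ℝ) ^ n * (s ! : ℝ)) * Real.exp (-(s : ℝ))) with hX
    have hX0 : ∀ s, ¬ (16 * A ≤ s ∧ s < 20 * A) → X s = 0 := by
      intro s hs
      have : Tn1 P ℓ A r s = 0 := by
        by_contra h
        exact hs (Tn1_size P ℓ A r s h)
      rw [hX]
      simp only
      rw [this]
      simp
    have e1 : ∑ s ∈ Finset.range n, X s = ∑ s ∈ Finset.range (20 * A), X s := by
      symm
      refine Finset.sum_subset (fun s hs => ?_) fun s _ hs => ?_
      · rw [Finset.mem_range] at hs ⊢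
        omega
      · rw [Finset.mem_range] at hs
        exact hX0 s (by omega)
    have e2 : ∑ s ∈ Finset.range (20 * A), X s = ∑ j ∈ Finset.range (20 * A), X (j + 1) := by
      have h1 := Finset.sum_range_succ X (20 * A)
      have h2 := Finset.sum_range_succ' X (20 * A)
      have h3 : X (20 * A) = 0 := hX0 _ (by omega)
      have h4 : X 0 = 0 := hX0 _ (by omega)
      linarith
    rw [e1, e2, Finset.mul_sum]
    refine Finset.sum_le_sum fun j hj => ?_
    rw [Finset.mem_range] at hj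
    have hnum := num_nonneg (F := NS (fun (g : V → V) (u : V) (d : V → Bool × V) =>
      Sc1 P ℓ A g u d)) (fun B a => by
        unfold NS
        exact Finset.sum_nonneg fun _ _ => Nat.cast_nonneg _) (j + 1)
    set ν := num (NS (fun (g : V → V) (u : V) (d : V → Bool × V) => Sc1 P ℓ A g u d)) (j + 1)
      with hν
    have hexp : Real.exp (-1) ^ (j + 1) = Real.exp (-(((j + 1 : ℕ) : ℕ) : ℝ)) := by
      rw [← Real.exp_nat_mul]
      congr 1
      ring
    rw [hexp, hM]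
    by_cases hT : 16 * A ≤ j + 1 ∧ j + 1 < 20 * A
    · have hcard : j + 1 ≤ ((Finset.univ : Finset V).erase r).card := by
        rw [Finset.card_erase_of_mem (Finset.mem_univ r), Finset.card_univ]
        omega
      obtain ⟨D, hD, hDc⟩ := Finset.exists_subset_card_eq hcard
      have hr : r ∉ D := fun h => (Finset.mem_erase.1 (hD h)).1 rfl
      have h1 := Tn1_le_num P ℓ A D (fiber_eq1 D hr)
      rw [hDc, ← hν, ← hc, ← hn] at h1
      rw [hX]
      simp only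
      have hf : ((j + 1)! : ℝ) = ((j + 1 : ℕ) : ℝ) * (j ! : ℝ) := by
        rw [Nat.factorial_succ]
        push_cast
        ring
      have hj0 : (0 : ℝ) < ((j + 1 : ℕ) : ℝ) := by positivity
      have hjf : (0 : ℝ) < (j ! : ℝ) := by exact_mod_cast Nat.factorial_pos _
      have hE := Real.exp_pos (-(((j + 1 : ℕ) : ℕ) : ℝ))
      rw [hf]
      calc 1 / 2 * ((Tn1 P ℓ A r (j + 1) : ℝ) * ((c : ℝ) ^ (n - (j + 1 - 1)) /
            ((c : ℝ) ^ n * (((j + 1 : ℕ) : ℝ) * (j ! : ℝ))) *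
              Real.exp (-(((j + 1 : ℕ) : ℕ) : ℝ))))
          = ((Tn1 P ℓ A r (j + 1) : ℝ) * (c : ℝ) ^ (n - (j + 1 - 1))) *
              (1 / 2 / ((c : ℝ) ^ n * (((j + 1 : ℕ) : ℝ) * (j ! : ℝ))) *
              Real.exp (-(((j + 1 : ℕ) : ℕ) : ℝ))) := by ring
        _ ≤ (((j + 1 : ℕ) : ℝ) * ν) * (1 / 2 / ((c : ℝ) ^ n * (((j + 1 : ℕ) : ℝ) * (j ! : ℝ))) *
              Real.exp (-(((j + 1 : ℕ) : ℕ) : ℝ))) :=
            mul_le_mul_of_nonneg_right h1 (by positivity)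
        _ = _ := by
            field_simp
            ring
    · rw [hX0 _ hT, mul_zero]
      positivity
  have h := W_bound (sc1_loc P ℓ A) (sc1_eqv P ℓ A) (sc1_disj P ℓ A) (t := 1 / 2)
    (by norm_num) (by norm_num) (20 * A) hθ0 hθ hkey r
  rw [hM, ← hn] at h
  refine h.trans (le_of_eq ?_)
  rw [Real.exp_neg, ← div_eq_mul_inv]
  rw [div_eq_mul_inv (Real.exp 1 * ((c : ℝ) ^ n * ((n - 1)! : ℝ)))]
  ring

/-- the number of decorated trees which are not rich -/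
theorem few_exp1 (P : Pattern) (hK : KapLow P) (hM : Many1 P) :
    ∃ C : ℝ, 0 < C ∧ ∀ (V : Type) [Fintype V] (r : V),
    ({ω : (V → V) × (V → Bool × V) | ω.1 ∈ PF r ∧
        ¬ Rich P C ω.1 r (fun x => (ω.2 x).1) (fun x => (ω.2 x).2)}.ncard : ℝ) ≤
      C * Real.exp (-((Fintype.card V : ℝ) ^ (1 / 3 : ℝ) / C)) *
        K0 (Fintype.card V) (Fintype.card (Bool × V)) := by
  obtain ⟨c₀, hc₀, C₁, hC₁, n₀, hk⟩ := hK
  set c₁ : ℝ := min (1 / 840) (c₀ / 2) with hc₁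
  have hc₁0 : 0 < c₁ := lt_min (by norm_num) (by positivity)
  set γ : ℝ := c₁ / (4 * C₁) with hγ
  have hγ0 : 0 < γ := by positivity
  have e1 := Real.exp_pos 1
  set C : ℝ := Real.exp 1 * (720 * (2 / γ) ^ 6) + 4 / γ + 8 * C₁ / γ +
    3 * ((n₀ : ℝ) + 1 + (8 / γ) ^ 3) with hC
  have hC0 : 0 < C := by positivity
  have hCa : Real.exp 1 * (720 * (2 / γ) ^ 6) ≤ C := by
    have h7 : 0 < 4 / γ := by positivity
    have h8 : 0 < 8 * C₁ / γ := by positivity
    have h9 : 0 < 3 * ((n₀ : ℝ) + 1 + (8 / γ) ^ 3) := by positivity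
    rw [hC]
    linarith
  have hCb : 4 / γ ≤ C := by
    have h7 : 0 < Real.exp 1 * (720 * (2 / γ) ^ 6) := by positivity
    have h8 : 0 < 8 * C₁ / γ := by positivity
    have h9 : 0 < 3 * ((n₀ : ℝ) + 1 + (8 / γ) ^ 3) := by positivity
    rw [hC]
    linarith
  have hCc : 8 * C₁ / γ ≤ C := by
    have h7 : 0 < Real.exp 1 * (720 * (2 / γ) ^ 6) := by positivity
    have h8 : 0 < 4 / γ := by positivity
    have h9 : 0 < 3 * ((n₀ : ℝ) + 1 + (8 / γ) ^ 3) := by positivity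
    rw [hC]
    linarith
  have hCd : 3 * ((n₀ : ℝ) + 1 + (8 / γ) ^ 3) ≤ C := by
    have h7 : 0 < Real.exp 1 * (720 * (2 / γ) ^ 6) := by positivity
    have h8 : 0 < 4 / γ := by positivity
    have h9 : 0 < 8 * C₁ / γ := by positivity
    rw [hC]
    linarith
  refine ⟨C, hC0, ?_⟩
  intro V _ r
  classical
  set n := Fintype.card V with hndef
  set c := Fintype.card (Bool × V) with hcdef
  have hn0 : 0 < n := Fintype.card_pos_iff.2 ⟨r⟩
  have hc0 : 0 < c := Fintype.card_pos_iff.2 ⟨(false, r)⟩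
  have hn' : (0 : ℝ) < n := by exact_mod_cast hn0
  have hn1 : (1 : ℝ) ≤ n := by exact_mod_cast hn0
  have hc' : (0 : ℝ) < c := by exact_mod_cast hc0
  have hKK : 0 < K0 n c := by unfold K0; positivity
  rcases lt_or_ge (n : ℝ) ((n₀ : ℝ) + 1 + (8 / γ) ^ 3) with hsm | hbig
  · have h1 : ({ω : (V → V) × (V → Bool × V) | ω.1 ∈ PF r ∧
        ¬ Rich P C ω.1 r (fun x => (ω.2 x).1) (fun x => (ω.2 x).2)}.ncard : ℝ) ≤ K0 n c := by
      rw [hndef, hcdef, ← card_Om (C := Bool × V) r]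
      rw [← Set.ncard_coe_finset]
      have hsub : {ω : (V → V) × (V → Bool × V) | ω.1 ∈ PF r ∧
        ¬ Rich P C ω.1 r (fun x => (ω.2 x).1) (fun x => (ω.2 x).2)} ⊆
          (Om (Bool × V) r : Set ((V → V) × (V → Bool × V))) :=
        fun ω hω => Finset.mem_coe.2 (mem_Om.2 hω.1)
      exact_mod_cast Set.ncard_le_ncard hsub (Set.toFinite _)
    refine h1.trans ?_
    have h2 : 1 ≤ C * Real.exp (-((n : ℝ) ^ (1 / 3 : ℝ) / C)) := by
      apply small_le C n hn0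
      linarith
    nlinarith
  · have h80 : 0 < (8 / γ) ^ 3 := by positivity
    have hn₀ : n₀ ≤ n := by
      have : (n₀ : ℝ) ≤ n := by linarith
      exact_mod_cast this
    obtain ⟨ℓ, A, hA, h80A, hAC, hℓ, hsum⟩ := hk V r hn₀
    have hA0 : (0 : ℝ) < A := by exact_mod_cast hA
    set θ : ℝ := c₁ / A with hθ
    have hθ0 : 0 < θ := by positivity
    have hc1a : c₁ ≤ 1 / 840 := min_le_left _ _
    have hc1b : c₁ ≤ c₀ / 2 := min_le_right _ _
    have hθA : θ * A = c₁ := div_mul_cancel₀ _ hA0.ne'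
    have hA1 : (1 : ℝ) ≤ A := by exact_mod_cast hA
    have hθ1 : θ ≤ 1 := by nlinarith
    set y : ℝ := (n : ℝ) ^ (1 / 3 : ℝ) with hy
    have hy0 : 0 < y := Real.rpow_pos_of_pos hn' _
    have hy3 : y ^ 3 = n := by
      rw [hy, ← Real.rpow_natCast, ← Real.rpow_mul hn'.le]
      norm_num
    have hy2 : (n : ℝ) ^ (2 / 3 : ℝ) = y ^ 2 := by
      rw [hy, ← Real.rpow_natCast, ← Real.rpow_mul hn'.le]
      norm_num
    have hy23 : (n : ℝ) ^ (2 / 3 : ℝ) * y = n := by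
      rw [hy2, ← hy3]
      ring
    have hγy : 8 ≤ γ * y := by
      have h1 : (8 / γ) ^ 3 ≤ y ^ 3 := by
        rw [hy3]
        have : (0 : ℝ) ≤ n₀ := Nat.cast_nonneg _
        linarith
      have h2 : 8 / γ ≤ y := le_of_pow_le_pow_left₀ (by norm_num) hy0.le h1
      rw [div_le_iff₀ hγ0] at h2
      linarith
    set m : ℕ := ⌊γ * y / 4⌋₊ with hm
    have hm1 : (m : ℝ) ≤ γ * y / 4 := Nat.floor_le (by positivity)
    have hm2 : γ * y / 8 ≤ m := by
      have h1 := Nat.lt_floor_add_one (γ * y / 4)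
      rw [← hm] at h1
      linarith
    have h1 := wUse1 P V ℓ A r θ hA (by omega) hθ0.le (by
      push_cast
      calc 42 * θ * (20 * (A : ℝ)) = 840 * (θ * A) := by ring
        _ ≤ 1 := by rw [hθA]; linarith) (by
      rw [← hndef, ← hcdef] at hsum ⊢
      have h2 : θ ≤ 1 / 2 * (c₀ / A) := by
        rw [hθ, ← mul_div_assoc]
        apply div_le_div_of_nonneg_right _ hA0.le
        linarith
      refine h2.trans ?_
      exact mul_le_mul_of_nonneg_left hsum (by norm_num)) m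
    rw [← hndef, ← hcdef] at h1
    -- the trees which are not rich have few successes
    have hsub : {ω : (V → V) × (V → Bool × V) | ω.1 ∈ PF r ∧
        ¬ Rich P C ω.1 r (fun x => (ω.2 x).1) (fun x => (ω.2 x).2)} ⊆
        {ω : (V → V) × (V → Bool × V) | ω.1 ∈ TBs (Finset.univ : Finset V) r ∧
        cnt (Finset.univ.erase r) (fun u => Sc1 P ℓ A ω.1 u ω.2) ≤ m} := by
      rintro ω ⟨hp, hnr⟩
      refine ⟨mem_PF_iff.1 hp, ?_⟩
      by_contra hcon
      rw [not_le] at hcon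
      apply hnr
      intro v
      obtain ⟨U, hU, hUc⟩ := rich_of_cnt hM hp hcon v
      refine ⟨U, hU, ?_⟩
      have h2 : (m : ℝ) * ℓ ≤ U.card := by exact_mod_cast hUc
      refine le_trans ?_ h2
      rw [← hndef, hy2]
      have h3 : y / C₁ ≤ ℓ := by
        rw [div_le_iff₀ hC₁]
        linarith
      have h4 : γ * y / 8 * (y / C₁) ≤ m * ℓ := by
        apply mul_le_mul hm2 h3 (by positivity) (Nat.cast_nonneg _)
      refine le_trans ?_ h4
      have h5 : γ * y / 8 * (y / C₁) = y ^ 2 / (8 * C₁ / γ) := by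
        field_simp
      rw [h5]
      exact div_le_div_of_nonneg_left (by positivity) (by positivity) hCc
    have h2 := Set.ncard_le_ncard hsub (Set.toFinite _)
    have h3 : ({ω : (V → V) × (V → Bool × V) | ω.1 ∈ PF r ∧
        ¬ Rich P C ω.1 r (fun x => (ω.2 x).1) (fun x => (ω.2 x).2)}.ncard : ℝ) ≤ _ :=
      le_trans (by exact_mod_cast h2) h1
    refine h3.trans ?_
    have hn2 : 2 ≤ n := by omega
    have h4 := tail_le n c hn2 θ hθ0.le hθ1
    have h5 : γ * y ≤ θ * n / 4 := by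
      rw [hγ, hθ]
      have h4 : (A : ℝ) * y ≤ C₁ * n := by
        calc (A : ℝ) * y ≤ C₁ * (n : ℝ) ^ (2 / 3 : ℝ) * y :=
              mul_le_mul_of_nonneg_right hAC hy0.le
          _ = C₁ * ((n : ℝ) ^ (2 / 3 : ℝ) * y) := by ring
          _ = C₁ * n := by rw [hy23]
      have h5 : c₁ / (4 * C₁) * y = c₁ * (A * y) / (4 * C₁ * A) := by
        field_simp
      have h6 : c₁ / A * n / 4 = c₁ * (C₁ * n) / (4 * C₁ * A) := by
        field_simp
      rw [h5, h6]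
      apply div_le_div_of_nonneg_right _ (by positivity)
      exact mul_le_mul_of_nonneg_left h4 hc₁0.le
    have h6 : (n : ℝ) ^ 2 * Real.exp (-(θ * n / 4)) ≤
        720 * (2 / γ) ^ 6 * Real.exp (-(γ / 2 * y)) := by
      refine le_trans ?_ (poly_le γ hγ0 n hn0)
      apply mul_le_mul_of_nonneg_left _ (by positivity)
      apply Real.exp_le_exp.2
      linarith
    have h7 : (2 : ℝ) ^ m ≤ Real.exp (γ * y / 4) := by
      have h8 : (2 : ℝ) ≤ Real.exp 1 := by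
        have := Real.add_one_le_exp (1 : ℝ)
        linarith
      calc (2 : ℝ) ^ m ≤ (Real.exp 1) ^ m := pow_le_pow_left₀ (by norm_num) h8 m
        _ = Real.exp m := by rw [← Real.exp_nat_mul, mul_one]
        _ ≤ Real.exp (γ * y / 4) := Real.exp_le_exp.2 hm1
    have h8 : Real.exp (γ * y / 4) * Real.exp (-(γ / 2 * y)) ≤ Real.exp (-(y / C)) := by
      rw [← Real.exp_add]
      apply Real.exp_le_exp.2
      have h9 : y / C ≤ y / (4 / γ) := div_le_div_of_nonneg_left hy0.le (by positivity) hCb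
      have h10 : y / (4 / γ) = γ * y / 4 := by field_simp
      linarith
    calc 2 ^ m * (Real.exp 1 * (c : ℝ) ^ n * ((n - 1)! : ℝ) *
            (((1 + θ) / Real.exp 1) ^ (n - 1))⁻¹)
        ≤ 2 ^ m * (Real.exp 1 * ((n : ℝ) ^ 2 * Real.exp (-(θ * n / 4))) * K0 n c) :=
          mul_le_mul_of_nonneg_left h4 (by positivity)
      _ ≤ Real.exp (γ * y / 4) *
            (Real.exp 1 * (720 * (2 / γ) ^ 6 * Real.exp (-(γ / 2 * y))) * K0 n c) := by
          gcongr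
      _ = Real.exp 1 * (720 * (2 / γ) ^ 6) *
            (Real.exp (γ * y / 4) * Real.exp (-(γ / 2 * y))) * K0 n c := by ring
      _ ≤ C * Real.exp (-(y / C)) * K0 n c := by gcongr

/-- The number of triples `(p, o, l)` that are not rich, where `p` is the parent function of a tree
on `V` with root `r`. -/
theorem main_exp1 (P : Pattern) (hK : KapLow P) (hM : Many1 P) :
    ∃ C : ℝ, 0 < C ∧ ∀ (V : Type) [Fintype V] (r : V),
    ({q : (V → V) × (V → Bool) × (V → V) | q.1 ∈ PF r ∧ ¬ Rich P C q.1 r q.2.1 q.2.2}.ncard : ℝ) ≤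
      C * Real.exp (-((Fintype.card V : ℝ) ^ (1 / 3 : ℝ) / C)) *
        ((Fintype.card V : ℝ) ^ (Fintype.card V - 2) * 2 ^ Fintype.card V *
          (Fintype.card V : ℝ) ^ Fintype.card V) := by
  obtain ⟨C, hC, h⟩ := few_exp1 P hK hM
  refine ⟨C, hC, fun V _ r => ?_⟩
  classical
  have h1 := h V r
  have h2 : K0 (Fintype.card V) (Fintype.card (Bool × V)) =
      (Fintype.card V : ℝ) ^ (Fintype.card V - 2) * 2 ^ Fintype.card V *
          (Fintype.card V : ℝ) ^ Fintype.card V := by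
    unfold K0
    rw [Fintype.card_prod, Fintype.card_bool]
    push_cast
    rw [mul_pow, mul_assoc]
  rw [← h2]
  refine le_trans ?_ h1
  have h3 : {q : (V → V) × (V → Bool) × (V → V) |
      q.1 ∈ PF r ∧ ¬ Rich P C q.1 r q.2.1 q.2.2}.ncard ≤
      {ω : (V → V) × (V → Bool × V) | ω.1 ∈ PF r ∧
        ¬ Rich P C ω.1 r (fun x => (ω.2 x).1) (fun x => (ω.2 x).2)}.ncard := by
    refine Set.ncard_le_ncard_of_injOn (fun q => (q.1, fun x => (q.2.1 x, q.2.2 x))) ?_ ?_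
      (Set.toFinite _)
    · rintro ⟨p, o, l⟩ hq
      exact hq
    · rintro ⟨p, o, l⟩ _ ⟨p', o', l'⟩ _ he
      simp only [Prod.mk.injEq] at he
      obtain ⟨rfl, he⟩ := he
      have e1 : o = o' := funext fun x => congrArg Prod.fst (congrFun he x)
      have e2 : l = l' := funext fun x => congrArg Prod.snd (congrFun he x)
      rw [e1, e2]
  exact_mod_cast h3

/-- counting labelled oriented trees by descriptions -/
theorem count_le1 (n : ℕ) (r : Fin n) (Bad : LOT (Fin n) → Prop)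
    (R : (Fin n → Fin n) → (Fin n → Bool) → (Fin n → Fin n) → Prop)
    (hR : ∀ (Γ : LOT (Fin n)) (p : Fin n → Fin n) (o : Fin n → Bool) (l : Fin n → Fin n),
      Desc Γ p r o l → R p o l → ¬ Bad Γ) :
    {Γ : LOT (Fin n) | Bad Γ}.ncard * (2 * n) ≤
      {x : (Fin n → Fin n) × (Fin n → Bool) × (Fin n → Fin n) |
        x.1 ∈ PF r ∧ ¬ R x.1 x.2.1 x.2.2}.ncard := by
  classical
  have hfin : Finite (LOT (Fin n)) := by
    refine Nat.finite_of_card_ne_zero ?_
    rw [card_lot, card_treeOn n r]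
    have hn : 0 < n := r.pos
    positivity
  choose p o l hD hb hy using fun (x : LOT (Fin n) × Bool × Fin n) =>
    exists_desc x.1 r x.2.1 x.2.2
  have h1 : ({Γ : LOT (Fin n) | Bad Γ} ×ˢ (Set.univ : Set (Bool × Fin n))).ncard =
      {Γ : LOT (Fin n) | Bad Γ}.ncard * (2 * n) := by
    rw [Set.ncard_prod, Set.ncard_univ, Nat.card_prod, Nat.card_eq_fintype_card,
      Nat.card_eq_fintype_card, Fintype.card_bool, Fintype.card_fin]
  rw [← h1]
  refine Set.ncard_le_ncard_of_injOn (fun x => (p x, o x, l x)) ?_ ?_ (Set.toFinite _)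
  · rintro ⟨Γ, c⟩ ⟨hv, _⟩
    exact ⟨(hD (Γ, c)).mem, fun ht => hR Γ _ _ _ (hD (Γ, c)) ht hv⟩
  · rintro x _ x' _ hxx
    have h2 : p x = p x' ∧ o x = o x' ∧ l x = l x' := by
      simp only [Prod.mk.injEq] at hxx
      exact hxx
    obtain ⟨hp', ho', hl'⟩ := h2
    have h3 := hD x
    rw [hp', ho', hl'] at h3
    refine Prod.ext (h3.unique (hD x')) (Prod.ext ?_ ?_)
    · rw [← hb x, ← hb x', ho']
    · rw [← hy x, ← hy x', hl']

/-- the pattern gives many bad edges -/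
def GivesBad (P : Pattern) : Prop := ∀ (V : Type) [Fintype V] (Γ : LOT V) (p : V → V) (r : V)
    (o : V → Bool) (l : V → V) (v : V) (U : Finset V), Desc Γ p r o l →
    (∀ u ∈ U, RealAt1 P p r u o l ∧ v ∉ below p u) →
    U.card ≤ {e | ¬ CellAspherical Γ v e}.ncard

/-- the proportion of the labelled oriented trees -/
theorem frac_exp1 (P : Pattern) (hK : KapLow P) (hM : Many1 P) (hP : GivesBad P) :
    ∃ C : ℝ, 0 < C ∧ ∀ n : ℕ, 0 < n →
      ({Γ : LOT (Fin n) | ¬ ManyBad Γ ((n : ℝ) ^ (2 / 3 : ℝ) / C)}.ncard : ℝ) ≤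
      C * Real.exp (-((n : ℝ) ^ (1 / 3 : ℝ) / C)) * Nat.card (LOT (Fin n)) := by
  obtain ⟨C, hC0, hC⟩ := main_exp1 P hK hM
  refine ⟨C, hC0, fun n hn => ?_⟩
  have h1 := count_le1 n ⟨0, hn⟩ (fun Γ => ¬ ManyBad Γ ((n : ℝ) ^ (2 / 3 : ℝ) / C))
    (fun p o l => Rich P C p ⟨0, hn⟩ o l) (by
      intro Γ p o l hD hR
      rw [not_not]
      intro v
      obtain ⟨U, hU, hUc⟩ := hR v
      rw [Fintype.card_fin] at hUc
      refine hUc.trans ?_
      exact_mod_cast hP (Fin n) Γ p ⟨0, hn⟩ o l v U hD hU)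
  have h2 := hC (Fin n) ⟨0, hn⟩
  rw [Fintype.card_fin] at h2
  set ε : ℝ := C * Real.exp (-((n : ℝ) ^ (1 / 3 : ℝ) / C)) with hε
  set BB : ℕ := {Γ : LOT (Fin n) | ¬ ManyBad Γ ((n : ℝ) ^ (2 / 3 : ℝ) / C)}.ncard with hBB
  have h3 : ((BB * (2 * n) : ℕ) : ℝ) ≤
      ε * ((n : ℝ) ^ (n - 2) * 2 ^ n * (n : ℝ) ^ n) :=
    le_trans (by exact_mod_cast h1) h2
  rw [card_lot, card_treeOn n ⟨0, hn⟩]
  push_cast at h3 ⊢
  have hn0 : (0 : ℝ) < n := by exact_mod_cast hn
  have h4 : (n : ℝ) ^ (n - 2) * 2 ^ n * (n : ℝ) ^ n =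
      ((n : ℝ) ^ (n - 2) * (2 ^ (n - 1) * (n : ℝ) ^ (n - 1))) * (2 * n) := by
    obtain ⟨m, rfl⟩ : ∃ m, n = m + 1 := ⟨n - 1, by omega⟩
    have h5 : m + 1 - 1 = m := by omega
    rw [h5, pow_succ 2 m, pow_succ ((m + 1 : ℕ) : ℝ) m]
    ring
  rw [h4] at h3
  have h2n : (0 : ℝ) < 2 * n := by positivity
  refine le_of_mul_le_mul_right ?_ h2n
  calc (BB : ℝ) * (2 * n)
      ≤ _ := h3
    _ = _ := by ring

/-- the reduced labelled oriented trees -/
theorem reduced_exp1 (Bad : (n : ℕ) → LOT (Fin n) → Prop) (C : ℝ) (hC0 : 0 < C)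
    (hC : ∀ n : ℕ, 0 < n → ({Γ : LOT (Fin n) | Bad n Γ}.ncard : ℝ) ≤
        C * Real.exp (-((n : ℝ) ^ (1 / 3 : ℝ) / C)) * Nat.card (LOT (Fin n))) :
    ∃ C' : ℝ, 0 < C' ∧ C ≤ C' ∧ ∀ n : ℕ, 0 < n →
      ({Γ : LOT (Fin n) | Γ.Reduced ∧ Bad n Γ}.ncard : ℝ) ≤
        C' * Real.exp (-((n : ℝ) ^ (1 / 3 : ℝ) / C')) * {Γ : LOT (Fin n) | Γ.Reduced}.ncard := by
  obtain ⟨K, hK, hKn⟩ := card_lot_le'
  set C' : ℝ := C * K * (6 * (2 * C) ^ 3) + 2 * C + 60 with hC'
  have hC'0 : 0 < C' := by positivity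
  refine ⟨C', hC'0, ?_, fun n hn => ?_⟩
  · have : 0 < C * K * (6 * (2 * C) ^ 3) := by positivity
    linarith
  have hn0 : (0 : ℝ) < n := by exact_mod_cast hn
  have hn1 : (1 : ℝ) ≤ n := by exact_mod_cast hn
  have hfin : Finite (LOT (Fin n)) := by
    refine Nat.finite_of_card_ne_zero ?_
    rw [card_lot, card_treeOn n ⟨0, hn⟩]
    positivity
  have hR : (0 : ℝ) ≤ {Γ : LOT (Fin n) | Γ.Reduced}.ncard := Nat.cast_nonneg _
  rcases Nat.lt_or_ge n 20 with hsm | hbig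
  · have h1 : ({Γ : LOT (Fin n) | Γ.Reduced ∧ Bad n Γ}.ncard : ℝ) ≤
        {Γ : LOT (Fin n) | Γ.Reduced}.ncard := by
      have hsub : {Γ : LOT (Fin n) | Γ.Reduced ∧ Bad n Γ} ⊆
          {Γ : LOT (Fin n) | Γ.Reduced} := fun Γ h => h.1
      exact_mod_cast Set.ncard_le_ncard hsub (Set.toFinite _)
    refine h1.trans ?_
    have h2 : 1 ≤ C' * Real.exp (-((n : ℝ) ^ (1 / 3 : ℝ) / C')) := by
      apply small_le C' n hn
      have h4 : (n : ℝ) ≤ 20 := by exact_mod_cast hsm.le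
      have h5 : 0 < C * K * (6 * (2 * C) ^ 3) := by positivity
      rw [hC']
      linarith
    nlinarith
  · have h1 : ({Γ : LOT (Fin n) | Γ.Reduced ∧ Bad n Γ}.ncard : ℝ) ≤
        {Γ : LOT (Fin n) | Bad n Γ}.ncard := by
      have hsub : {Γ : LOT (Fin n) | Γ.Reduced ∧ Bad n Γ} ⊆
          {Γ : LOT (Fin n) | Bad n Γ} := fun Γ h => h.2
      exact_mod_cast Set.ncard_le_ncard hsub (Set.toFinite _)
    refine h1.trans ((hC n hn).trans ?_)
    have h2 := hKn n hbig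
    set y : ℝ := (n : ℝ) ^ (1 / 3 : ℝ) with hy
    have hy0 : 0 < y := Real.rpow_pos_of_pos hn0 _
    have hy3 : y ^ 3 = n := by
      rw [hy, ← Real.rpow_natCast, ← Real.rpow_mul hn0.le]
      norm_num
    have h12 : (n : ℝ) ^ (1 / 12 : ℝ) ≤ y ^ 3 := by
      rw [hy3]
      conv_rhs => rw [← Real.rpow_one (n : ℝ)]
      exact Real.rpow_le_rpow_of_exponent_le hn1 (by norm_num)
    have h3 := Real.pow_div_factorial_le_exp (y / (2 * C)) (by positivity) 3
    have h4 : ((3 ! : ℕ) : ℝ) = 6 := by norm_num [Nat.factorial]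
    rw [h4, div_le_iff₀ (by norm_num)] at h3
    have h5 : y ^ 3 = (2 * C) ^ 3 * (y / (2 * C)) ^ 3 := by
      field_simp
    have h6 : Real.exp (-(y / C)) = Real.exp (-(y / (2 * C))) * Real.exp (-(y / (2 * C))) := by
      rw [← Real.exp_add]
      congr 1
      field_simp
      ring
    have h7 : Real.exp (y / (2 * C)) * Real.exp (-(y / (2 * C))) = 1 := by
      rw [← Real.exp_add]
      simp
    have h8 : y ^ 3 * Real.exp (-(y / C)) ≤ 6 * (2 * C) ^ 3 * Real.exp (-(y / (2 * C))) := by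
      rw [h5, h6]
      calc (2 * C) ^ 3 * (y / (2 * C)) ^ 3 *
            (Real.exp (-(y / (2 * C))) * Real.exp (-(y / (2 * C))))
          ≤ (2 * C) ^ 3 * (Real.exp (y / (2 * C)) * 6) *
            (Real.exp (-(y / (2 * C))) * Real.exp (-(y / (2 * C)))) := by gcongr
        _ = 6 * (2 * C) ^ 3 * (Real.exp (y / (2 * C)) * Real.exp (-(y / (2 * C)))) *
            Real.exp (-(y / (2 * C))) := by ring
        _ = _ := by rw [h7]; ring
    have h9 : Real.exp (-(y / (2 * C))) ≤ Real.exp (-(y / C')) := by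
      apply Real.exp_le_exp.2
      have h10 : 2 * C ≤ C' := by
        have : 0 < C * K * (6 * (2 * C) ^ 3) := by positivity
        linarith
      have h11 : y / C' ≤ y / (2 * C) := div_le_div_of_nonneg_left hy0.le (by positivity) h10
      linarith
    have h10 : C * K * (6 * (2 * C) ^ 3) ≤ C' := by
      rw [hC']
      linarith
    calc C * Real.exp (-(y / C)) * Nat.card (LOT (Fin n))
        ≤ C * Real.exp (-(y / C)) * (K * (n : ℝ) ^ (1 / 12 : ℝ) *
            {Γ : LOT (Fin n) | Γ.Reduced}.ncard) :=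
          mul_le_mul_of_nonneg_left h2 (by positivity)
      _ ≤ C * Real.exp (-(y / C)) * (K * y ^ 3 * {Γ : LOT (Fin n) | Γ.Reduced}.ncard) := by
          gcongr
      _ = C * K * (y ^ 3 * Real.exp (-(y / C))) * {Γ : LOT (Fin n) | Γ.Reduced}.ncard := by ring
      _ ≤ C * K * (6 * (2 * C) ^ 3 * Real.exp (-(y / (2 * C)))) *
            {Γ : LOT (Fin n) | Γ.Reduced}.ncard := by gcongr
      _ = C * K * (6 * (2 * C) ^ 3) * Real.exp (-(y / (2 * C))) *
            {Γ : LOT (Fin n) | Γ.Reduced}.ncard := by ring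
      _ ≤ C' * Real.exp (-(y / C')) * {Γ : LOT (Fin n) | Γ.Reduced}.ncard := by gcongr

theorem ManyBad.anti {V : Type} {Γ : LOT V} {m m' : ℝ} (h : ManyBad Γ m) (hm : m' ≤ m) :
    ManyBad Γ m' := fun v => hm.trans (h v)

/-- The zero-one law with one missing 2-cell. -/
theorem law1 (hP : (∃ (n : ℕ) (Γ : LOT (Fin n)), ¬ LotAspherical Γ) →
      ∃ P : Pattern, KapLow P ∧ Many1 P ∧ GivesBad P) :
    (∀ (X ι : Type) [Fintype X] [Fintype ι] (rel : ι → Word X), ACTrivial rel →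
      ∀ (U : Set X) (S : Finset ι) (h : ∀ i ∈ S, ∀ l ∈ rel i, l.1 ∈ U),
        Aspherical (SubPres rel U S h)) ∨
    ∃ C : ℝ, 0 < C ∧ ∀ n : ℕ, 0 < n →
      ({Γ : LOT (Fin n) | ¬ ManyBad Γ ((n : ℝ) ^ (2 / 3 : ℝ) / C)}.ncard : ℝ) ≤
        C * Real.exp (-((n : ℝ) ^ (1 / 3 : ℝ) / C)) * Nat.card (LOT (Fin n)) ∧
      ({Γ : LOT (Fin n) | Γ.Reduced ∧ ¬ ManyBad Γ ((n : ℝ) ^ (2 / 3 : ℝ) / C)}.ncard : ℝ) ≤
        C * Real.exp (-((n : ℝ) ^ (1 / 3 : ℝ) / C)) * {Γ : LOT (Fin n) | Γ.Reduced}.ncard := by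
  by_cases hX : ∃ (n : ℕ) (Γ : LOT (Fin n)), ¬ LotAspherical Γ
  · right
    obtain ⟨P, hK, hM, hG⟩ := hP hX
    obtain ⟨C, hC0, hC⟩ := frac_exp1 P hK hM hG
    obtain ⟨C', hC'0, hCC, hC'⟩ := reduced_exp1
      (fun n Γ => ¬ ManyBad Γ ((n : ℝ) ^ (2 / 3 : ℝ) / C)) C hC0 hC
    refine ⟨C', hC'0, fun n hn => ?_⟩
    have hfin : Finite (LOT (Fin n)) := by
      refine Nat.finite_of_card_ne_zero ?_
      rw [card_lot, card_treeOn n ⟨0, hn⟩]
      positivity
    have hle : (n : ℝ) ^ (2 / 3 : ℝ) / C' ≤ (n : ℝ) ^ (2 / 3 : ℝ) / C :=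
      div_le_div_of_nonneg_left (Real.rpow_nonneg (Nat.cast_nonneg n) _) hC0 hCC
    constructor
    · have h1 : ({Γ : LOT (Fin n) | ¬ ManyBad Γ ((n : ℝ) ^ (2 / 3 : ℝ) / C')}.ncard : ℝ) ≤
          {Γ : LOT (Fin n) | ¬ ManyBad Γ ((n : ℝ) ^ (2 / 3 : ℝ) / C)}.ncard := by
        have hsub : {Γ : LOT (Fin n) | ¬ ManyBad Γ ((n : ℝ) ^ (2 / 3 : ℝ) / C')} ⊆
            {Γ : LOT (Fin n) | ¬ ManyBad Γ ((n : ℝ) ^ (2 / 3 : ℝ) / C)} :=
          fun Γ h h' => h (h'.anti hle)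
        exact_mod_cast Set.ncard_le_ncard hsub (Set.toFinite _)
      refine h1.trans ((hC n hn).trans ?_)
      exact mul_le_mul_of_nonneg_right
        (exp_mono hC0 hCC (Real.rpow_nonneg (Nat.cast_nonneg n) _)) (Nat.cast_nonneg _)
    · have h1 : ({Γ : LOT (Fin n) | Γ.Reduced ∧
          ¬ ManyBad Γ ((n : ℝ) ^ (2 / 3 : ℝ) / C')}.ncard : ℝ) ≤
          {Γ : LOT (Fin n) | Γ.Reduced ∧ ¬ ManyBad Γ ((n : ℝ) ^ (2 / 3 : ℝ) / C)}.ncard := by
        have hsub : {Γ : LOT (Fin n) | Γ.Reduced ∧ ¬ ManyBad Γ ((n : ℝ) ^ (2 / 3 : ℝ) / C')} ⊆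
            {Γ : LOT (Fin n) | Γ.Reduced ∧ ¬ ManyBad Γ ((n : ℝ) ^ (2 / 3 : ℝ) / C)} :=
          fun Γ h => ⟨h.1, fun h' => h.2 (h'.anti hle)⟩
        exact_mod_cast Set.ncard_le_ncard hsub (Set.toFinite _)
      exact h1.trans (hC' n hn)
  · left
    refine partB.2 fun n Γ => ?_
    by_contra h
    exact hX ⟨n, Γ, h⟩

end Pool.Agent.OC
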