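import Pool.Agent.OC2.Pattern1

/-!
# A non-aspherical labelled oriented tree gives a pattern: the first step
-/

set_option autoImplicit false

open scoped BigOperators

namespace Pool.Agent.OC

open Pool.Agent.FoxAsph Pool.Agent.WT Pool.Agent.WT.Trees Pool.Agent.ZO Pool.Agent.GX

/-- A connected labelled oriented forest with an edge has a tour without cuts whose first vertex is
not the label of the first edge. -/
theorem exists_tour_first (F : LOF) (hconn : ∀ x y, F.Conn x y) (e : F.E) :
    ∃ T : Tour F, (∀ s < T.N, T.st (s + 1) ≠ none) ∧ 1 ≤ T.N ∧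
      ∃ (e : F.E) (b : Bool), T.st (0 + 1) = some (e, b) ∧ T.w 0 ≠ F.label e := by
  classical
  have hne : F.tail e ≠ F.head e := by
    obtain ⟨χ, h, _⟩ := F.forest e
    intro h2
    rw [h2] at h
    omega
  have key : ∃ T₁ : PT F, 1 ≤ T₁.N ∧ ∃ b : Bool, T₁.st (0 + 1) = some (e, b) ∧
      T₁.w 0 ≠ F.label e := by
    by_cases hl : F.label e = F.tail e
    · -- start at the head
      let T₀ : PT F := ⟨0, fun _ => F.head e, fun _ => none,
        fun s hs => absurd hs (Nat.not_lt_zero s), fun s hs => absurd hs (Nat.not_lt_zero s),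
        fun i j s _ h2 h3 => by omega⟩
      refine ⟨T₀.snoc (F.tail e) (some (e, false)) ?_ ?_ ?_, le_rfl, false, rfl, ?_⟩
      · intro e' he
        exact absurd (Prod.mk.inj (Option.some.inj he)).2 (by decide)
      · intro e' he
        have := (Prod.mk.inj (Option.some.inj he)).1
        rw [← this]
        exact ⟨rfl, rfl⟩
      · intro he
        exact absurd he (Option.some_ne_none _)
      · show F.head e ≠ F.label e
        rw [hl]
        exact hne.symm
    · let T₀ : PT F := ⟨0, fun _ => F.tail e, fun _ => none,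
        fun s hs => absurd hs (Nat.not_lt_zero s), fun s hs => absurd hs (Nat.not_lt_zero s),
        fun i j s _ h2 h3 => by omega⟩
      refine ⟨T₀.snoc (F.head e) (some (e, true)) ?_ ?_ ?_, le_rfl, true, rfl, ?_⟩
      · intro e' he
        have := (Prod.mk.inj (Option.some.inj he)).1
        rw [← this]
        exact ⟨rfl, rfl⟩
      · intro e' he
        exact absurd (Prod.mk.inj (Option.some.inj he)).2 (by decide)
      · intro he
        exact absurd he (Option.some_ne_none _)
      · show F.tail e ≠ F.label e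
        exact fun h => hl h.symm
  obtain ⟨T₁, h1, b, h2, h3⟩ := key
  obtain ⟨T₂, h4, h5, h6⟩ := PT.cover T₁
  have hcut : ∀ s < T₂.N, T₂.st (s + 1) ≠ none := fun s hs h =>
    T₂.cut s T₂.N s le_rfl hs le_rfl h (hconn _ _)
  refine ⟨⟨T₂.N, T₂.w, T₂.st, T₂.fwd, T₂.bwd, fun i j s _ h7 h8 h9 =>
    absurd h9 (hcut s (by omega)), fun x => h5 x (hconn _ _), fun e => h6 e (hconn _ _)⟩, hcut,
    h1.trans h4.1.1, e, b, ?_, ?_⟩
  · show T₂.st (0 + 1) = some (e, b)
    rw [h4.1.2.2 0 h1, h2]
  · show T₂.w 0 ≠ F.label e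
    rw [h4.1.2.1 0 (Nat.zero_le _)]
    exact h3

/-- A non-aspherical labelled oriented tree gives a pattern, with a first step whose label is not in
segment `0`, such that, if it is realised with acyclic complements at the elements of `U`, and `v` is
not in the branches at these, there are at least `|U|` edges `e` such that `K(Γ, v)` without the
2-cell of `e` is not aspherical. -/
theorem exists_pattern2 (hX : ∃ (n : ℕ) (Γ : LOT (Fin n)), ¬ LotAspherical Γ) :
    ∃ P : Pattern, 1 ≤ P.N ∧ P.lam 1 ≠ 0 ∧ ∀ (V : Type) [Fintype V] (Γ : LOT V) (p : V → V) (r : V)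
      (o : V → Bool) (l : V → V) (v : V) (U : Finset V), Desc Γ p r o l →
      (∀ u ∈ U, RealAt1 P p r u o l ∧ v ∉ below p u) →
      U.card ≤ {e | ¬ CellAspherical Γ v e}.ncard := by
  classical
  obtain ⟨n, Γ₀, h₀⟩ := hX
  unfold LotAspherical at h₀
  push Not at h₀
  obtain ⟨inst, h₀⟩ := h₀
  have hF : ¬ Aspherical (lotF Γ₀ inst).rel := h₀
  have hE : Nonempty (lotF Γ₀ inst).E := by
    by_contra hcon
    rw [not_nonempty_iff] at hcon
    apply hF
    intro z _
    funext e
    exact (hcon.false e).elim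
  obtain ⟨e₀⟩ := hE
  obtain ⟨T, hT, hN, e, b, hst, hw⟩ := exists_tour_first (lotF Γ₀ inst) (lotF_conn Γ₀ inst) e₀
  refine ⟨T.pattern, hN, ?_, ?_⟩
  · have h1 := pattern_lam T (s := 0 + 1) hst
    show T.pattern.lam (0 + 1) ≠ 0
    rw [h1]
    intro h2
    apply hw
    rw [← h2]
    exact T.w_fst _
  · intro V _ Γ p r o l v U hD hU
    have hfin : Finite Γ.graph.edgeSet := Finite.of_injective (fun e => (e : Sym2 V))
      Subtype.val_injective
    have hex : ∀ u : U, ∃ e : Γ.graph.edgeSet, (e : Sym2 V) = s(u.1, p u.1) ∧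
        ¬ CellAspherical Γ v e := by
      rintro ⟨u, hu⟩
      obtain ⟨⟨H, seg, top, hR, hA⟩, hv⟩ := hU u hu
      have h1 : s(u, p u) ∈ Γ.graph.edgeSet := by
        rw [← hD.graph]
        exact adj_parent hD.mem u hR.ne_root
      exact ⟨⟨s(u, p u), h1⟩, rfl, fail1 T Γ hT hF hD hR hA v hv _ rfl⟩
    choose f hf1 hf2 using hex
    have hinj : Function.Injective f := by
      intro a c hac
      have h1 := hf1 a
      rw [hac, hf1 c] at h1
      obtain ⟨⟨_, _, _, hR, _⟩, _⟩ := hU c.1 c.2
      exact Subtype.ext (edge_unique hD.mem hR.ne_root h1).symm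
    have h4 : (Set.range f).ncard = U.card := by
      rw [← Set.image_univ, Set.ncard_image_of_injective _ hinj, Set.ncard_univ,
        Nat.card_eq_fintype_card, Fintype.card_coe]
    rw [← h4]
    refine Set.ncard_le_ncard ?_ (Set.toFinite _)
    rintro _ ⟨u, rfl⟩
    exact hf2 u

end Pool.Agent.OC
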