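import Pool.Agent.OC2.Sc1

/-!
# The zero-one law with one missing 2-cell: many cells for every success

If nothing is attached in block `0` of the spine (`P.lam 1 ≠ 0`), then the pattern is realised with an
acyclic complement at each of the `ℓ` vertices of this block.
-/

set_option autoImplicit false

open scoped BigOperators

namespace Pool.Agent.OC

open Pool.Agent.WT.Trees (PF)
open Pool.Agent.GX Pool.Agent.ZO

/-- cut at a lower vertex of segment `0` -/
theorem realAt1_shift {P : Pattern} {V : Type} {p : V → V} {r u u' : V} {o : V → Bool} {l : V → V}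
    {H : Set V} {seg : V → ℕ} {top : ℕ → V} (hR : Realises P p r u o l H seg top)
    (hA : Acy (below p u) H p l) (hp : p ∈ PF r) (hu' : u' ∈ H) (hne : u' ≠ u)
    (hseg : seg u' = 0) (htop : ∀ s, 1 ≤ s → s ≤ P.N → top s ∈ below p u')
    (hlab : ∀ s < P.N, l (top (s + 1)) ∈ below p u') : RealAt1 P p r u' o l := by
  have hb : u' ∈ below p u := hR.sub hu'
  have hnu : u ∉ below p u' := fun h => hne (below_antisymm hp hb h)
  have hsub : ∀ x, x ∈ below p u' → x ∈ below p u := fun x hx => below_trans hx hb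
  have hxu : ∀ x, x ∈ below p u' → x ≠ u := fun x hx h => hnu (h ▸ hx)
  have hrn : u' ≠ r := by
    intro h
    exact FringeAux.root_notMem_below hp hR.ne_root (h ▸ hb)
  refine ⟨H ∩ below p u', seg, fun s => if s = 0 then u' else top s, ?_, ?_⟩
  · refine ⟨hrn, fun x hx => hx.2, if_pos rfl, ?_, ?_, fun x hx => hR.seg_le x hx.1, ?_, ?_, ?_, ?_⟩
    · intro s hsN
      rcases Nat.eq_zero_or_pos s with rfl | h
      · rw [if_pos rfl]
        exact ⟨hu', FringeAux.self_mem_below _ _⟩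
      · rw [if_neg (by omega)]
        exact ⟨hR.top_mem s hsN, htop s h hsN⟩
    · intro s hsN
      rcases Nat.eq_zero_or_pos s with rfl | h
      · rw [if_pos rfl]
        exact hseg
      · rw [if_neg (by omega)]
        exact hR.seg_top s hsN
    · intro x hx hxu'
      exact ⟨hR.par_mem x hx.1 (hxu x hx.2), FringeAux.parent_mem_below hx.2 hxu'⟩
    · intro x hx hxt
      have h1 : x ≠ top (seg x) := by
        intro h
        by_cases h0 : seg x = 0
        · rw [h0, hR.top_zero] at h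
          exact hxu x hx.2 h
        · apply hxt
          rw [if_neg h0]
          exact h
      obtain ⟨h2, h3⟩ := hR.static x hx.1 h1
      exact ⟨h2, fun h => h3 (hsub _ h)⟩
    · intro s hsN
      rw [if_neg (by omega)]
      exact hR.step s hsN
    · intro s hsN
      rw [if_neg (by omega)]
      obtain ⟨h1, h2, h3⟩ := hR.real s hsN
      exact ⟨⟨h1, hlab s hsN⟩, h2, h3⟩
  · obtain ⟨ρ, hρ⟩ := hA
    refine ⟨ρ, fun x hx hxH => ?_⟩
    have hxH' : x ∉ H := fun h => hxH ⟨h, hx⟩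
    have hxu' : x ≠ u' := fun h => hxH' (h ▸ hu')
    obtain ⟨h1, h2⟩ := hρ x (hsub x hx) hxH'
    refine ⟨fun h3 => h1 fun h4 => h3 ⟨h4, FringeAux.parent_mem_below hx hxu'⟩, fun h3 h4 => ?_⟩
    exact h2 (hsub _ h3) fun h5 => h4 ⟨h5, h3⟩

variable {V : Type} [Fintype V] {P : Pattern} {ℓ A : ℕ} {r : V}

/-- the spine of a successful template, with the properties of its block `0` -/
theorem real1_spine {τ : Tm V (Bool × V)} (hτ : τ ∈ TT1 P ℓ A r)
    {ω : (V → V) × (V → Bool × V)} (hm : τ.Mt r ω) (hN : 1 ≤ P.N) (hP : P.lam 1 ≠ 0) :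
    ∃ (H : Set V) (seg : V → ℕ) (top : ℕ → V) (v : ℕ → V),
      Realises P ω.1 r τ.u (fun x => (ω.2 x).1) (fun x => (ω.2 x).2) H seg top ∧
      Acy (below ω.1 τ.u) H ω.1 (fun x => (ω.2 x).2) ∧
      (∀ i i', i ≤ ℓ → i' ≤ ℓ → v i = v i' → i = i') ∧
      ∀ i, 1 ≤ i → i ≤ ℓ → v i ∈ H ∧ v i ≠ τ.u ∧ seg (v i) = 0 ∧
        (∀ s, 1 ≤ s → s ≤ P.N → top s ∈ below ω.1 (v i)) ∧
        ∀ s < P.N, (ω.2 (top (s + 1))).2 ∈ below ω.1 (v i) := by
  classical
  obtain ⟨hw, z, idx, att, dl, hs, hacy⟩ := mem_TT1.1 hτ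
  set L := Ls P.N ℓ with hL
  have hp := hm.1
  set p := ω.1 with hpdef
  have hmp : ∀ x ∈ τ.D, x ≠ τ.u → p x = τ.g x := fun x h h' => (hm.2.2 x h h').1
  set v : ℕ → V := fun i => sv τ.g z L i with hv
  have hvD : ∀ i, v i ∈ τ.D := fun i => wf_iter hw hs.zD _
  have hvu : ∀ i, v i ≠ τ.u := fun i h => hs.nu (fix_iter hw.gtop h (Nat.sub_le _ _))
  have hpv : ∀ i, 1 ≤ i → i ≤ L + 1 → p (v i) = v (i - 1) := by
    intro i h1 h2
    rw [hmp _ (hvD i) (hvu i)]
    simp only [hv, sv]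
    rw [← Function.iterate_succ_apply' τ.g (L + 1 - i) z]
    congr 2
    omega
  have hpv0 : p (v 0) = τ.u := by
    rw [hmp _ (hvD 0) (hvu 0)]
    simp only [hv, sv]
    rw [← Function.iterate_succ_apply' τ.g (L + 1 - 0) z]
    exact hs.hu
  have hvb : ∀ i' i, i' ≤ i → i ≤ L + 1 → v i ∈ below p (v i') := by
    intro i' i h1 h2
    obtain ⟨k, rfl⟩ := Nat.exists_eq_add_of_le h1
    clear h1
    induction k with
    | zero => exact FringeAux.self_mem_below _ _
    | succ k ih =>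
      apply FringeAux.mem_below_of_parent
      rw [hpv _ (by omega) h2]
      exact ih (by omega)
  have hvinj : ∀ i i', i ≤ L + 1 → i' ≤ L + 1 → v i = v i' → i = i' := by
    have key : ∀ i i', i < i' → i' ≤ L + 1 → v i ≠ v i' := by
      intro i i' h1 h2 h3
      have h4 : p (v i') ∈ below p (v i) := by
        rw [hpv i' (by omega) h2]
        exact hvb i (i' - 1) (by omega) (by omega)
      have h5 : v i' ≠ r := fun h => hw.root (h ▸ hvD i')
      rw [h3] at h4
      exact FringeAux.top_notMem_below hp h5 h4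
    intro i i' h1 h2 h3
    rcases lt_trichotomy i i' with h | h | h
    · exact absurd h3 (key i i' h h2)
    · exact h
    · exact absurd h3.symm (key i' i h h1)
  have hvb' : ∀ i' i, i' ≤ L + 1 → i ≤ L + 1 → (v i ∈ below p (v i') ↔ i' ≤ i) := by
    intro i' i h1 h2
    constructor
    · intro h
      by_contra hlt
      have h3 := hvb i i' (by omega) h1
      have h4 := hvinj i i' h2 h1 (below_antisymm hp h h3)
      omega
    · intro h
      exact hvb i' i h h2
  have hub : ∀ i, τ.u ∉ below p (v i) := by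
    intro i h
    exact hvu i (below_antisymm hp ((mem_D hm).2 (hvD i)) h)
  -- positions
  have hidx1 : ∀ j, 1 ≤ j → j ≤ P.N → 1 ≤ idx j ∧ idx j ≤ L := fun j h1 h2 =>
    ⟨blk_pos (hs.idx_mem j h1 h2), blk_le (hs.idx_mem j h1 h2) (bs_le h1 h2)⟩
  have hatt1 : ∀ j, 1 ≤ j → j ≤ P.N → 1 ≤ att j ∧ att j ≤ L := fun j h1 h2 =>
    ⟨blk_pos (hs.att_mem j h1 h2), blk_le (hs.att_mem j h1 h2) (ba_le (P.le j) h1 h2)⟩
  have hidxlt : ∀ i j, 1 ≤ i → i < j → j ≤ P.N → idx i < idx j := fun i j h1 h2 h3 =>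
    blk_lt (hs.idx_mem i h1 (by omega)) (hs.idx_mem j (by omega) h3) (bs_lt h1 h2)
  have hidxle : ∀ i j, 1 ≤ i → i ≤ P.N → 1 ≤ j → j ≤ P.N → (idx i ≤ idx j ↔ i ≤ j) := by
    intro i j h1 h2 h3 h4
    rcases lt_trichotomy i j with h | h | h
    · have := hidxlt i j h1 h h4
      omega
    · subst h
      omega
    · have := hidxlt j i h3 h h2
      omega
  have hidxatt : ∀ i j, 1 ≤ i → i ≤ P.N → 1 ≤ j → j ≤ P.N → (idx i ≤ att j ↔ i ≤ P.lam j) := by
    intro i j h1 h2 h3 h4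
    constructor
    · intro h
      by_contra hlt
      have := blk_lt (hs.att_mem j h3 h4) (hs.idx_mem i h1 h2) (ba_bs h3 h4 (by omega))
      omega
    · intro h
      exact (blk_lt (hs.idx_mem i h1 h2) (hs.att_mem j h3 h4) (bs_ba h1 h)).le
  -- segments
  set seg : V → ℕ := fun x => ((Finset.Icc 1 P.N).filter fun j => x ∈ below p (v (idx j))).card
    with hseg
  have hsegv : ∀ i s, i ≤ L + 1 → s ≤ P.N → (∀ j, 1 ≤ j → j ≤ P.N → (idx j ≤ i ↔ j ≤ s)) →
      seg (v i) = s := by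
    intro i s hi hsN h
    rw [hseg]
    apply card_Icc_filter hsN
    intro j h1 h2
    rw [hvb' (idx j) i ((hidx1 j h1 h2).2.trans (Nat.le_succ _)) hi]
    exact h j h1 h2
  have hsegpar : ∀ x, (∀ j, 1 ≤ j → j ≤ P.N → x ≠ v (idx j)) → seg (p x) = seg x := by
    intro x hx
    simp only [hseg]
    congr 1
    apply Finset.filter_congr
    intro j hj
    rw [Finset.mem_Icc] at hj
    constructor
    · exact FringeAux.mem_below_of_parent
    · intro h
      exact FringeAux.parent_mem_below h (hx j hj.1 hj.2)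
  have hsegu : seg τ.u = 0 := by
    rw [hseg]
    simp only [Finset.card_eq_zero, Finset.filter_eq_empty_iff]
    intro j _
    exact hub _
  have hlab : ∀ i, (ω.2 (v i)) = τ.d (v i) := fun i => (hm.2.2 _ (hvD i) (hvu i)).2
  set y : ℕ → V := fun j => (τ.d (v (idx j))).2 with hy
  have hyD : ∀ j, 1 ≤ j → j ≤ P.N → ∀ i, τ.g^[i] (y j) ∈ τ.D := fun j h1 h2 i =>
    wf_iter hw (hs.labD j h1 h2) i
  have hyu : ∀ j, 1 ≤ j → j ≤ P.N → ∀ i ≤ dl j, τ.g^[i] (y j) ≠ τ.u := by
    intro j h1 h2 i hi h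
    have h3 := fix_iter hw.gtop h hi
    rw [hs.path j h1 h2] at h3
    exact hvu _ h3
  have hypar : ∀ j, 1 ≤ j → j ≤ P.N → ∀ i ≤ dl j, p (τ.g^[i] (y j)) = τ.g^[i + 1] (y j) := by
    intro j h1 h2 i hi
    rw [hmp _ (hyD j h1 h2 i) (hyu j h1 h2 i hi), Function.iterate_succ_apply']
  have hylab : ∀ j, 1 ≤ j → j ≤ P.N → ∀ i < dl j, (ω.2 (τ.g^[i] (y j))).2 ∉ τ.D := by
    intro j h1 h2 i hi
    rw [(hm.2.2 _ (hyD j h1 h2 i) (hyu j h1 h2 i hi.le)).2]
    exact hs.stat2 j h1 h2 i hi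
  have hyns : ∀ j, 1 ≤ j → j ≤ P.N → ∀ i < dl j, ∀ j', 1 ≤ j' → j' ≤ P.N →
      τ.g^[i] (y j) ≠ v (idx j') := by
    intro j h1 h2 i hi j' h1' h2' h
    have h3 := hylab j h1 h2 i hi
    rw [h, hlab] at h3
    exact h3 (hs.labD j' h1' h2')
  have hyseg : ∀ j, 1 ≤ j → j ≤ P.N → ∀ i, i ≤ dl j → seg (τ.g^[dl j - i] (y j)) = P.lam j := by
    intro j h1 h2 i
    induction i with
    | zero =>
      intro _
      rw [Nat.sub_zero]
      have h3 : τ.g^[dl j] (y j) = v (att j) := hs.path j h1 h2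
      rw [h3]
      exact hsegv _ _ ((hatt1 j h1 h2).2.trans (Nat.le_succ _)) (P.le j)
        fun i hi1 hi2 => hidxatt i j hi1 hi2 h1 h2
    | succ i ih =>
      intro hi
      have h4 := hsegpar (τ.g^[dl j - (i + 1)] (y j)) (hyns j h1 h2 _ (by omega))
      rw [hypar j h1 h2 _ (by omega)] at h4
      have h5 : dl j - (i + 1) + 1 = dl j - i := by omega
      rw [h5] at h4
      rw [← h4]
      exact ih (by omega)
  set H : Set V := {x | x = τ.u ∨ (∃ i ≤ L, x = v i) ∨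
    ∃ j, 1 ≤ j ∧ j ≤ P.N ∧ ∃ i < dl j, x = τ.g^[i] (y j)} with hH
  set top : ℕ → V := fun s => if s = 0 then τ.u else v (idx s) with htop
  have htop1 : ∀ s, 1 ≤ s → top s = v (idx s) := fun s h => if_neg (by omega)
  have hmemD : ∀ x, x ∉ τ.D ↔ x ∉ below p τ.u := fun x => not_congr (mem_D hm).symm
  have hsegtop : ∀ s, 1 ≤ s → s ≤ P.N → seg (v (idx s)) = s := by
    intro s h1 h2
    exact hsegv _ _ ((hidx1 s h1 h2).2.trans (Nat.le_succ _)) h2
      fun j hj1 hj2 => hidxle j s hj1 hj2 h1 h2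
  have hℓL : ℓ ≤ L := by
    rw [hL]
    unfold Ls
    exact Nat.le_mul_of_pos_left ℓ (Nat.mul_pos hN (by omega))
  -- nothing happens in block 0
  have hidxℓ : ∀ j, 1 ≤ j → j ≤ P.N → ℓ < idx j := by
    intro j h1 h2
    have h3 := hs.idx_mem j h1 h2
    unfold blk at h3
    rw [Finset.mem_Ioc] at h3
    have h4 : 1 ≤ bs P.N j := by
      unfold bs
      omega
    exact lt_of_le_of_lt (Nat.le_mul_of_pos_left ℓ h4) h3.1
  have hattℓ : ∀ j, 1 ≤ j → j ≤ P.N → ℓ < att j := by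
    intro j h1 h2
    have h3 := hs.att_mem j h1 h2
    unfold blk at h3
    rw [Finset.mem_Ioc] at h3
    have h4 : 1 ≤ ba P.N (P.lam j) j := by
      unfold ba
      rcases Nat.eq_or_lt_of_le h1 with h5 | h5
      · rw [← h5]
        have h6 : 1 ≤ P.lam 1 := Nat.one_le_iff_ne_zero.2 hP
        have h7 := Nat.le_mul_of_pos_right (P.lam 1) (Nat.succ_pos P.N)
        simp only [Nat.succ_eq_add_one] at h7
        omega
      · omega
    exact lt_of_le_of_lt (Nat.le_mul_of_pos_left ℓ h4) h3.1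
  refine ⟨H, seg, top, v, ?_, ?_, ?_, ?_⟩
  rotate_left
  rotate_left
  · intro i i' h1 h2 h3
    exact hvinj i i' (by omega) (by omega) h3
  · intro i h1 h2
    refine ⟨Or.inr (Or.inl ⟨i, by omega, rfl⟩), hvu i, ?_, ?_, ?_⟩
    · apply hsegv i 0 (by omega) (Nat.zero_le _)
      intro j hj1 hj2
      have := hidxℓ j hj1 hj2
      omega
    · intro s hs1 hs2
      rw [htop1 s hs1]
      have h3 := hidxℓ s hs1 hs2
      have h4 := (hidx1 s hs1 hs2).2
      exact hvb i (idx s) (by omega) (by omega)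
    · intro s hsN
      have hs1 : 1 ≤ s + 1 := by omega
      have hs2 : s + 1 ≤ P.N := hsN
      rw [htop1 (s + 1) hs1, hlab]
      have h3 := hattℓ (s + 1) hs1 hs2
      have h4 := (hatt1 (s + 1) hs1 hs2).2
      have h5 : v (att (s + 1)) ∈ below p (v i) := hvb i (att (s + 1)) (by omega) (by omega)
      have h6 : p^[dl (s + 1)] (y (s + 1)) = v (att (s + 1)) := by
        have h7 : y (s + 1) ∈ τ.D := hyD (s + 1) hs1 hs2 0
        rw [hpdef, mt_iter' hw hm h7 (hyu (s + 1) hs1 hs2 _ le_rfl)]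
        exact hs.path (s + 1) hs1 hs2
      exact below_trans ⟨_, h6⟩ h5
  rotate_left
  · obtain ⟨ρ, hρ⟩ := hacy
    refine ⟨ρ, fun x hx hxH => ?_⟩
    have hxD : x ∈ τ.D := (mem_D hm).1 hx
    have hxu : x ≠ τ.u := fun h => hxH (Or.inl h)
    obtain ⟨h1, h2⟩ := hρ x (Finset.mem_coe.2 hxD) hxH
    have h3 : p x = τ.g x := hmp x hxD hxu
    have h4 : ω.2 x = τ.d x := (hm.2.2 x hxD hxu).2
    show (p x ∉ H → ρ (p x) < ρ x) ∧ ((ω.2 x).2 ∈ below p τ.u → (ω.2 x).2 ∉ H →
      ρ (ω.2 x).2 < ρ x)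
    rw [h3, h4]
    exact ⟨h1, fun h5 => h2 (Finset.mem_coe.2 ((mem_D hm).1 h5))⟩
  refine ⟨top_ne_root' hw, ?_, if_pos rfl, ?_, ?_, ?_, ?_, ?_, ?_, ?_⟩
  · rintro x (rfl | ⟨i, _, rfl⟩ | ⟨j, h1, h2, i, _, rfl⟩)
    · exact FringeAux.self_mem_below _ _
    · exact (mem_D hm).2 (hvD i)
    · exact (mem_D hm).2 (hyD j h1 h2 i)
  · intro s hsN
    rcases Nat.eq_zero_or_pos s with rfl | h1
    · left
      rfl
    · right
      left
      exact ⟨idx s, (hidx1 s h1 hsN).2, htop1 s h1⟩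
  · intro s hsN
    rcases Nat.eq_zero_or_pos s with rfl | h1
    · exact hsegu
    · rw [htop1 s h1]
      exact hsegtop s h1 hsN
  · intro x _
    rw [hseg]
    calc _ ≤ (Finset.Icc 1 P.N).card := Finset.card_filter_le _ _
      _ = P.N := by rw [Nat.card_Icc]; omega
  · rintro x (rfl | ⟨i, hi, rfl⟩ | ⟨j, h1, h2, i, hi, rfl⟩) hxu
    · exact absurd rfl hxu
    · rcases Nat.eq_zero_or_pos i with rfl | h1
      · rw [hpv0]
        exact Or.inl rfl
      · rw [hpv i h1 (by omega)]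
        exact Or.inr (Or.inl ⟨i - 1, by omega, rfl⟩)
    · rw [hypar j h1 h2 i hi.le]
      by_cases h3 : i + 1 < dl j
      · exact Or.inr (Or.inr ⟨j, h1, h2, i + 1, h3, rfl⟩)
      · have h4 : i + 1 = dl j := by omega
        rw [h4]
        have h5 : τ.g^[dl j] (y j) = v (att j) := hs.path j h1 h2
        rw [h5]
        exact Or.inr (Or.inl ⟨att j, (hatt1 j h1 h2).2, rfl⟩)
  · rintro x (rfl | ⟨i, hi, rfl⟩ | ⟨j, h1, h2, i, hi, rfl⟩) hxt
    · rw [hsegu] at hxt
      exact absurd rfl hxt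
    · have hne : ∀ j, 1 ≤ j → j ≤ P.N → i ≠ idx j := by
        intro j h1 h2 h
        apply hxt
        rw [h, hsegtop j h1 h2, htop1 j h1]
      refine ⟨hsegpar _ fun j h1 h2 h => hne j h1 h2
        (hvinj i (idx j) (by omega) (by have := (hidx1 j h1 h2).2; omega) h), ?_⟩
      rw [← hmemD]
      rw [hlab]
      exact hs.stat1 i hi hne
    · refine ⟨hsegpar _ (hyns j h1 h2 i hi), ?_⟩
      rw [← hmemD]
      exact hylab j h1 h2 i hi
  · intro s hsN
    rw [htop1 (s + 1) (by omega), hpv _ (hidx1 (s + 1) (by omega) hsN).1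
      (by have := (hidx1 (s + 1) (by omega) hsN).2; omega)]
    apply hsegv _ _ (by have := (hidx1 (s + 1) (by omega) hsN).2; omega) hsN.le
    intro j h1 h2
    have h3 := hidxle j (s + 1) h1 h2 (by omega) hsN
    have h4 := hidxle (s + 1) j (by omega) hsN h1 h2
    have h5 := (hidx1 (s + 1) (by omega) hsN).1
    constructor
    · intro h
      by_contra hlt
      have := h4.2 (by omega)
      omega
    · intro h
      have h6 := hidxlt j (s + 1) h1 (by omega) hsN
      omega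
  · intro s hsN
    rw [htop1 (s + 1) (by omega)]
    have h1 : 1 ≤ s + 1 := by omega
    have h2 : s + 1 ≤ P.N := hsN
    have hlab' : (ω.2 (v (idx (s + 1)))).2 = y (s + 1) := by rw [hlab]
    have hdl := hs.dl_pos (s + 1) h1 h2
    refine ⟨?_, ?_, ?_⟩
    · change (ω.2 (v (idx (s + 1)))).2 ∈ H
      rw [hlab']
      exact Or.inr (Or.inr ⟨s + 1, h1, h2, 0, hdl, rfl⟩)
    · change seg (ω.2 (v (idx (s + 1)))).2 = _
      rw [hlab']
      have := hyseg (s + 1) h1 h2 (dl (s + 1)) le_rfl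
      rw [Nat.sub_self] at this
      exact this
    · change (ω.2 (v (idx (s + 1)))).1 = _
      rw [hlab]
      exact hs.ori (s + 1) h1 h2

/-- every success gives `ℓ` vertices at which the pattern is realised with an acyclic complement -/
theorem sc1_many (hP : P.lam 1 ≠ 0) (hN : 1 ≤ P.N) {p : V → V} (hp : p ∈ PF r) {u : V}
    {d : V → Bool × V} (hu : u ≠ r) (h : Sc1 P ℓ A p u d) :
    ∃ U : Finset V, U.card = ℓ ∧ (∀ x ∈ U, x ∈ below p u ∧ x ≠ u) ∧
      ∀ x ∈ U, RealAt1 P p r x (fun y => (d y).1) (fun y => (d y).2) := by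
  classical
  obtain ⟨H, seg, top, v, hR, hA, hinj, hv⟩ := real1_spine
    (tmOf_mem1 (FringeAux.root_notMem_below hp hu) h) (tmOf_mt hp u d) hN hP
  refine ⟨(Finset.Icc 1 ℓ).image v, ?_, ?_, ?_⟩
  · rw [Finset.card_image_of_injOn, Nat.card_Icc]
    · omega
    · intro i hi i' hi' hii
      rw [Finset.coe_Icc, Set.mem_Icc] at hi hi'
      exact hinj i i' hi.2 hi'.2 hii
  · intro x hx
    obtain ⟨i, hi, rfl⟩ := Finset.mem_image.1 hx
    rw [Finset.mem_Icc] at hi
    obtain ⟨h1, h2, -⟩ := hv i hi.1 hi.2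
    exact ⟨hR.sub h1, h2⟩
  · intro x hx
    obtain ⟨i, hi, rfl⟩ := Finset.mem_image.1 hx
    rw [Finset.mem_Icc] at hi
    obtain ⟨h1, h2, h3, h4, h5⟩ := hv i hi.1 hi.2
    exact realAt1_shift hR hA hp h1 h2 h3 h4 h5

end Pool.Agent.OC
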