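import Pool.Agent.OC2.Law1
import Pool.Agent.OC2.Pattern2
import Pool.Agent.OC2.Shift

/-!
# The zero-one law with one missing 2-cell
-/

set_option autoImplicit false

open scoped BigOperators Nat

namespace Pool.Agent.OC

open Pool.Agent.FoxAsph Pool.Agent.WT Pool.Agent.RelGap Pool.Agent.ZO Pool.Agent.GX

/-- The zero-one law with one missing 2-cell: either all subcomplexes of all complexes that
3-deform to a point are aspherical, or for almost all labelled oriented trees `Γ` and every `v` there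
are at least `n ^ (2 / 3) / C` edges `e` such that `K(Γ, v)` without the open 2-cell of `e` is not
aspherical. -/
theorem expLaw1 :
    (∀ (X ι : Type) [Fintype X] [Fintype ι] (rel : ι → Word X), ACTrivial rel →
      ∀ (U : Set X) (S : Finset ι) (h : ∀ i ∈ S, ∀ l ∈ rel i, l.1 ∈ U),
        Aspherical (SubPres rel U S h)) ∨
    ∃ C : ℝ, 0 < C ∧ ∀ n : ℕ, 0 < n →
      ({Γ : LOT (Fin n) | ¬ ManyBad Γ ((n : ℝ) ^ (2 / 3 : ℝ) / C)}.ncard : ℝ) ≤
        C * Real.exp (-((n : ℝ) ^ (1 / 3 : ℝ) / C)) * Nat.card (LOT (Fin n)) ∧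
      ({Γ : LOT (Fin n) | Γ.Reduced ∧ ¬ ManyBad Γ ((n : ℝ) ^ (2 / 3 : ℝ) / C)}.ncard : ℝ) ≤
        C * Real.exp (-((n : ℝ) ^ (1 / 3 : ℝ) / C)) * {Γ : LOT (Fin n) | Γ.Reduced}.ncard := by
  refine law1 fun hX => ?_
  obtain ⟨P, hN, hlam, hG⟩ := exists_pattern2 hX
  exact ⟨P, kap_lower1 P, fun V _ ℓ A r p u d hp hu h => sc1_many hlam hN hp hu h,
    fun V _ Γ p r o l v U hD hU => hG V Γ p r o l v U hD hU⟩

end Pool.Agent.OC
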