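import Pool.Agent.OC2.Fail1
import Pool.Agent.ZO.TourEx

/-!
# A non-aspherical labelled oriented tree gives a pattern without cuts
-/

set_option autoImplicit false

open scoped BigOperators

namespace Pool.Agent.OC

open Pool.Agent.FoxAsph Pool.Agent.WT Pool.Agent.WT.Trees Pool.Agent.ZO Pool.Agent.GX

/-- A connected labelled oriented forest has a tour without cuts. -/
theorem exists_tour_full (F : LOF) (hconn : ∀ x y, F.Conn x y) (x₀ : F.V) :
    ∃ T : Tour F, ∀ s < T.N, T.st (s + 1) ≠ none := by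
  classical
  let T₀ : PT F := ⟨0, fun _ => x₀, fun _ => none, fun s hs => absurd hs (Nat.not_lt_zero s),
    fun s hs => absurd hs (Nat.not_lt_zero s), fun i j s _ h2 h3 => by omega⟩
  obtain ⟨T₁, -, h2, h3⟩ := PT.cover T₀
  have hcut : ∀ s < T₁.N, T₁.st (s + 1) ≠ none := fun s hs h =>
    T₁.cut s T₁.N s le_rfl hs le_rfl h (hconn _ _)
  exact ⟨⟨T₁.N, T₁.w, T₁.st, T₁.fwd, T₁.bwd, fun i j s _ h5 h6 h7 =>
    absurd h7 (hcut s (by omega)), fun x => h2 x (hconn _ _), fun e => h3 e (hconn _ _)⟩, hcut⟩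

/-- A labelled oriented tree is a forest: for every edge `e` there is a function with difference `1`
along `e` and `0` along the other edges. -/
theorem lot_forest {V : Type} (Γ : LOT V) (e : Γ.graph.edgeSet) :
    ∃ χ : V → ℤ, (χ (Γ.head e) - χ (Γ.tail e) = 1) ∧
      ∀ e', e' ≠ e → χ (Γ.head e') = χ (Γ.tail e') := by
  classical
  have he := Γ.ends e
  have hadj : Γ.graph.Adj (Γ.tail e) (Γ.head e) := by
    rw [← SimpleGraph.mem_edgeSet, ← he]
    exact e.2
  have hb : Γ.graph.IsBridge s(Γ.tail e, Γ.head e) :=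
    (SimpleGraph.isAcyclic_iff_forall_adj_isBridge.1 Γ.isTree.isAcyclic) hadj
  rw [SimpleGraph.isBridge_iff] at hb
  set G' := Γ.graph.deleteEdges {s(Γ.tail e, Γ.head e)} with hG'
  refine ⟨fun x => if G'.Reachable x (Γ.head e) then 1 else 0, ?_, ?_⟩
  · simp only
    rw [if_pos (SimpleGraph.Reachable.refl _), if_neg hb]
    norm_num
  · intro e' hne
    have he' := Γ.ends e'
    have hadj' : Γ.graph.Adj (Γ.tail e') (Γ.head e') := by
      rw [← SimpleGraph.mem_edgeSet, ← he']
      exact e'.2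
    have h1 : G'.Adj (Γ.tail e') (Γ.head e') := by
      rw [hG', SimpleGraph.deleteEdges_adj]
      refine ⟨hadj', fun h => ?_⟩
      rw [Set.mem_singleton_iff, ← he, ← he'] at h
      exact hne (Subtype.ext h)
    have h2 : G'.Reachable (Γ.head e') (Γ.head e) ↔ G'.Reachable (Γ.tail e') (Γ.head e) :=
      ⟨fun h => h1.reachable.trans h, fun h => h1.reachable.symm.trans h⟩
    simp only [h2]

/-- the labelled oriented tree as a labelled oriented forest -/
def lotF {n : ℕ} (Γ : LOT (Fin n)) (inst : Fintype Γ.graph.edgeSet) : LOF where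
  V := Fin n
  E := Γ.graph.edgeSet
  fV := inferInstance
  fE := inst
  tail := Γ.tail
  head := Γ.head
  label := Γ.label
  forest := lot_forest Γ

theorem lotF_conn {n : ℕ} (Γ : LOT (Fin n)) (inst : Fintype Γ.graph.edgeSet)
    (x y : (lotF Γ inst).V) : (lotF Γ inst).Conn x y := by
  obtain ⟨w⟩ := Γ.isTree.connected.preconnected x y
  induction w with
  | nil => exact LOF.conn_refl _ _
  | cons hadj _ ih =>
    rename_i a b _
    refine LOF.conn_trans (Relation.ReflTransGen.single ?_) ih
    have he := Γ.ends ⟨s(_, _), (SimpleGraph.mem_edgeSet _).2 hadj⟩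
    rw [Sym2.eq_iff] at he
    refine ⟨(⟨s(_, _), (SimpleGraph.mem_edgeSet _).2 hadj⟩ : Γ.graph.edgeSet), ?_⟩
    rcases he with ⟨h1, h2⟩ | ⟨h1, h2⟩
    · exact Or.inl ⟨h1, h2⟩
    · exact Or.inr ⟨h1, h2⟩

/-- A non-aspherical labelled oriented tree gives a pattern such that, if it is realised with acyclic
complements at the elements of `U` and the branches at these are disjoint, then for every `v` there
are at least `|U| - 1` edges `e` such that `K(Γ, v)` without the 2-cell of `e` is not aspherical. -/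
theorem exists_pattern1 (hX : ∃ (n : ℕ) (Γ : LOT (Fin n)), ¬ LotAspherical Γ) :
    ∃ P : Pattern, ∀ (V : Type) [Fintype V] (Γ : LOT V) (p : V → V) (r : V) (o : V → Bool)
      (l : V → V) (U : Finset V), Desc Γ p r o l → RealOn1 P p r o l U →
      ManyBad Γ ((U.card : ℝ) - 1) := by
  classical
  obtain ⟨n, Γ₀, h₀⟩ := hX
  unfold LotAspherical at h₀
  push Not at h₀
  obtain ⟨inst, h₀⟩ := h₀
  obtain ⟨x₀⟩ := Γ₀.isTree.connected.nonempty
  obtain ⟨T, hT⟩ := exists_tour_full (lotF Γ₀ inst) (lotF_conn Γ₀ inst) x₀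
  have hF : ¬ Aspherical (lotF Γ₀ inst).rel := h₀
  refine ⟨T.pattern, ?_⟩
  intro V _ Γ p r o l U hD ⟨hU, hdis⟩ v
  have hfin : Finite Γ.graph.edgeSet := Finite.of_injective (fun e => (e : Sym2 V))
    Subtype.val_injective
  set U' := U.filter fun u => v ∉ below p u with hU'
  -- at most one branch contains `v`
  have hcard : U.card ≤ U'.card + 1 := by
    have h1 : U'.card + (U.filter fun u => ¬ v ∉ below p u).card = U.card := by
      rw [hU']
      convert! Finset.card_filter_add_card_filter_not (s := U) (fun u => v ∉ below p u)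
    have h2 : (U.filter fun u => ¬ v ∉ below p u).card ≤ 1 := by
      rw [Finset.card_le_one]
      intro a ha b hb
      rw [Finset.mem_filter, not_not] at ha hb
      by_contra hab
      exact Set.disjoint_left.1 (hdis a ha.1 b hb.1 hab) ha.2 hb.2
    omega
  have hex : ∀ u : U', ∃ e : Γ.graph.edgeSet, (e : Sym2 V) = s(u.1, p u.1) ∧
      ¬ CellAspherical Γ v e := by
    rintro ⟨u, hu⟩
    rw [hU', Finset.mem_filter] at hu
    obtain ⟨H, seg, top, hR, hA⟩ := hU u hu.1
    have h1 : s(u, p u) ∈ Γ.graph.edgeSet := by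
      rw [← hD.graph]
      exact adj_parent hD.mem u hR.ne_root
    exact ⟨⟨s(u, p u), h1⟩, rfl, fail1 T Γ hT hF hD hR hA v hu.2 _ rfl⟩
  choose f hf1 hf2 using hex
  have hinj : Function.Injective f := by
    intro a b hab
    have h1 := hf1 a
    rw [hab, hf1 b] at h1
    obtain ⟨_, _, _, hR, _⟩ := hU b.1 (Finset.mem_filter.1 b.2).1
    exact Subtype.ext (edge_unique hD.mem hR.ne_root h1).symm
  have h3 : U'.card ≤ {e | ¬ CellAspherical Γ v e}.ncard := by
    have h4 : (Set.range f).ncard = U'.card := by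
      rw [← Set.image_univ, Set.ncard_image_of_injective _ hinj, Set.ncard_univ,
        Nat.card_eq_fintype_card, Fintype.card_coe]
    rw [← h4]
    refine Set.ncard_le_ncard ?_ (Set.toFinite _)
    rintro _ ⟨u, rfl⟩
    exact hf2 u
  have h5 : (U.card : ℝ) ≤ (U'.card : ℝ) + 1 := by exact_mod_cast hcard
  have h6 : (U'.card : ℝ) ≤ ({e | ¬ CellAspherical Γ v e}.ncard : ℝ) := by exact_mod_cast h3
  linarith

end Pool.Agent.OC
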