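import Pool.Agent.OC2.Real1
import Pool.Agent.ZO.ExUse

/-! # Successes with acyclic complement as a property of branches (stage 2, S8, first half) -/

set_option autoImplicit false

open scoped BigOperators

namespace Pool.Agent.OC

open Pool.Agent.WT.Trees (PF)
open Pool.Agent.GX Pool.Agent.ZO

section

variable {V : Type} {P : Pattern} {ℓ A : ℕ}

theorem HH_top {g : V → V} {u z : V} {L N : ℕ} {idx dl : ℕ → ℕ} {d : V → Bool × V} :
    u ∈ HH g u z L N idx dl d := Or.inl rfl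

theorem HH_congr {g : V → V} {u z : V} {L N : ℕ} {idx dl : ℕ → ℕ} {d d' : V → Bool × V}
    (h : ∀ i, d' (sv g z L i) = d (sv g z L i)) :
    HH g u z L N idx dl d' = HH g u z L N idx dl d := by
  unfold HH
  simp only [h]

theorem Acy.congr {D H : Set V} {g g' l l' : V → V} (h : Acy D H g l)
    (hg : ∀ x ∈ D, x ∉ H → g' x = g x ∧ l' x = l x) : Acy D H g' l' := by
  obtain ⟨ρ, hρ⟩ := h
  refine ⟨ρ, fun x hx hxH => ?_⟩
  obtain ⟨h1, h2⟩ := hg x hx hxH
  rw [h1, h2]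
  exact hρ x hx hxH

theorem Acy.perm {D H D' H' : Set V} {g l : V → V} (σ : Equiv.Perm V)
    (hD : ∀ x, σ x ∈ D' ↔ x ∈ D) (hH : ∀ x, σ x ∈ H' ↔ x ∈ H) (h : Acy D H g l) :
    Acy D' H' (fun y => σ (g (σ.symm y))) (fun y => σ (l (σ.symm y))) := by
  obtain ⟨ρ, hρ⟩ := h
  refine ⟨fun y => ρ (σ.symm y), fun y hy hyH => ?_⟩
  obtain ⟨x, rfl⟩ := σ.surjective y
  simp only [Equiv.symm_apply_apply, hD, hH] at hy hyH ⊢
  exact hρ x hy hyH

theorem HH_perm {g : V → V} {u z : V} {L N : ℕ} {idx dl : ℕ → ℕ} {d : V → Bool × V}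
    (σ : Equiv.Perm V) (x : V) :
    σ x ∈ HH (fun y => σ (g (σ.symm y))) (σ u) (σ z) L N idx dl
      (fun y => ((d (σ.symm y)).1, σ (d (σ.symm y)).2)) ↔ x ∈ HH g u z L N idx dl d := by
  have hit : ∀ m x, (fun y => σ (g (σ.symm y)))^[m] (σ x) = σ (g^[m] x) := fun m x =>
    conj_it σ g m x
  have hsv : ∀ i, sv (fun y => σ (g (σ.symm y))) (σ z) L i = σ (sv g z L i) :=
    fun i => hit _ _
  unfold HH
  simp only [Set.mem_setOf_eq, hsv, Equiv.symm_apply_apply, hit, σ.injective.eq_iff]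

theorem Succ1.congr_d {D : Finset V} {u : V} {g : V → V} {d d' : V → Bool × V} {z : V}
    {idx att dl : ℕ → ℕ} (hg : g u = u) (hin : ∀ x ∈ D, g x ∈ D)
    (h : Succ1 P ℓ A D u g d z idx att dl) (hd : ∀ x ∈ D, x ≠ u → d' x = d x) :
    Succ1 P ℓ A D u g d' z idx att dl := by
  have hit : ∀ x ∈ D, ∀ i, g^[i] x ∈ D := by
    intro x hx i
    induction i with
    | zero => exact hx
    | succ i ih =>
      rw [Function.iterate_succ_apply']
      exact hin _ ih
  have hsD : ∀ i, sv g z (Ls P.N ℓ) i ∈ D := fun i => hit _ h.1.zD _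
  have hsu : ∀ i, sv g z (Ls P.N ℓ) i ≠ u := fun i h' =>
    h.1.nu (fix_iter hg h' (Nat.sub_le _ _))
  have hs : ∀ i, d' (sv g z (Ls P.N ℓ) i) = d (sv g z (Ls P.N ℓ) i) := fun i =>
    hd _ (hsD i) (hsu i)
  refine ⟨h.1.congr_d hg hin hd, ?_⟩
  rw [HH_congr hs]
  refine h.2.congr fun x hx hxH => ⟨rfl, ?_⟩
  have hxu : x ≠ u := fun h' => hxH (h' ▸ HH_top)
  change (d' x).2 = (d x).2
  rw [hd x (Finset.mem_coe.1 hx) hxu]

theorem Succ1.perm {D D' : Finset V} {u : V} {g : V → V} {d : V → Bool × V} {z : V}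
    {idx att dl : ℕ → ℕ} [Fintype V] (σ : Equiv.Perm V) (hσ : ∀ x, σ x ∈ D' ↔ x ∈ D)
    (hc : D'.card = D.card) (h : Succ1 P ℓ A D u g d z idx att dl) :
    Succ1 P ℓ A D' (σ u) (fun y => σ (g (σ.symm y)))
      (fun y => ((d (σ.symm y)).1, σ (d (σ.symm y)).2)) (σ z) idx att dl :=
  ⟨h.1.perm σ hσ hc, h.2.perm σ (fun x => by simpa using hσ x) (fun x => HH_perm σ x)⟩

end

section

variable {V : Type} [Fintype V] {P : Pattern} {ℓ A : ℕ}

theorem Sc1.sc {g : V → V} {u : V} {d : V → Bool × V} (h : Sc1 P ℓ A g u d) : Sc P ℓ A g u d := by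
  obtain ⟨z, idx, att, dl, h⟩ := h
  exact ⟨z, idx, att, dl, h.1⟩

/-- locality -/
theorem Sc1.congr {g g' : V → V} {u : V} {d d' : V → Bool × V} (hb : below g u = below g' u)
    (hg : ∀ x ∈ below g u, x ≠ u → g x = g' x ∧ d x = d' x) (h : Sc1 P ℓ A g u d) :
    Sc1 P ℓ A g' u d' := by
  obtain ⟨z, idx, att, dl, h⟩ := h
  have hD : belowF g u = belowF g' u := by
    apply Finset.coe_injective
    rw [coe_belowF, coe_belowF, hb]
  have hc : cutg g u = cutg g' u := by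
    funext x
    by_cases hx : x ∈ below g u ∧ x ≠ u
    · rw [cutg_in hx.1 hx.2, cutg_in (hb ▸ hx.1) hx.2, (hg x hx.1 hx.2).1]
    · have hx' : ¬ (x ∈ below g' u ∧ x ≠ u) := fun h => hx ⟨hb ▸ h.1, h.2⟩
      unfold cutg
      rw [if_neg hx, if_neg hx']
  refine ⟨z, idx, att, dl, ?_⟩
  rw [← hD, ← hc]
  refine h.congr_d (cutg_top g u) (fun x hx => ?_) (fun x hx hxu => ?_)
  · rw [mem_belowF] at hx ⊢
    exact cutg_mem hx
  · rw [mem_belowF] at hx
    exact (hg x hx hxu).2.symm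

theorem Sc1.perm_imp (σ : Equiv.Perm V) {g : V → V} {u : V} {d : V → Bool × V}
    (h : Sc1 P ℓ A g u d) : Sc1 P ℓ A (fun y => σ (g (σ.symm y))) (σ u)
      (fun y => ((d (σ.symm y)).1, σ (d (σ.symm y)).2)) := by
  obtain ⟨z, idx, att, dl, h⟩ := h
  have hσ : ∀ x, σ x ∈ belowF (fun y => σ (g (σ.symm y))) (σ u) ↔ x ∈ belowF g u := by
    intro x
    rw [mem_belowF, mem_belowF, conj_below]
    exact σ.injective.mem_set_image
  have hcard : (belowF (fun y => σ (g (σ.symm y))) (σ u)).card = (belowF g u).card := by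
    rw [card_belowF, card_belowF]
    exact conj_sz σ g u
  have hcut : cutg (fun y => σ (g (σ.symm y))) (σ u) = fun y => σ (cutg g u (σ.symm y)) := by
    funext y
    obtain ⟨x, rfl⟩ := σ.surjective y
    rw [Equiv.symm_apply_apply]
    have h1 : σ x ∈ below (fun y => σ (g (σ.symm y))) (σ u) ↔ x ∈ below g u := by
      rw [conj_below]
      exact σ.injective.mem_set_image
    by_cases hx : x ∈ below g u ∧ x ≠ u
    · rw [cutg_in hx.1 hx.2, cutg_in (h1.2 hx.1) (fun h => hx.2 (σ.injective h)),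
        Equiv.symm_apply_apply]
    · have hx' : ¬ (σ x ∈ below (fun y => σ (g (σ.symm y))) (σ u) ∧ σ x ≠ σ u) :=
        fun h => hx ⟨h1.1 h.1, fun h' => h.2 (by rw [h'])⟩
      unfold cutg
      rw [if_neg hx, if_neg hx']
  refine ⟨σ z, idx, att, dl, ?_⟩
  rw [hcut]
  exact h.perm σ hσ hcard

/-- invariance under permutations -/
theorem Sc1.perm (σ : Equiv.Perm V) {g : V → V} {u : V} {d : V → Bool × V} :
    Sc1 P ℓ A (fun y => σ (g (σ.symm y))) (σ u)
      (fun y => ((d (σ.symm y)).1, σ (d (σ.symm y)).2)) ↔ Sc1 P ℓ A g u d := by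
  constructor
  · intro h
    have h1 := h.perm_imp σ.symm
    simp only [Equiv.symm_symm, Equiv.symm_apply_apply] at h1
    exact h1
  · exact fun h => h.perm_imp σ

variable (P ℓ A)

theorem sc1_loc : Loc (fun (g : V → V) (u : V) (d : V → Bool × V) => Sc1 P ℓ A g u d) :=
  fun _ _ _ _ _ _ _ _ _ _ _ _ _ hb hg hs => Sc1.congr hb hg hs

theorem sc1_eqv : Eqv (fun (g : V → V) (u : V) (d : V → Bool × V) => Sc1 P ℓ A g u d) actD :=
  fun σ _ _ _ => Sc1.perm σ

theorem sc1_disj (B : Finset V) (a : V) (g : V → V) (u u' : V) (d : V → Bool × V)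
    (h : TB B a g) (_ : u ∈ B) (_ : u' ∈ B) (hne : u ≠ u') (hs : Sc1 P ℓ A g u d)
    (hs' : Sc1 P ℓ A g u' d) : Disjoint (below g u) (below g u') :=
  hs.sc.disj h.acyc hs'.sc hne

end

section

variable {V : Type} [Fintype V] {P : Pattern} {ℓ A : ℕ} {r : V}

theorem tmOf_mem1 {p : V → V} {u : V} {d : V → Bool × V} (hr : r ∉ below p u)
    (h : Sc1 P ℓ A p u d) : tmOf r p u d ∈ TT1 P ℓ A r := by
  classical
  obtain ⟨z, idx, att, dl, hs⟩ := h
  refine mem_TT1.2 ⟨⟨fun h => hr (mem_belowF.1 h), mem_belowF.2 (FringeAux.self_mem_below p u),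
    cutg_top p u, fun x hx => mem_belowF.2 (cutg_mem (mem_belowF.1 hx)),
    fun x hx => cutg_reach (mem_belowF.1 hx), fun x hx => cutg_out (fun h => hx (mem_belowF.2 h)),
    ?_⟩, z, idx, att, dl, ?_⟩
  · intro x hx
    refine if_neg ?_
    rintro ⟨h1, h2⟩
    rcases hx with h3 | h3
    · exact h3 (mem_belowF.2 h1)
    · exact h2 h3
  · refine hs.congr_d (cutg_top p u) (fun x hx => mem_belowF.2 (cutg_mem (mem_belowF.1 hx)))
      (fun x hx hxu => ?_)
    exact if_pos ⟨mem_belowF.1 hx, hxu⟩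

/-- two successes realise the pattern twice -/
theorem Sc1.twice {p : V → V} (hp : p ∈ PF r) {u u' : V} {d : V → Bool × V} (hu : u ≠ r)
    (hu' : u' ≠ r) (hne : u ≠ u') (h : Sc1 P ℓ A p u d) (h' : Sc1 P ℓ A p u' d) :
    Twice1 P p r (fun x => (d x).1) (fun x => (d x).2) := by
  refine ⟨u, u', ?_, ?_, h.sc.disj (acyc_of_PF hp) h'.sc hne⟩
  · exact realAt1_of_mt (tmOf_mem1 (FringeAux.root_notMem_below hp hu) h) (tmOf_mt hp u d)
  · exact realAt1_of_mt (tmOf_mem1 (FringeAux.root_notMem_below hp hu') h') (tmOf_mt hp u' d)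

/-- the number of successes with a given branch -/
theorem sum_Sc1_ge [DecidableEq V] (D : Finset V)
    (hfib : ((TT1 P ℓ A r).filter fun τ => τ.D = D).card = Tn1 P ℓ A r D.card) :
    Tn1 P ℓ A r D.card * (Fintype.card (Bool × V)) ^ (Fintype.card V - (D.card - 1)) ≤
      ∑ u ∈ D, {q : (V → V) × (V → Bool × V) | (q.1 u = u ∧ (∀ x ∈ D, q.1 x ∈ D) ∧
        (∀ x ∈ D, ∃ m, q.1^[m] x = u) ∧ ∀ x, x ∉ D → q.1 x = x) ∧ Sc1 P ℓ A q.1 u q.2}.ncard := by
  haveI hdp : ∀ (S : Set ((V → V) × (V → Bool × V))), Fintype S := fun S =>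
    Fintype.ofFinite S
  haveI hdec : ∀ S : Set V, DecidablePred (· ∈ S) := fun S => Classical.decPred _
  set c := Fintype.card (Bool × V) with hc
  set N : V → Set ((V → V) × (V → Bool × V)) := fun u => {q | (q.1 u = u ∧ (∀ x ∈ D, q.1 x ∈ D) ∧
        (∀ x ∈ D, ∃ m, q.1^[m] x = u) ∧ ∀ x, x ∉ D → q.1 x = x) ∧ Sc1 P ℓ A q.1 u q.2} with hN
  -- pairs of a template and an extension of its decoration
  set F := (TT1 P ℓ A r).filter fun τ => τ.D = D with hF
  have hE : ∀ τ : Tm V (Bool × V), τ ∈ F →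
      ((Finset.univ : Finset (V → Bool × V)).filter fun d' => ∀ x ∈ D.erase τ.u, d' x = τ.d x).card =
        c ^ (Fintype.card V - (D.card - 1)) := by
    intro τ hτ
    rw [hF, Finset.mem_filter] at hτ
    have h1 := card_deco (D.erase τ.u) τ.d
    have hu : τ.u ∈ D := hτ.2 ▸ (mem_TT1.1 hτ.1).1.top
    rw [Finset.card_erase_of_mem hu] at h1
    rw [← h1, ← Set.ncard_coe_finset]
    congr 1
    ext d'
    simp
  have h1 : (F.sigma fun τ => (Finset.univ : Finset (V → Bool × V)).filter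
      fun d' => ∀ x ∈ D.erase τ.u, d' x = τ.d x).card =
      Tn1 P ℓ A r D.card * c ^ (Fintype.card V - (D.card - 1)) := by
    rw [Finset.card_sigma, Finset.sum_congr rfl hE, Finset.sum_const, smul_eq_mul, hF,
      hfib]
  rw [← h1]
  have h2 : ∑ u ∈ D, (N u).ncard = (D.sigma fun u => (N u).toFinset).card := by
    rw [Finset.card_sigma]
    refine Finset.sum_congr rfl fun u _ => ?_
    rw [Set.ncard_eq_toFinset_card']
  show _ ≤ ∑ u ∈ D, (N u).ncard
  rw [h2]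
  refine Finset.card_le_card_of_injOn (fun q => ⟨q.1.u, (q.1.g, q.2)⟩) ?_ ?_
  · rintro ⟨τ, d'⟩ hq
    rw [Finset.mem_coe, Finset.mem_sigma] at hq
    obtain ⟨hτ, hq2⟩ := hq
    have hd' := (Finset.mem_filter.1 hq2).2
    rw [hF, Finset.mem_filter] at hτ
    obtain ⟨hτ, hD⟩ := hτ
    obtain ⟨hw, z, idx, att, dl, hs⟩ := mem_TT1.1 hτ
    rw [Finset.mem_coe, Finset.mem_sigma, Set.mem_toFinset]
    subst hD
    refine ⟨hw.top, ⟨hw.gtop, hw.inD, hw.reach, hw.gout⟩, ?_⟩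
    simp only at hd' ⊢
    have hb : belowF τ.g τ.u = τ.D := by
      ext x
      rw [mem_belowF]
      constructor
      · rintro ⟨m, hm⟩
        by_contra hx
        rw [Function.iterate_fixed (hw.gout x hx) m] at hm
        exact hx (hm ▸ hw.top)
      · exact fun hx => hw.reach x hx
    have hcut : cutg τ.g τ.u = τ.g := by
      funext x
      by_cases hx : x ∈ below τ.g τ.u
      · by_cases hxu : x = τ.u
        · rw [hxu, cutg_top, hw.gtop]
        · exact cutg_in hx hxu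
      · rw [cutg_out hx]
        exact (hw.gout x (fun h => hx (mem_belowF.1 (hb.symm ▸ h)))).symm
    refine ⟨z, idx, att, dl, ?_⟩
    rw [hb, hcut]
    exact hs.congr_d hw.gtop hw.inD (fun x hx hxu => hd' x (Finset.mem_erase.2 ⟨hxu, hx⟩))
  · rintro ⟨⟨D₁, u₁, g₁, d₁⟩, d'⟩ hq ⟨⟨D₂, u₂, g₂, d₂⟩, d''⟩ hq' he
    rw [Finset.mem_coe, Finset.mem_sigma] at hq hq'
    obtain ⟨hτ, hq2⟩ := hq
    obtain ⟨hτ', hq2'⟩ := hq'
    have hd' := (Finset.mem_filter.1 hq2).2
    have hd'' := (Finset.mem_filter.1 hq2').2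
    rw [hF, Finset.mem_filter] at hτ hτ'
    obtain ⟨hτ, hD⟩ := hτ
    obtain ⟨hτ', hD'⟩ := hτ'
    have hw := (mem_TT1.1 hτ).1
    have hw' := (mem_TT1.1 hτ').1
    simp only at hD hD' hd' hd''
    have e0 := Sigma.mk.inj he
    have e1 : u₁ = u₂ := e0.1
    have e2 : (g₁, d') = (g₂, d'') := eq_of_heq e0.2
    have e3 : g₁ = g₂ := congrArg Prod.fst e2
    have e4 : d' = d'' := congrArg Prod.snd e2
    subst e1
    subst e3
    subst e4
    subst hD
    subst hD'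
    have hd : d₁ = d₂ := by
      funext x
      by_cases hx : x ∈ D₂ ∧ x ≠ u₁
      · rw [← hd' x (Finset.mem_erase.2 ⟨hx.2, hx.1⟩), ← hd'' x (Finset.mem_erase.2 ⟨hx.2, hx.1⟩)]
      · have hx' : x ∉ D₂ ∨ x = u₁ := by
          by_contra hcon
          push Not at hcon
          exact hx hcon
        exact (hw.dout x hx').trans (hw'.dout x hx').symm
    subst hd
    rfl

end

section

variable {V : Type} [Fintype V] (P : Pattern) (ℓ A : ℕ)

theorem Tn1_le_num [DecidableEq V] {r : V} (D : Finset V)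
    (hfib : ((TT1 P ℓ A r).filter fun τ => τ.D = D).card = Tn1 P ℓ A r D.card) :
    (Tn1 P ℓ A r D.card : ℝ) * (Fintype.card (Bool × V) : ℝ) ^ (Fintype.card V - (D.card - 1)) ≤
      D.card * num (NS (fun (g : V → V) (u : V) (d : V → Bool × V) => Sc1 P ℓ A g u d)) D.card := by
  have h1 := sum_Sc1_ge (P := P) (ℓ := ℓ) (A := A) D hfib
  have h2 : ∀ u ∈ D, (({q : (V → V) × (V → Bool × V) | (q.1 u = u ∧ (∀ x ∈ D, q.1 x ∈ D) ∧
        (∀ x ∈ D, ∃ m, q.1^[m] x = u) ∧ ∀ x, x ∉ D → q.1 x = x) ∧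
          Sc1 P ℓ A q.1 u q.2}.ncard : ℕ) : ℝ) =
      num (NS (fun (g : V → V) (u : V) (d : V → Bool × V) => Sc1 P ℓ A g u d)) D.card := by
    intro u hu
    rw [← num_eq (fun B a σ => NS_cj (sc1_eqv P ℓ A) B a σ) hu]
    unfold NS
    rw [← Nat.cast_sum, ← ncard_pairs]
    congr 2
    ext q
    simp only [Set.mem_setOf_eq, mem_TBs]
    constructor
    · rintro ⟨⟨a1, a2, a3, a4⟩, a5⟩
      exact ⟨⟨hu, a1, a2, a3, a4⟩, a5⟩
    · rintro ⟨h, a5⟩
      exact ⟨⟨h.root, h.mem, h.reach, h.out⟩, a5⟩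
  have h3 := Finset.sum_congr rfl h2
  rw [Finset.sum_const, nsmul_eq_mul, ← Nat.cast_sum] at h3
  rw [← h3]
  exact_mod_cast h1

/-- the number of pairs with at most `m` marks -/
theorem cnt_le_sum1 [DecidableEq V] (r : V) (m : ℕ) :
    ({ω : (V → V) × (V → Bool × V) | ω.1 ∈ TBs (Finset.univ : Finset V) r ∧
        cnt (Finset.univ.erase r) (fun u => Sc1 P ℓ A ω.1 u ω.2) ≤ m}.ncard : ℝ) ≤
    2 ^ m * ∑ g ∈ TBs (Finset.univ : Finset V) r, ∑ d : V → Bool × V,
      (1 / 2 : ℝ) ^ cnt (Finset.univ.erase r) (fun u => Sc1 P ℓ A g u d) := by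
  set R : (V → V) → (V → Bool × V) → Prop := fun g d =>
    cnt (Finset.univ.erase r) (fun u => Sc1 P ℓ A g u d) ≤ m with hR
  have h1 : {ω : (V → V) × (V → Bool × V) | ω.1 ∈ TBs (Finset.univ : Finset V) r ∧
        cnt (Finset.univ.erase r) (fun u => Sc1 P ℓ A ω.1 u ω.2) ≤ m} =
      {ω : (V → V) × (V → Bool × V) | ω.1 ∈ TBs (Finset.univ : Finset V) r ∧ R ω.1 ω.2} := rfl
  rw [h1, ncard_pairs, Nat.cast_sum, Finset.mul_sum]
  refine Finset.sum_le_sum fun g hg => ?_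
  haveI : DecidablePred fun d => R g d := Classical.decPred _
  have h2 : {d | R g d} = (((Finset.univ : Finset (V → Bool × V)).filter fun d => R g d :
      Finset (V → Bool × V)) : Set (V → Bool × V)) := by
    ext d
    simp
  rw [h2, Set.ncard_coe_finset, Finset.mul_sum, Finset.card_filter, Nat.cast_sum]
  refine Finset.sum_le_sum fun d _ => ?_
  by_cases hd : R g d
  · rw [if_pos hd]
    have h4 : (1 / 2 : ℝ) ^ m ≤ (1 / 2 : ℝ) ^ cnt (Finset.univ.erase r)
        (fun u => Sc1 P ℓ A g u d) := pow_le_pow_of_le_one (by norm_num) (by norm_num) hd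
    have h5 : (2 : ℝ) ^ m * (1 / 2 : ℝ) ^ m = 1 := by
      rw [← mul_pow]
      norm_num
    have h6 : (2 : ℝ) ^ m * (1 / 2 : ℝ) ^ m ≤ 2 ^ m * (1 / 2 : ℝ) ^ cnt (Finset.univ.erase r)
        (fun u => Sc1 P ℓ A g u d) := mul_le_mul_of_nonneg_left h4 (by positivity)
    push_cast
    linarith
  · rw [if_neg hd]
    push_cast
    positivity

end

end Pool.Agent.OC
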